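import Pool.Agent.P.MP_7a6434d8_pr.QL.Rsw.Base

/-! Block RSW: the general boost and its two special cases. -/

open MeasureTheory ProbabilityTheory Set Filter Topology Metric
open scoped ENNReal

namespace Pool.Agent.QL

open Pool.Agent.LGD

variable {ν : Measure Dist} {Γ : Grid}

theorem bo_add (x y : ℝ) : ex (x + y) = ex x * ex y := by
  rw [ex, ex, ex, Real.exp_add, ENNReal.ofReal_mul (Real.exp_pos x).le]

theorem bo_ne_top (x : ℝ) : ex x ≠ ⊤ := ENNReal.ofReal_ne_top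

theorem bo_small {C ε : ℝ≥0∞} (hC : C ≠ ⊤) (hε : 0 < ε) : ∃ A : ℝ, C * ex (-A) ≤ ε := by
  have h : Tendsto (fun A : ℝ => C * ex (-A)) atTop (𝓝 (C * ENNReal.ofReal 0)) :=
    ENNReal.Tendsto.const_mul (ENNReal.tendsto_ofReal Real.tendsto_exp_neg_atTop_nhds_zero)
      (Or.inr hC)
  rw [ENNReal.ofReal_zero, mul_zero] at h
  exact (h.eventually (ge_mem_nhds hε)).exists

theorem bo_pos {C ε : ℝ≥0∞} (hC : C ≠ ⊤) (hε : 0 < ε) : ∃ δ : ℝ≥0∞, 0 < δ ∧ C * δ < ε := by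
  obtain ⟨δ, h1, h2⟩ := ENNReal.exists_nnreal_pos_mul_lt hC hε.ne'
  exact ⟨δ, ENNReal.coe_pos.2 h1, by rwa [mul_comm]⟩

theorem bo_pow {C ε : ℝ≥0∞} (hC : C ≠ ⊤) (hε : 0 < ε) : ∃ n : ℕ, C * 2⁻¹ ^ n ≤ ε := by
  obtain ⟨δ, h1, h2⟩ := bo_pos hC hε
  obtain ⟨n, hn⟩ := ENNReal.exists_inv_two_pow_lt h1.ne'
  exact ⟨n, (mul_le_mul_right hn.le C).trans h2.le⟩

theorem bo_ceil {a : ℝ} (ha : 0 < a) {y : ℝ} (hy : 0 ≤ y) :
    y ≤ a * ⌈y / a⌉₊ ∧ (⌈y / a⌉₊ : ℝ) ≤ y * a⁻¹ + 1 :=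
  ⟨(div_le_iff₀' ha).1 (Nat.le_ceil _), (Nat.ceil_lt_add_one (div_nonneg hy ha.le)).le⟩

theorem bo_le_ceil {a : ℝ} (ha : 0 < a) {y : ℝ} {n : ℕ} (h : a * n ≤ y) : n ≤ ⌈y / a⌉₊ :=
  Nat.cast_le.1 (((le_div_iff₀' ha).2 h).trans (Nat.le_ceil _))

theorem boost_of (hν : IsCanon ν) {a b : ℝ} (hd : DetSt Γ) (hr : RCSt ν Γ a b)
    (he : CostESt ν Γ) : BoostSt ν Γ a b := by
  obtain ⟨C₁, hC₁, hd⟩ := hd
  obtain ⟨ε₁, hε₁, hr⟩ := hr
  obtain ⟨ε₂, C₂, hε₂, hC₂, he⟩ := he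
  refine ⟨min ε₁ ε₂, C₁ * (1 + C₂), lt_min hε₁ hε₂,
    ENNReal.mul_ne_top hC₁ (ENNReal.add_ne_top.2 ⟨ENNReal.one_ne_top, hC₂⟩), fun η hη => ?_⟩
  obtain ⟨L₀, hr⟩ := hr η hη
  refine ⟨L₀, fun L R c W x x' θ n₀ δ m hL hW hok hδ hm => ?_⟩
  have h1 := hr L R c x' hL (hok.mono (min_le_left _ _) le_rfl le_rfl)
  have h2 := he L R c W x x' _ _ n₀ δ hW (hok.mono (min_le_right _ _) le_rfl le_rfl) hδ
  have mI : MeasurableSet {ω : Dist × Sys |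
      ω.1 ∈ Γ.InR L (c - b * (2 * L + 1)) (c + 1 - a * L)} :=
    measurable_fst (Γ.measurableSet_InR _ _ _)
  have mM : Measurable fun ω : Dist × Sys => Γ.costM L W ω.1 :=
    (Γ.measurable_costM L hW).comp measurable_fst
  have mE := Γ.measurable_costE L hW x x'
  have mZ : Measurable fun ω : Dist × Sys =>
      C₁ * (ex x * Γ.costM L W ω.1 + ex x' * Γ.costE L W x x' ω) :=
    ((mM.const_mul _).add (mE.const_mul _)).const_mul _
  have mS := measurableSet_le (measurable_const (a := ex θ)) mZ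
  have h3 := mul_meas_ge_le_lintegral (μ := (R.P c).restrict {ω : Dist × Sys |
      ω.1 ∈ Γ.InR L (c - b * (2 * L + 1)) (c + 1 - a * L)}) mZ (ex θ)
  rw [Measure.restrict_apply mS, lintegral_const_mul' _ _ hC₁,
    lintegral_add_left (mM.const_mul _), lintegral_const_mul _ mM, lintegral_const_mul _ mE] at h3
  have h4 := (setLIntegral_le_lintegral {ω : Dist × Sys |
      ω.1 ∈ Γ.InR L (c - b * (2 * L + 1)) (c + 1 - a * L)} _).trans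
    ((R.lintegral_P_fst hν c (Γ.measurable_costM L hW)).trans_le hm)
  rw [R.bet_eq_P hν c (measurableSet_big θ)]
  refine (R.P_mono_real hν c (measurable_snd (measurableSet_big θ))
    ((mI.inter (measurable_snd (Γ.measurableSet_Cover L x'))).compl.union (mS.inter mI))
    fun ω hω hb => ?_).trans ((measure_union_le _ _).trans (add_le_add h1 ?_))
  · exact or_iff_not_imp_left.2 fun h5 =>
      ⟨le_trans hb (hd L W x x' ω hω (not_not.1 h5).2), (not_not.1 h5).1⟩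
  · have e : ex (-θ) * ex θ = 1 := by rw [← bo_add, neg_add_cancel, ex, Real.exp_zero,
      ENNReal.ofReal_one]
    have h5 := mul_le_mul_right (h3.trans (mul_le_mul_right
      (add_le_add (mul_le_mul_right h4 _) (mul_le_mul_right h2 _)) _)) (ex (-θ))
    rw [← mul_assoc, e, one_mul] at h5
    refine h5.trans ?_
    rw [sub_eq_add_neg x, sub_eq_add_neg x', bo_add, bo_add]
    generalize (2 : ℝ≥0∞) ^ n₀ * δ + 2⁻¹ ^ n₀ = T
    calc _ ≤ ex (-θ) * (C₁ * (ex x * m + ex x' * (C₂ * T))) +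
          C₁ * (C₂ * (ex x * ex (-θ) * m) + ex x' * ex (-θ) * T) := le_self_add
      _ = _ := by ring

theorem b1_of (hν : IsCanon ν) {a b : ℝ} (ha : 0 < a) (hb : 0 < b) (h : BoostSt ν Γ a b) :
    B1St ν := by
  obtain ⟨ε, C, hε, hC, h⟩ := h
  have ha' := inv_pos.2 ha
  refine ⟨ε, b * (10 * a⁻¹ + 3) + 3, hε, by nlinarith [mul_pos hb ha'], fun ε₀ hε₀ => ?_⟩
  obtain ⟨η, hη, hη'⟩ := bo_pos ENNReal.ofNat_ne_top (C := 2) hε₀
  obtain ⟨A, hA⟩ := bo_small (ENNReal.mul_ne_top hC ENNReal.ofNat_ne_top : C * 2 ≠ ⊤) hη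
  obtain ⟨L₀, h⟩ := h η hη
  refine ⟨A, max 1 (a * L₀), fun R c x l hl hok => ?_⟩
  obtain ⟨h1, h2⟩ := max_le_iff.1 hl
  obtain ⟨h3, h4⟩ := bo_ceil ha (y := l + 4) (by linarith)
  have := R.P_prob hν c
  refine (h ⌈(l + 4) / a⌉₊ R c ∅ x x (x + A) 0 1 0 (bo_le_ceil ha (by linarith))
    MeasurableSet.empty (hok.mono le_rfl ?_ (by linarith)) (fun _ _ => prob_le_one)
    (by simp [Grid.costM])).trans_lt (lt_of_le_of_lt ?_ hη')
  · have h5 : 2 * (⌈(l + 4) / a⌉₊ : ℝ) + 1 ≤ (10 * a⁻¹ + 3) * l := by nlinarith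
    nlinarith
  · rw [two_mul η, show x - (x + A) = -A by ring]
    refine add_le_add le_rfl (le_trans (le_of_eq ?_) hA)
    rw [pow_zero, pow_zero, one_mul, one_add_one_eq_two]
    ring

theorem b4_of (hν : IsCanon ν) {a b : ℝ} (ha : 0 < a) (hb : 0 < b) (h : BoostSt ν Γ a b)
    (hm : MainSt ν Γ) (hx : ExcSt ν Γ a) : B4St ν := by
  have _ := hν
  obtain ⟨ε, C, hε, hC, h⟩ := h
  obtain ⟨ε', hε', hx⟩ := hx
  have ha' := inv_pos.2 ha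
  refine ⟨min ε ε', b * (6 * a⁻¹ + 5) + 3, lt_min hε hε', by positivity, fun ε₀ hε₀ C₃ => ?_⟩
  obtain ⟨η, hη, hη'⟩ := bo_pos ENNReal.ofNat_ne_top (C := 4) hε₀
  have hC' : C * ex (C₃ + 1) ≠ ⊤ := ENNReal.mul_ne_top hC (bo_ne_top _)
  obtain ⟨n₀, hn⟩ := bo_pow hC' hη
  obtain ⟨δ, hδ, hδ'⟩ := bo_pos (ENNReal.mul_ne_top hC'
    (ENNReal.pow_ne_top ENNReal.ofNat_ne_top) : C * ex (C₃ + 1) * 2 ^ n₀ ≠ ⊤) hη
  obtain ⟨K, J, d₀, hx⟩ := hx δ hδ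
  obtain ⟨m, hm', hm⟩ := hm K
  obtain ⟨A, hA⟩ := bo_small (ENNReal.mul_ne_top hC hm') hη
  obtain ⟨L₀, h⟩ := h η hη
  refine ⟨A + 1, K + 3, max (max 2 J) (max d₀ (a * L₀)), fun R c x d hd hok hok' => ?_⟩
  simp only [max_le_iff] at hd
  obtain ⟨⟨h1, h2⟩, h3, h4⟩ := hd
  obtain ⟨h5, h6⟩ := bo_ceil ha (y := d + 2) (by linarith)
  have h7 : 0 ≤ a * J := by positivity
  have h8 : d + 2 + a * J ≤ a * (⌈(d + 2) / a⌉₊ + J : ℕ) := by
    push_cast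
    linarith
  refine (h (⌈(d + 2) / a⌉₊ + J) R c (Icc (c - d - K) (c - d + K)) (x - (A + 1)) (x + C₃) (x - 1)
    n₀ δ m (le_add_right (bo_le_ceil ha (by linarith))) measurableSet_Icc
    (hok.mono (min_le_left _ _) ?_ (by linarith))
    (fun z hz => hx R c _ d _ z h3 h8 hz (hok'.mono (min_le_right _ _) (by linarith) (by linarith)))
    (hm c (c - d) _)).trans_lt (lt_of_le_of_lt ?_ hη')
  · have h9 : 2 * ((⌈(d + 2) / a⌉₊ + J : ℕ) : ℝ) + 1 ≤ (6 * a⁻¹ + 5) * d := by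
      push_cast
      nlinarith
    nlinarith
  · rw [show x - (A + 1) - (x - 1) = -A by ring, show x + C₃ - (x - 1) = C₃ + 1 by ring]
    calc _ = η + (C * m * ex (-A) + (C * ex (C₃ + 1) * 2 ^ n₀ * δ +
          C * ex (C₃ + 1) * 2⁻¹ ^ n₀)) := by ring
      _ ≤ η + (η + (η + η)) := add_le_add le_rfl (add_le_add hA (add_le_add hδ'.le hn))
      _ = _ := by ring

end Pool.Agent.QL
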