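import Pool.Agent.P.MP_7a6434d8_pr.QL.Rsw.Env
import Pool.Agent.P.MP_7a6434d8_pr.QL.GT.Lev

/-! Block RSW: chains of bad frames. -/

open MeasureTheory ProbabilityTheory Set Filter Topology Metric
open scoped ENNReal

namespace Pool.Agent.QL

open Pool.Agent.LGD

variable {ν : Measure Dist} {Γ : Grid}

/-- Sum of the four rotated versions of a local function, cut at one. -/
noncomputable def cn_Gs (G : Dist → ℝ≥0∞) (h : Dist) : ℝ≥0∞ :=
  min 1 (∑ j : Fin 4, G (absF (rotF j) h))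

theorem cn_Gs_loc {G : Dist → ℝ≥0∞} (hG : Loc Tp.1 G) : Loc (ann 0 2 4) (cn_Gs G) := by
  have h1 : ∀ j : ℕ, Loc (ann 0 2 4) fun h => G (absF (rotF j) h) := fun j =>
    hG.absF (rotF j) fun x hx => by
      have h2 := Tp_subset hx
      simpa only [ann, mem_ofPred_eq, sub_zero, norm_rotF_map] using h2
  have h2 : Measurable[fieldSigma id (ann 0 2 4)] fun h => ∑ j : Fin 4, G (absF (rotF j) h) :=
    Finset.measurable_fun_sum (m := fieldSigma id (ann 0 2 4)) _ fun j _ => h1 j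
  exact Measurable.min (mδ := fieldSigma id (ann 0 2 4)) measurable_const h2

theorem cn_Gs_rare (hν : IsCanon ν) {G : Dist → ℝ≥0∞} (hG : Measurable G) {t : ℝ} {ε : ℝ≥0∞}
    (h : ∫⁻ k, G (lev k t) ∂ν ≤ ε / 4) : ∫⁻ k, cn_Gs G (lev k t) ∂ν ≤ ε := by
  calc _ ≤ ∫⁻ k, ∑ j : Fin 4, G (absF (rotF j) (lev k t)) ∂ν :=
        lintegral_mono fun k => min_le_right _ _
    _ = ∑ j : Fin 4, ∫⁻ k, G (absF (rotF j) (lev k t)) ∂ν :=
        lintegral_finsetSum _ fun j _ =>
          hG.comp ((measurable_absF _).comp (measurable_lev_const t))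
    _ ≤ ∑ _j : Fin 4, ε / 4 :=
        Finset.sum_le_sum fun j _ => (lintegral_rot hν j t hG).le.trans h
    _ = ε := by
        rw [Finset.sum_const, Finset.card_univ, Fintype.card_fin, nsmul_eq_mul]
        exact ENNReal.mul_div_cancel (by norm_num) (by norm_num)

theorem cn_succ (i J : ℕ) (x : ℝ) (z : ℂ) : Γ.BadCh i (J + 1) x z =
    (⋃ j : Fin 4, pull ((Γ.ch (i + 1) z).comp (rotF j)) ⁻¹' bad x) ∩ Γ.BadCh (i + 1) J x z := by
  ext s
  have e : ∀ j, i + 1 + (j + 1) = i + 1 + 1 + j := fun j => by omega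
  have e2 : s ∈ (⋃ j : Fin 4, pull ((Γ.ch (i + 1) z).comp (rotF j)) ⁻¹' bad x) ↔
      ex x < Loop (Γ.ch (i + 1) z) s := by
    rw [Loop, lt_iSup_iff, mem_iUnion]
    rfl
  rw [mem_inter_iff, e2]
  refine ⟨fun h => ⟨h 0 (Nat.succ_pos J), fun j hj => ?_⟩, fun h j hj => ?_⟩
  · rw [← e]
    exact h (j + 1) (Nat.succ_lt_succ hj)
  · cases j with
    | zero => exact h.1
    | succ j =>
      rw [e]
      exact h.2 j (Nat.lt_of_succ_lt_succ hj)

/-- The position of a rotated bar of the frame of depth `i` above `z`. -/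
theorem cn_geom {i : ℕ} {z : ℂ} (hz : z ∈ Box) (j : ℕ) {w : ℂ}
    (hw : w ∈ ((Γ.ch i z).comp (rotF j)).map '' Tp.1) :
    rad i ≤ ‖w - z‖ ∧ ‖w - z‖ < 5 * rad i := by
  obtain ⟨v, hv, rfl⟩ := hw
  obtain ⟨h1, h2⟩ := Tp_subset hv
  rw [sub_zero] at h1 h2
  have h3 := Γ.ch_near i z
  have h4 : ‖(Γ.ch i z).a * (rotF j).map v‖ = rad i * ‖v‖ := by
    rw [norm_mul, Γ.norm_a (Γ.ch_mem i z hz), norm_rotF_map]
  have h5 := rad_pos i
  rw [Fr.comp_map, Fr.map_apply, add_sub_assoc]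
  have h6 := norm_add_le ((Γ.ch i z).a * (rotF j).map v) ((Γ.ch i z).z - z)
  have h7 := norm_sub_le ((Γ.ch i z).a * (rotF j).map v + ((Γ.ch i z).z - z)) ((Γ.ch i z).z - z)
  rw [add_sub_cancel_right] at h7
  rw [h4] at h6 h7
  constructor <;> nlinarith

theorem cn_mapsTo {i : ℕ} {z : ℂ} (hz : z ∈ Box) (j : ℕ) :
    MapsTo ((Γ.ch i z).comp (rotF j)).map U0 U0 := fun v hv => by
  rw [Fr.comp_map]
  exact Γ.mapsTo (Γ.ch_mem i z hz) (mapsTo_rotF j hv)

theorem cn_meas {z : ℂ} (hz : z ∈ Box) (x : ℝ) (J : ℕ) : ∀ i : ℕ,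
    MeasurableSet[SS (ball z (rad i))] (Γ.BadCh i J x z) := by
  induction J with
  | zero =>
    intro i
    have e : Γ.BadCh i 0 x z = univ := by ext s; simp [Grid.BadCh]
    rw [e]
    exact MeasurableSet.univ
  | succ J ih =>
    intro i
    rw [cn_succ]
    refine MeasurableSet.inter (MeasurableSet.iUnion fun j => ?_)
      (SS_mono (ball_subset_ball (rad_anti (Nat.le_succ i))) _ (ih (i + 1)))
    refine SS_mono (fun w hw => ?_) _ (measurable_pull_SS _ _ (measurableSet_bad_SS x))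
    have h1 := (cn_geom hz j hw).2
    have h2 := rad_add i 1
    have h3 := rad_pos i
    rw [mem_ball, dist_eq_norm]
    rw [h2] at h1
    linarith

theorem cn_prod (hν : IsCanon ν) (R : Regime ν) {z : ℂ} (hz : z ∈ Box) {x : ℝ}
    {G : Dist → ℝ≥0∞} (hG : ∀ᵐ k ∂nuh ν, R.K k (bad x) = G k) (J : ℕ) : ∀ i : ℕ,
    ∀ᵐ h ∂nuh ν, R.K h (Γ.BadCh i J x z) ≤
      ∏ j ∈ Finset.range J, cn_Gs G (absF (Γ.ch (i + (j + 1)) z) h) := by
  induction J with
  | zero => exact fun i => Eventually.of_forall fun h => by simpa using prob_le_one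
  | succ J ih =>
    intro i
    have h1 : ∀ j : Fin 4, ∀ᵐ h ∂nuh ν,
        R.K h (pull ((Γ.ch (i + 1) z).comp (rotF j)) ⁻¹' bad x ∩ Γ.BadCh (i + 1) J x z) =
          G (absF (rotF j) (absF (Γ.ch (i + 1) z) h)) * R.K h (Γ.BadCh (i + 1) J x z) := by
      intro j
      have h2 := R.indep _ (ball z (rad (i + 1))) (nice_Tp.image (cn_mapsTo (Γ := Γ) hz j))
        (disjoint_left.2 fun w hw hw' => by
          rw [mem_ball, dist_eq_norm] at hw'
          exact (cn_geom hz j hw).1.not_gt hw') _ _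
        (measurable_pull_SS _ _ (measurableSet_bad_SS x)) (cn_meas (Γ := Γ) hz x J (i + 1))
      filter_upwards [h2, R.cov _ (cn_mapsTo (Γ := Γ) (i := i + 1) hz j) _ (measurableSet_bad_U0 x),
        (absF_qmp hν ((Γ.ch (i + 1) z).comp (rotF j))).ae hG] with h h3 h4 h5
      rw [h3, h4, h5, absF_absF (Fr.comp_z _ _) (Fr.comp_a _ _)]
    filter_upwards [ae_all_iff.2 h1, ih (i + 1)] with h h2 h3
    have e : ∀ j, i + (j + 1 + 1) = i + 1 + (j + 1) := fun j => by omega
    rw [Finset.prod_range_succ', mul_comm, cn_succ]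
    simp only [e, zero_add]
    refine le_trans ?_ (mul_le_mul_right h3 _)
    rcases min_cases 1 (∑ j : Fin 4, G (absF (rotF j) (absF (Γ.ch (i + 1) z) h))) with
      ⟨h4, -⟩ | ⟨h4, -⟩ <;> rw [cn_Gs, h4]
    · rw [one_mul]
      exact measure_mono inter_subset_right
    · rw [iUnion_inter, Finset.sum_mul]
      refine (measure_iUnion_fintype_le _ _).trans (Finset.sum_le_sum fun j _ => (h2 j).le)

/-- The factor of one frame, as a function of the field with its constant. -/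
noncomputable def cn_fac (F : Fr) (G : Dist → ℝ≥0∞) (lo hi : ℝ) (h : Dist) : ℝ≥0∞ :=
  {h | Phi F h ∈ Icc lo hi}.indicator (fun h => G (absF F h)) h

theorem cn_fac_lev (F : Fr) (G : Dist → ℝ≥0∞) (lo hi t : ℝ) (k : Dist) :
    cn_fac F G lo hi (lev k t) = lfac F G lo hi t k := by
  simp only [cn_fac, lfac, indicator, mem_ofPred_eq, Phi_lev]

theorem cn_fac_meas (F : Fr) {G : Dist → ℝ≥0∞} (hG : Measurable G) (lo hi : ℝ) :
    Measurable (cn_fac F G lo hi) :=
  (hG.comp (measurable_absF F)).indicator (measurable_Phi F measurableSet_Icc)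

theorem chain_of (hν : IsCanon ν) {C c₀ : ℝ} (h : LTailAt ν C c₀) (Γ : Grid) :
    ChainSt ν Γ (env C c₀) := by
  intro ε' hε'
  obtain ⟨ε₁, h1, h2⟩ := h ε' hε'
  obtain ⟨ε, h3, h4⟩ := bet_small hν 0 (ε := ε₁ / 4) (ENNReal.div_pos h1.ne' (by norm_num))
  refine ⟨ε, h3, fun R x c y lo hi i J z hz hok => ?_⟩
  obtain ⟨G, hG1, hG2, hG3⟩ := R.loc1 nice_Tp (measurableSet_bad_SS x)
  have hGs := cn_Gs_loc hG1
  have hch : IsChainG ν ε₁ J (fun j => Γ.ch (i + j) z) (fun _ => cn_Gs G) z (rad i) lo hi :=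
    { top := (Γ.norm_z (Γ.ch_mem _ z hz)).trans (by norm_num)
      small := (rad_le i).trans (by norm_num)
      scale := fun j _ => (Γ.norm_a (Γ.ch_mem _ z hz)).trans (rad_add i j)
      centre := fun j _ => (Γ.ch_near _ z).trans (by rw [rad_add])
      loc := fun _ _ _ => hGs
      le_one := fun _ _ _ _ => min_le_left _ _
      rare := fun _ _ _ t ht => cn_Gs_rare hν hG1.measurable
        (((h4 R (bad x) t t (by simp)).1 G (hG1.mono' nice_Tp.2.2) hG2 hG3).1 (hok t ht)) }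
  set H : Dist → ℝ≥0∞ := {h | Phi (Γ.ch i z) h ∈ Icc y (y + 1)}.indicator fun h =>
    ∏ j ∈ Finset.range J, cn_fac (Γ.ch (i + (j + 1)) z) (cn_Gs G) lo hi h with hH
  have hm : MeasurableSet {h | Phi (Γ.ch i z) h ∈ Icc y (y + 1)} :=
    measurable_Phi _ measurableSet_Icc
  have hHm : Measurable H :=
    (Finset.measurable_fun_prod _ fun j _ => cn_fac_meas _ hGs.measurable lo hi).indicator hm
  have hg : Measurable fun s =>
      gw C c₀ (-Real.log (rad i)) (y - c - s - QQ * Real.log (rad i)) :=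
    (measurable_gw _ _ _).comp ((measurable_const.sub measurable_id).sub measurable_const)
  have hS : MeasurableSet {ω : Dist × Sys | Phi (Γ.ch i z) ω.1 ∈ Icc y (y + 1) ∧
      (∀ j < J, Phi (Γ.ch (i + 1 + j) z) ω.1 ∈ Icc lo hi) ∧ ω.2 ∈ Γ.BadCh i J x z} :=
    (measurable_fst hm).inter ((measurable_fst (Γ.measurableSet_lvCh i J z lo hi)).inter
      (measurable_snd (Γ.measurableSet_BadCh i J x z)))
  rw [R.P_apply hν c hS]
  calc _ ≤ ∫⁻ h, H h ∂nuc ν c := by
        refine lintegral_mono_ae ?_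
        filter_upwards [ae_nuc hν c (cn_prod (Γ := Γ) hν R hz hG3 J i)] with k hk
        by_cases h5 : Phi (Γ.ch i z) k ∈ Icc y (y + 1) ∧
            ∀ j < J, Phi (Γ.ch (i + 1 + j) z) k ∈ Icc lo hi
        · refine le_trans (measure_mono fun s hs => hs.2.2) (hk.trans (le_of_eq ?_))
          rw [hH, indicator_of_mem (show k ∈ {h | Phi (Γ.ch i z) h ∈ Icc y (y + 1)} from h5.1)]
          refine Finset.prod_congr rfl fun j hj => ?_
          have h6 := h5.2 j (Finset.mem_range.1 hj)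
          rw [show i + 1 + j = i + (j + 1) by omega] at h6
          rw [cn_fac, indicator_of_mem (show k ∈ {h | Phi _ h ∈ Icc lo hi} from h6)]
        · refine le_trans (measure_mono (t := ∅) fun s hs => h5 ⟨hs.1, hs.2.1⟩) ?_
          rw [measure_empty]
          exact zero_le
    _ ≤ _ := by
        rw [lintegral_nuc hν c hHm, env, ← lintegral_mul_const _ hg]
        refine lintegral_mono fun s => ?_
        have h5 := h2 J _ _ z (rad i) lo hi (c + s) y hch
        have hm' : MeasurableSet {k | c + s + Phi (Γ.ch (i + 0) z) k ∈ Icc y (y + 1)} :=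
          ((measurable_Phi _).const_add _) measurableSet_Icc
        rw [← lintegral_indicator hm', ← sub_sub] at h5
        refine le_trans (le_of_eq (lintegral_congr fun k => ?_)) h5
        simp only [hH, indicator, mem_ofPred_eq, Phi_lev, cn_fac_lev, add_zero]

end Pool.Agent.QL
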