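import Pool.Agent.P.MP_7a6434d8_pr.QL.Rsw.Defs

/-! Block RSW: the cone lemma. -/

open MeasureTheory ProbabilityTheory Set Filter Topology Metric
open scoped ENNReal

namespace Pool.Agent.QL

open Pool.Agent.LGD

variable {u v U V : ℝ → ℝ} {lam : ℝ}

/-- `U` is the upper envelope of `u` with slope `lam`. -/
structure co_Env (u : ℝ → ℝ) (lam : ℝ) (U : ℝ → ℝ) : Prop where
  le : ∀ t, ∀ s ∈ Icc 0 t, u s - lam * (t - s) ≤ U t
  ge : ∀ t c, 0 ≤ t → (∀ s ∈ Icc 0 t, u s - lam * (t - s) ≤ c) → U t ≤ c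

theorem co_exists (hb : ∀ T : ℝ, ∃ B : ℝ, ∀ t, |t| ≤ T → u t ≤ B) (hl : 0 ≤ lam) :
    ∃ U, co_Env u lam U := by
  refine ⟨fun t => sSup ((fun s => u s - lam * (t - s)) '' Icc 0 t), fun t s hs => ?_,
    fun t c ht h => csSup_le ((nonempty_Icc.2 ht).image _) (forall_mem_image.2 h)⟩
  obtain ⟨B, hB⟩ := hb t
  refine le_csSup ⟨B, forall_mem_image.2 fun r hr => ?_⟩ (mem_image_of_mem _ hs)
  have h1 := hB r (by rw [abs_of_nonneg hr.1]; exact hr.2)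
  have h2 := mul_nonneg hl (sub_nonneg.2 hr.2)
  linarith

theorem co_Env.bdd (h : co_Env u lam U) (hb : ∀ T : ℝ, ∃ B : ℝ, ∀ t, |t| ≤ T → u t ≤ B)
    (hl : 0 ≤ lam) (T : ℝ) : ∃ B, ∀ t ∈ Icc 0 T, U t ≤ B := by
  obtain ⟨B, hB⟩ := hb T
  refine ⟨B, fun t ht => h.ge t B ht.1 fun r hr => ?_⟩
  have h1 := hB r (by rw [abs_of_nonneg hr.1]; exact hr.2.trans ht.2)
  have h2 := mul_nonneg hl (sub_nonneg.2 hr.2)
  linarith

/-- The envelope grows with at most half the slope. -/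
theorem co_drift (h : NF1 u) : ∃ C, 0 ≤ C ∧ ∀ lam ∈ Ioc (0 : ℝ) 1, ∀ U, co_Env u lam U →
    ∀ᶠ s in atTop, ∀ t, s ≤ t → U t ≤ U s + C + lam * (t - s) / 2 := by
  obtain ⟨A₀, β, l₀, hβ, h⟩ := h
  obtain ⟨A, hA, hA0⟩ : ∃ A : ℝ, 0 ≤ A ∧ A₀ ≤ A := ⟨|A₀|, abs_nonneg _, le_abs_self _⟩
  obtain ⟨l₁, hl₁, hl₀⟩ : ∃ l₁ : ℝ, 0 < l₁ ∧ l₀ ≤ l₁ :=
    ⟨max l₀ 1, lt_max_of_lt_right one_pos, le_max_left _ _⟩
  refine ⟨A + β * (l₁ + 2 * A), by positivity, fun lam hlam U hU => ?_⟩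
  have hl := hlam.1
  obtain ⟨l, hld⟩ : ∃ l, l = l₁ + 2 * A / lam := ⟨_, rfl⟩
  have h0 : 0 ≤ 2 * A / lam := by positivity
  have hlp : 0 < l := by linarith
  have h1 : lam * l = lam * l₁ + 2 * A := by rw [hld]; field_simp
  have h2 : lam * (β * l) ≤ β * (l₁ + 2 * A) := by
    rw [mul_left_comm, h1]
    refine mul_le_mul_of_nonneg_left ?_ (by linarith)
    nlinarith [hlam.2]
  obtain ⟨T, hT⟩ := eventually_atTop.1 (h l (by linarith))
  filter_upwards [eventually_ge_atTop T, eventually_ge_atTop (β * l)] with s hs hs'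
  have hs0 : 0 ≤ s := le_trans (by positivity) hs'
  have key : ∀ n : ℕ, ∀ t, s ≤ t → t < s + n * l → u t ≤ U s + lam * (β * l) + n * A := by
    intro n
    induction n with
    | zero => intro t h3 h4; simp at h4; linarith
    | succ n ih =>
      intro t h3 h4
      obtain ⟨r, hr, h5⟩ := hT t (hs.trans h3)
      push_cast at h4 ⊢
      rcases le_total s r with h6 | h6
      · have h7 := ih r h6 (by linarith [hr.2])
        linarith
      · have h7 := hU.le s r ⟨by linarith [hr.1], h6⟩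
        have h8 : lam * (s - r) ≤ lam * (β * l) :=
          mul_le_mul_of_nonneg_left (by linarith [hr.1]) hl.le
        have h9 : 0 ≤ (n : ℝ) * A := by positivity
        linarith
  intro t ht
  refine hU.ge t _ (hs0.trans ht) fun r hr => ?_
  have h3 : 0 ≤ lam * (t - s) := mul_nonneg hl.le (sub_nonneg.2 ht)
  have h4 : 0 ≤ β * (l₁ + 2 * A) := by positivity
  rcases le_total s r with h6 | h6
  · have h7 := key (⌊(r - s) / l⌋₊ + 1) r h6 (by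
      have h8 := Nat.lt_floor_add_one ((r - s) / l)
      rw [div_lt_iff₀ hlp] at h8
      push_cast
      linarith)
    have h8 := Nat.floor_le (div_nonneg (sub_nonneg.2 h6) hlp.le)
    rw [le_div_iff₀ hlp] at h8
    push_cast at h7
    have h9 : (⌊(r - s) / l⌋₊ : ℝ) * (2 * A) ≤ lam * (r - s) :=
      calc (⌊(r - s) / l⌋₊ : ℝ) * (2 * A) ≤ ⌊(r - s) / l⌋₊ * (lam * l) :=
            mul_le_mul_of_nonneg_left (by rw [h1]; nlinarith) (Nat.cast_nonneg _)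
        _ = lam * (⌊(r - s) / l⌋₊ * l) := by ring
        _ ≤ lam * (r - s) := mul_le_mul_of_nonneg_left h8 hl.le
    have h10 : 0 ≤ lam * (t - r) := mul_nonneg hl.le (sub_nonneg.2 hr.2)
    linarith
  · have h7 := hU.le s r ⟨hr.1, h6⟩
    linarith

/-- At a near record of the sum the envelope is nearly attained at a near point. -/
theorem co_near (hU : co_Env u lam U) (hl : 0 < lam) {C t : ℝ} (hC : 0 ≤ C)
    (ht : 0 ≤ t - (7 + 2 * C) / lam)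
    (hV : ∀ s, t - (7 + 2 * C) / lam ≤ s → s ≤ t → V t ≤ V s + C + lam * (t - s) / 2)
    (h : ∀ r ∈ Icc (t - (7 + 2 * C) / lam) t, U r + V r ≤ U t + V t + 2) :
    ∃ s ∈ Icc (t - (7 + 2 * C) / lam) t, U t ≤ u s + 1 := by
  have h0 : 0 ≤ (7 + 2 * C) / lam := by positivity
  obtain ⟨s, hs, h1⟩ : ∃ s ∈ Icc 0 t, U t - 1 < u s - lam * (t - s) := by
    by_contra hc
    simp only [not_exists, not_and, not_lt] at hc
    linarith [hU.ge t _ (by linarith) hc]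
  refine ⟨s, ⟨?_, hs.2⟩, by linarith [mul_nonneg hl.le (sub_nonneg.2 hs.2)]⟩
  by_contra hc
  have h2 := hU.le _ s ⟨hs.1, (not_le.1 hc).le⟩
  have h3 := hV _ le_rfl (by linarith)
  have h4 := h _ ⟨le_rfl, by linarith⟩
  have h5 : lam * ((7 + 2 * C) / lam) = 7 + 2 * C := by field_simp
  linarith

/-- The density of high points, uniformly in the distance. -/
theorem co_unif (h : NF4 u) : ∃ c₁ : ℝ, 0 < c₁ ∧ ∀ C₃ : ℝ, ∃ A K d₀ : ℝ, 0 ≤ K ∧ 0 ≤ d₀ ∧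
    ∀ D : ℝ, ∀ᶠ t in atTop, ∀ d ∈ Icc d₀ D, (∀ s ∈ Icc (t - c₁ * d) t, u s ≤ u t + C₃) →
      ∃ s ∈ Icc (t - d - K) (t - d + K), u t ≤ u s + A := by
  obtain ⟨c₁, hc, h⟩ := h
  refine ⟨c₁, hc, fun C₃ => ?_⟩
  obtain ⟨A, K, d₀, h⟩ := h C₃
  refine ⟨A, |K| + 1, |d₀| + 1, by positivity, by positivity, fun D => ?_⟩
  have h1 : ∀ᶠ t in atTop, ∀ n ∈ Finset.range (⌊D⌋₊ + 1), d₀ ≤ (n : ℝ) →
      (∀ s ∈ Icc (t - c₁ * n) t, u s ≤ u t + C₃) →
        ∃ s ∈ Icc (t - n - K) (t - n + K), u t ≤ u s + A := by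
    refine (eventually_all_finset _).2 fun n _ => ?_
    by_cases hn : d₀ ≤ (n : ℝ)
    · exact (h n hn).mono fun t ht _ => ht
    · exact Eventually.of_forall fun t ht => absurd ht hn
  filter_upwards [h1] with t ht d hd h2
  have h3 := abs_nonneg d₀
  have h4 := Nat.floor_le (show 0 ≤ d by linarith [hd.1])
  have h5 := Nat.lt_floor_add_one d
  have h6 := mul_le_mul_of_nonneg_left h4 hc.le
  obtain ⟨s, hs, h7⟩ := ht ⌊d⌋₊ (Finset.mem_range_succ_iff.2 (Nat.floor_mono hd.2))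
    (by linarith [hd.1, le_abs_self d₀]) fun s hs => h2 s ⟨by linarith [hs.1], hs.2⟩
  exact ⟨s, ⟨by linarith [hs.1, le_abs_self K], by linarith [hs.2, le_abs_self K]⟩, h7⟩

/-- Two near points at which the envelopes are nearly attained have a bounded sum. -/
theorem co_half (h4 : NF4 v) (hn : NN4 u v) {C : ℝ} (hC : 0 ≤ C) : ∃ M lam₀ : ℝ, 0 < lam₀ ∧
    ∀ lam ∈ Ioc 0 lam₀, ∀ᶠ t in atTop, ∀ s₁ s₂, t - C / lam ≤ s₁ → s₁ ≤ s₂ → s₂ ≤ t →
      (∀ r ∈ Icc 0 t, u r - lam * (t - r) ≤ u s₁ + 1) →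
      (∀ r ∈ Icc 0 t, v r - lam * (t - r) ≤ v s₂ + 1) → u s₁ + v s₂ ≤ M := by
  obtain ⟨c₁, hc, h4⟩ := co_unif h4
  obtain ⟨A, K, d₀, hK, hd, h4⟩ := h4 (C + 1 + c₁ * (C + 1) + 1)
  obtain ⟨m, M, T, hn⟩ := hn (C + 1 + c₁ * (C + 1) + 1) (2 * K + d₀) (by positivity)
  refine ⟨M + A, (|m| + 1)⁻¹, by positivity, fun lam hlam => ?_⟩
  have hl := hlam.1
  obtain ⟨i, hi, hi'⟩ : ∃ i : ℝ, 0 < i ∧ lam * i = 1 := ⟨lam⁻¹, inv_pos.2 hl, mul_inv_cancel₀ hl.ne'⟩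
  have e : C / lam = C * i := by rw [div_eq_iff hl.ne', mul_assoc, mul_comm i, hi', mul_one]
  have hm : m ≤ i := by
    have h1 := hlam.2
    rw [le_inv_comm₀ hl (by positivity), ← eq_inv_of_mul_eq_one_right hi'] at h1
    linarith [le_abs_self m]
  obtain ⟨T', h4⟩ := eventually_atTop.1 (h4 ((C + 1) * i))
  have h0 : 0 ≤ c₁ * ((C + 1) * i) := by positivity
  have h0' : 0 ≤ C * i := by positivity
  filter_upwards [eventually_ge_atTop (T + C * i), eventually_ge_atTop (T' + C * i),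
    eventually_ge_atTop ((C + 1) * i + c₁ * ((C + 1) * i))] with t t1 t2 t3 s₁ s₂ h1 h2 h3 hu hv
  rw [e] at h1
  have key : ∀ r, t - ((C + 1) * i + c₁ * ((C + 1) * i)) ≤ r →
      lam * (t - r) ≤ C + 1 + c₁ * (C + 1) := fun r hr =>
    calc lam * (t - r) ≤ lam * ((C + 1) * i + c₁ * ((C + 1) * i)) :=
          mul_le_mul_of_nonneg_left (by linarith) hl.le
      _ = (C + 1 + c₁ * (C + 1)) * (lam * i) := by ring
      _ = _ := by rw [hi', mul_one]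
  obtain ⟨s₀, a1, a2, a3⟩ := hn s₁ (by linarith) fun r hr => by
    have h5 := hu r ⟨by linarith [hr.1], by linarith [hr.2]⟩
    have h6 := key r (by linarith [hr.1])
    linarith
  have h5 : s₂ - s₀ - K ≤ (C + 1) * i := by linarith
  have h6 := mul_le_mul_of_nonneg_left h5 hc.le
  obtain ⟨s, hs, h7⟩ := h4 s₂ (by linarith) (s₂ - s₀ - K) ⟨by linarith, h5⟩ fun r hr => by
    have h7 := hv r ⟨by linarith [hr.1], by linarith [hr.2]⟩
    have h8 := key r (by linarith [hr.1])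
    linarith
  have h8 := a3 s ⟨by linarith [hs.1], by linarith [hs.2]⟩
  linarith

/-- A bound at all near records is a bound eventually. -/
theorem co_rec {W : ℝ → ℝ} {T T₀ M : ℝ} (hT : 0 ≤ T)
    (hb : ∀ t, ∃ B, ∀ r ∈ Icc (T₀ - T) t, W r ≤ B)
    (h : ∀ t, T₀ ≤ t → (∀ r ∈ Icc (t - T) t, W r ≤ W t + 2) → W t < M) :
    ∀ᶠ t in atTop, W t < M := by
  obtain ⟨B₀, hB₀⟩ := hb T₀
  have h1 : ∀ t, T₀ ≤ t → M ≤ W t → W t ≤ B₀ := fun t ht hM => by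
    obtain ⟨B, hB⟩ := hb t
    have hbd : BddAbove (W '' Icc (T₀ - T) t) := ⟨B, forall_mem_image.2 hB⟩
    have htm : t ∈ Icc (T₀ - T) t := ⟨by linarith, le_rfl⟩
    obtain ⟨r, hr, h2, h3⟩ : ∃ r ∈ Icc (T₀ - T) t, W t ≤ W r ∧
        sSup (W '' Icc (T₀ - T) t) - 1 < W r := by
      obtain ⟨_, ⟨r, hr, rfl⟩, h2⟩ := exists_lt_of_lt_csSup ⟨_, mem_image_of_mem W htm⟩
        (sub_one_lt (sSup (W '' Icc (T₀ - T) t)))
      rcases le_total (W t) (W r) with h3 | h3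
      exacts [⟨r, hr, h3, h2⟩, ⟨t, htm, le_rfl, h2.trans_le h3⟩]
    rcases le_total r T₀ with h4 | h4
    · exact h2.trans (hB₀ r ⟨hr.1, h4⟩)
    · have h5 := h r h4 fun r' hr' => by
        have h6 := le_csSup hbd (mem_image_of_mem W
          (⟨by linarith [hr'.1], hr'.2.trans hr.2⟩ : r' ∈ Icc (T₀ - T) t))
        linarith
      linarith
  have h2 : ∀ n : ℕ, ∀ t, T₀ + n * T ≤ t → M ≤ W t → W t + 2 * n ≤ B₀ := fun n => by
    induction n with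
    | zero => exact fun t ht hM => by simpa using h1 t (by simpa using ht) hM
    | succ n ih =>
      intro t ht hM
      push_cast at ht ⊢
      have h3 : 0 ≤ (n : ℝ) * T := by positivity
      obtain ⟨r, hr, h4⟩ : ∃ r ∈ Icc (t - T) t, W t + 2 < W r := by
        by_contra hc
        simp only [not_exists, not_and, not_lt] at hc
        linarith [h t (by linarith) hc]
      have h5 := ih r (by linarith [hr.1]) (by linarith)
      linarith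
  obtain ⟨n, hn⟩ := exists_nat_gt (B₀ - M)
  filter_upwards [eventually_ge_atTop (T₀ + n * T)] with t ht
  by_contra hc
  have h3 := h2 n t ht (not_lt.1 hc)
  have h4 : (0 : ℝ) ≤ n := Nat.cast_nonneg n
  linarith [not_lt.1 hc]

theorem co_main (hu : ∀ T : ℝ, ∃ B : ℝ, ∀ t, |t| ≤ T → u t ≤ B)
    (hv : ∀ T : ℝ, ∃ B : ℝ, ∀ t, |t| ≤ T → v t ≤ B) (u1 : NF1 u) (v1 : NF1 v) (u4 : NF4 u)
    (v4 : NF4 v) (n1 : NN4 u v) (n2 : NN4 v u) : ∃ M lam₀ : ℝ, 0 < lam₀ ∧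
      ∀ lam ∈ Ioc 0 lam₀, ∀ᶠ t in atTop, ∀ s ∈ Icc 0 t, ∀ s' ∈ Icc 0 t,
        u s - lam * (t - s) + (v s' - lam * (t - s')) ≤ M := by
  obtain ⟨C₁, hC₁, d1⟩ := co_drift u1
  obtain ⟨C₂, hC₂, d2⟩ := co_drift v1
  have hC : 0 ≤ C₁ + C₂ := add_nonneg hC₁ hC₂
  obtain ⟨M₁, l₁, hl₁, k1⟩ := co_half v4 n1 (C := 7 + 2 * (C₁ + C₂)) (by positivity)
  obtain ⟨M₂, l₂, hl₂, k2⟩ := co_half u4 n2 (C := 7 + 2 * (C₁ + C₂)) (by positivity)
  refine ⟨max M₁ M₂ + 3, min 1 (min l₁ l₂), by positivity, fun lam hlam => ?_⟩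
  have hl := hlam.1
  obtain ⟨a1, a2⟩ := le_min_iff.1 hlam.2
  obtain ⟨a2, a3⟩ := le_min_iff.1 a2
  obtain ⟨U, hU⟩ := co_exists hu hl.le
  obtain ⟨V, hV⟩ := co_exists hv hl.le
  obtain ⟨T₁, h1⟩ := eventually_atTop.1 ((((d1 lam ⟨hl, a1⟩ U hU).and (d2 lam ⟨hl, a1⟩ V hV)).and
    ((k1 lam ⟨hl, a2⟩).and (k2 lam ⟨hl, a3⟩))).and (eventually_ge_atTop 0))
  have hT : 0 ≤ (7 + 2 * (C₁ + C₂)) / lam := by positivity
  have h2 := co_rec (W := fun t => U t + V t) (T₀ := T₁ + (7 + 2 * (C₁ + C₂)) / lam)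
    (M := max M₁ M₂ + 3) hT (fun t => by
      obtain ⟨B₁, b1⟩ := hU.bdd hu hl.le t
      obtain ⟨B₂, b2⟩ := hV.bdd hv hl.le t
      refine ⟨B₁ + B₂, fun r hr => ?_⟩
      have h3 : r ∈ Icc 0 t := ⟨(h1 r (by linarith [hr.1])).2, hr.2⟩
      exact add_le_add (b1 r h3) (b2 r h3)) fun t ht hr => by
      have h3 := (h1 (t - (7 + 2 * (C₁ + C₂)) / lam) (by linarith)).2
      obtain ⟨s₁, hs₁, e1⟩ := co_near (V := V) hU hl hC h3 (fun s hs hs' => by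
        linarith [(h1 s (by linarith)).1.1.2 t hs']) hr
      obtain ⟨s₂, hs₂, e2⟩ := co_near (V := U) hV hl hC h3 (fun s hs hs' => by
        linarith [(h1 s (by linarith)).1.1.1 t hs']) fun r h4 => by linarith [hr r h4]
      have f1 := fun r h4 => (hU.le t r h4).trans e1
      have f2 := fun r h4 => (hV.le t r h4).trans e2
      obtain ⟨g1, g2⟩ := (h1 t (by linarith)).1.2
      rcases le_total s₁ s₂ with h4 | h4
      · linarith [g1 s₁ s₂ hs₁.1 h4 hs₂.2 f1 f2, le_max_left M₁ M₂]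
      · linarith [g2 s₂ s₁ hs₂.1 h4 hs₁.2 f2 f1, le_max_right M₁ M₂]
  filter_upwards [h2] with t ht s hs s' hs'
  linarith [hU.le t s hs, hV.le t s' hs']

theorem cone : ConeSt := by
  intro u v hb h0 u1 v1 u4 v4 n1 n2
  obtain ⟨M, l₀, hl₀, h⟩ := co_main
    (fun T => (hb T).imp fun B hB t ht => (le_abs_self _).trans (hB t ht).1)
    (fun T => (hb T).imp fun B hB t ht => (le_abs_self _).trans (hB t ht).2) u1 v1 u4 v4 n1 n2
  refine ⟨|M| + 2, fun m => ?_⟩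
  have hm : 0 < |m| + 1 := by positivity
  have hl : 0 < min l₀ (|m| + 1)⁻¹ := by positivity
  obtain ⟨T, hT⟩ := eventually_atTop.1
    (((h _ ⟨hl, min_le_left _ _⟩).and h0).and (eventually_ge_atTop 0))
  have h1 : ∀ x, x ≤ m → min l₀ (|m| + 1)⁻¹ * x ≤ 1 := fun x hx =>
    calc min l₀ (|m| + 1)⁻¹ * x ≤ min l₀ (|m| + 1)⁻¹ * (|m| + 1) :=
          mul_le_mul_of_nonneg_left (by linarith [le_abs_self m]) hl.le
      _ ≤ (|m| + 1)⁻¹ * (|m| + 1) := mul_le_mul_of_nonneg_right (min_le_right _ _) hm.le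
      _ = 1 := inv_mul_cancel₀ hm.ne'
  have key : ∀ a b, T ≤ a → T ≤ b → |a - b| ≤ m → u a + v b ≤ M + 1 := fun a b ha hb hab => by
    obtain ⟨h2, h3⟩ := abs_le.1 hab
    rcases le_total a b with h4 | h4
    · have h5 := (hT b hb).1.1 a ⟨(hT a ha).2, h4⟩ b ⟨(hT b hb).2, le_rfl⟩
      linarith [h1 (b - a) (by linarith)]
    · have h5 := (hT a ha).1.1 a ⟨(hT a ha).2, le_rfl⟩ b ⟨(hT b hb).2, h4⟩
      linarith [h1 (a - b) h3]
  filter_upwards [eventually_ge_atTop T, eventually_ge_atTop (T + m)] with t t1 t2 s hs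
  have h2 : T ≤ s := by linarith [(abs_le.1 hs).1]
  have h3 := key s t h2 t1 hs
  have h4 := key t s t1 h2 (abs_sub_comm s t ▸ hs)
  have h5 := key s s h2 h2 (by rw [sub_self, abs_zero]; exact (abs_nonneg _).trans hs)
  have h6 := (hT s h2).1.2
  have h7 := (hT t t1).1.2
  have h8 := le_abs_self M
  have h9 := abs_nonneg M
  exact ⟨abs_le.2 ⟨by linarith, by linarith⟩, abs_le.2 ⟨by linarith, by linarith⟩⟩

end Pool.Agent.QL
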