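import Pool.Agent.P.MP_7a6434d8_pr.QL.Rsw.Base

/-! Block RSW: the deterministic bound. -/

open MeasureTheory ProbabilityTheory Set Filter Topology Metric
open scoped ENNReal

namespace Pool.Agent.QL

open Pool.Agent.LGD

/-- Geometrically growing weights have a small sum of inverses. -/
theorem dt_wsum (Γ : Grid) (S : Finset (Σ _ : ℕ, Fr)) (d : ℕ → ℕ) (w : (Σ _ : ℕ, Fr) → ℝ)
    (p : ℂ) (τ : ℕ) (hD : ∀ q ∈ S, q.2 ∈ Γ.D (d q.1))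
    (hw : ∀ q ∈ S, p ∈ q.2.body → τ ≤ q.1 ∧ 4 * ((Γ.N : ℝ) + 1) * 2 ^ (q.1 - τ) ≤ w q) :
    ∑ q ∈ S, q.2.body.indicator (fun _ => (w q)⁻¹) p ≤ 1 / 2 := by
  classical
  have hN : (0 : ℝ) ≤ Γ.N := Nat.cast_nonneg _
  set S' := S.filter fun q => p ∈ q.2.body with hS'
  have h1 : ∑ q ∈ S, q.2.body.indicator (fun _ => (w q)⁻¹) p ≤
      ∑ q ∈ S', (4 * ((Γ.N : ℝ) + 1) * 2 ^ (q.1 - τ))⁻¹ := by
    rw [hS', Finset.sum_filter]
    refine Finset.sum_le_sum fun q hq => ?_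
    by_cases h : p ∈ q.2.body
    · rw [indicator_of_mem h, if_pos h]
      exact inv_anti₀ (by positivity) (hw q hq h).2
    · rw [indicator_of_notMem h, if_neg h]
  have h2 : ∀ q ∈ S', q.1 - τ ∈ Finset.range (S'.sup (fun q => q.1 - τ) + 1) := fun q hq =>
    Finset.mem_range.2 (Nat.lt_succ_of_le (Finset.le_sup (f := fun q => q.1 - τ) hq))
  refine h1.trans ?_
  rw [← Finset.sum_fiberwise_of_maps_to h2]
  calc _ ≤ ∑ k ∈ Finset.range (S'.sup (fun q => q.1 - τ) + 1), 1 / 4 * (1 / 2 : ℝ) ^ k := by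
        refine Finset.sum_le_sum fun k _ => ?_
        have h3 : (S'.filter fun q => q.1 - τ = k).card ≤ Γ.N := by
          refine le_trans ?_ (Γ.card_nb (d (τ + k)) p)
          have h4 : ∀ q ∈ S'.filter fun q => q.1 - τ = k, q.1 = τ + k := fun q hq => by
            obtain ⟨hq1, hq2⟩ := Finset.mem_filter.1 hq
            obtain ⟨hq3, hq4⟩ := Finset.mem_filter.1 hq1
            have := (hw q hq3 hq4).1
            omega
          refine Finset.card_le_card_of_injOn (fun q => q.2) (fun q hq => ?_) fun q hq q' hq' e => ?_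
          · have h5 := h4 q hq
            obtain ⟨hq3, hq4⟩ := Finset.mem_filter.1 (Finset.mem_filter.1 hq).1
            have h6 := hD q hq3
            rw [h5] at h6
            refine Finset.mem_coe.2 (Γ.mem_nb.2 ⟨h6, ?_⟩)
            rw [Fr.mem_body, Γ.norm_a h6, norm_sub_rev] at hq4
            linarith [rad_pos (d (τ + k))]
          · exact Sigma.ext ((h4 q hq).trans (h4 q' hq').symm) (heq_of_eq e)
        rw [Finset.sum_congr rfl (g := fun _ => (4 * ((Γ.N : ℝ) + 1) * 2 ^ k)⁻¹)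
          fun q hq => by rw [(Finset.mem_filter.1 hq).2], Finset.sum_const, nsmul_eq_mul]
        have h7 : ((S'.filter fun q => q.1 - τ = k).card : ℝ) ≤ Γ.N + 1 := by
          exact_mod_cast h3.trans (Nat.le_succ _)
        calc _ ≤ ((Γ.N : ℝ) + 1) * (4 * ((Γ.N : ℝ) + 1) * 2 ^ k)⁻¹ := by gcongr
          _ = _ := by rw [one_div_pow]; field_simp
    _ ≤ 1 / 2 := by
        rw [← Finset.mul_sum]
        linarith [sum_geometric_two_le (S'.sup (fun q => q.1 - τ) + 1)]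

open Classical in
/-- The main family. -/
noncomputable def dt_SM (Γ : Grid) (L : ℕ) (W : Set ℝ) (x : ℝ) (ω : Dist × Sys) :
    Finset (Σ _ : ℕ, Fr) :=
  ((Finset.range (L + 1)).sigma Γ.D).filter fun q => ω ∈ MainEv W x q.2

open Classical in
/-- The exceptional family. -/
noncomputable def dt_SE (Γ : Grid) (L : ℕ) (W : Set ℝ) (x x' : ℝ) (ω : Dist × Sys) :
    Finset (Σ _ : ℕ, Fr) :=
  ((Finset.range L).sigma fun n => Γ.D (L + 1 + n)).filter fun q =>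
    ω ∈ Γ.Exc L W x q.2.z ∩ {ω | ω.2 ∈ Γ.BadCh L q.1 x' q.2.z} ∧ Loop q.2 ω.2 ≤ ex x'

/-- The weights of the main family. -/
noncomputable def dt_wM (Γ : Grid) (W : Set ℝ) (h : Dist) (q : Σ _ : ℕ, Fr) : ℝ :=
  4 * ((Γ.N : ℝ) + 1) * ∑ i' ∈ Finset.range (q.1 + 1), ∑ F' ∈ Γ.nb i' q.2.z,
    {h | Phi q.2 h ∈ W ∧ Phi F' h ∈ W}.indicator (fun _ => (2 : ℝ) ^ (q.1 - i')) h

theorem dt_mem_SM {Γ : Grid} {L : ℕ} {W : Set ℝ} {x : ℝ} {ω : Dist × Sys} {q : Σ _ : ℕ, Fr} :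
    q ∈ dt_SM Γ L W x ω ↔ (q.1 ≤ L ∧ q.2 ∈ Γ.D q.1) ∧ ω ∈ MainEv W x q.2 := by
  simp only [dt_SM, Finset.mem_filter, Finset.mem_sigma, Finset.mem_range, Nat.lt_succ_iff]

theorem dt_mem_SE {Γ : Grid} {L : ℕ} {W : Set ℝ} {x x' : ℝ} {ω : Dist × Sys} {q : Σ _ : ℕ, Fr} :
    q ∈ dt_SE Γ L W x x' ω ↔ (q.1 < L ∧ q.2 ∈ Γ.D (L + 1 + q.1)) ∧
      (ω ∈ Γ.Exc L W x q.2.z ∧ ω.2 ∈ Γ.BadCh L q.1 x' q.2.z) ∧ Loop q.2 ω.2 ≤ ex x' := by
  simp only [dt_SE, Finset.mem_filter, Finset.mem_sigma, Finset.mem_range, mem_inter_iff,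
    mem_ofPred_eq]

theorem dt_wM_ge (Γ : Grid) {W : Set ℝ} {h : Dist} {q q' : Σ _ : ℕ, Fr} (h1 : q'.1 ≤ q.1)
    (h2 : q'.2 ∈ Γ.nb q'.1 q.2.z) (h3 : Phi q.2 h ∈ W) (h4 : Phi q'.2 h ∈ W) :
    4 * ((Γ.N : ℝ) + 1) * 2 ^ (q.1 - q'.1) ≤ dt_wM Γ W h q := by
  unfold dt_wM
  have h0 : ∀ (i' : ℕ) (F' : Fr), 0 ≤ {h | Phi q.2 h ∈ W ∧ Phi F' h ∈ W}.indicator
      (fun _ => (2 : ℝ) ^ (q.1 - i')) h := fun i' F' =>
    indicator_nonneg (fun _ _ => by positivity) _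
  gcongr
  refine le_trans ?_ (Finset.single_le_sum (f := fun i' => ∑ F' ∈ Γ.nb i' q.2.z,
    {h | Phi q.2 h ∈ W ∧ Phi F' h ∈ W}.indicator (fun _ => (2 : ℝ) ^ (q.1 - i')) h)
    (fun i' _ => Finset.sum_nonneg fun F' _ => h0 i' F')
    (Finset.mem_range.2 (Nat.lt_succ_of_le h1)))
  refine le_trans ?_ (Finset.single_le_sum (fun F' _ => h0 q'.1 F') h2)
  rw [indicator_of_mem (show h ∈ {h | Phi q.2 h ∈ W ∧ Phi q'.2 h ∈ W} from ⟨h3, h4⟩)]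

theorem dt_wM_pos {Γ : Grid} {L : ℕ} {W : Set ℝ} {x : ℝ} {ω : Dist × Sys} {q : Σ _ : ℕ, Fr}
    (hq : q ∈ dt_SM Γ L W x ω) : 0 < dt_wM Γ W ω.1 q := by
  obtain ⟨⟨-, h2⟩, h3, -⟩ := dt_mem_SM.1 hq
  refine lt_of_lt_of_le (by positivity) (dt_wM_ge Γ le_rfl (Γ.mem_nb.2 ⟨h2, ?_⟩) h3 h3)
  rw [sub_self, norm_zero]
  linarith [rad_pos q.1]

theorem dt_sumM (Γ : Grid) (L : ℕ) (W : Set ℝ) (x : ℝ) (ω : Dist × Sys) (p : ℂ) :
    ∑ q ∈ dt_SM Γ L W x ω, q.2.body.indicator (fun _ => (dt_wM Γ W ω.1 q)⁻¹) p ≤ 1 / 2 := by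
  classical
  by_cases h : ((dt_SM Γ L W x ω).filter fun q => p ∈ q.2.body).Nonempty
  · obtain ⟨q₀, h1, h2⟩ := Finset.exists_min_image _ (fun q : Σ _ : ℕ, Fr => q.1) h
    obtain ⟨h3, h4⟩ := Finset.mem_filter.1 h1
    obtain ⟨⟨-, h5⟩, h6, -⟩ := dt_mem_SM.1 h3
    refine dt_wsum Γ _ id _ p q₀.1 (fun q hq => (dt_mem_SM.1 hq).1.2) fun q hq hp => ?_
    have h7 := h2 q (Finset.mem_filter.2 ⟨hq, hp⟩)
    obtain ⟨⟨-, h8⟩, h9, -⟩ := dt_mem_SM.1 hq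
    refine ⟨h7, dt_wM_ge Γ h7 (Γ.mem_nb.2 ⟨h5, ?_⟩) h9 h6⟩
    rw [Fr.mem_body, Γ.norm_a h5, norm_sub_rev] at h4
    rw [Fr.mem_body, Γ.norm_a h8] at hp
    linarith [norm_sub_le_norm_sub_add_norm_sub q₀.2.z p q.2.z, rad_anti h7]
  · refine dt_wsum Γ _ id _ p 0 (fun q hq => (dt_mem_SM.1 hq).1.2) fun q hq hp => ?_
    exact absurd ⟨q, Finset.mem_filter.2 ⟨hq, hp⟩⟩ h

theorem dt_cover (Γ : Grid) {L : ℕ} (W : Set ℝ) (x : ℝ) {x' : ℝ} {ω : Dist × Sys}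
    (hc : ω.2 ∈ Γ.Cover L x') {p : ℂ} (hp : p ∈ Box) :
    (∃ q ∈ dt_SM Γ L W x ω, p ∈ q.2.core) ∨ ∃ q ∈ dt_SE Γ L W x x' ω, p ∈ q.2.core := by
  classical
  by_cases h : ω ∈ Γ.Exc L W x p
  · have h1 : ∃ j, j < L ∧ Loop (Γ.ch (L + 1 + j) p) ω.2 ≤ ex x' := by
      by_contra h2
      refine hc _ (Γ.ch_mem (2 * L) p hp) fun j hj => ?_
      rw [Γ.ch_ch _ _ _ (by omega)]
      exact not_le.1 fun h3 => h2 ⟨j, hj, h3⟩
    have h2 := Nat.find_spec h1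
    refine Or.inr ⟨⟨Nat.find h1, Γ.ch (L + 1 + Nat.find h1) p⟩,
      dt_mem_SE.2 ⟨⟨h2.1, Γ.ch_mem _ p hp⟩, ⟨fun i hi => ?_, fun j hj => ?_⟩, h2.2⟩,
      Γ.mem_core_ch _ hp⟩
    · rw [Γ.ch_ch _ _ _ (by omega)]
      exact h i hi
    · have hj' : j < Nat.find h1 := hj
      rw [Γ.ch_ch _ _ _ (by omega)]
      exact not_le.1 fun h3 => Nat.find_min h1 hj' ⟨hj'.trans h2.1, h3⟩
  · obtain ⟨i, hi, h1⟩ : ∃ i ≤ L, ω ∈ MainEv W x (Γ.ch i p) := by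
      by_contra h2
      exact h fun i hi h3 => h2 ⟨i, hi, h3⟩
    exact Or.inl ⟨⟨i, Γ.ch i p⟩, dt_mem_SM.2 ⟨⟨hi, Γ.ch_mem i p hp⟩, h1⟩, Γ.mem_core_ch _ hp⟩

theorem dt_costM (Γ : Grid) (L : ℕ) (W : Set ℝ) (x : ℝ) (ω : Dist × Sys) :
    ∑ q ∈ dt_SM Γ L W x ω, ENNReal.ofReal (‖q.2.a‖ ^ 2 * dt_wM Γ W ω.1 q) ≤
      ENNReal.ofReal (4 * ((Γ.N : ℝ) + 1)) * Γ.costM L W ω.1 := by
  have hs : dt_SM Γ L W x ω ⊆ (Finset.range (L + 1)).sigma Γ.D := fun q hq =>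
    Finset.mem_sigma.2 ⟨Finset.mem_range.2 (Nat.lt_succ_of_le (dt_mem_SM.1 hq).1.1),
      (dt_mem_SM.1 hq).1.2⟩
  refine (Finset.sum_le_sum_of_subset hs).trans (le_of_eq ?_)
  rw [Finset.sum_sigma, Grid.costM, Finset.mul_sum]
  refine Finset.sum_congr rfl fun i _ => ?_
  rw [Finset.mul_sum]
  refine Finset.sum_congr rfl fun F hF => ?_
  have h0 : ∀ (i' : ℕ) (F' : Fr), 0 ≤ rad i ^ 2 * {h | Phi F h ∈ W ∧ Phi F' h ∈ W}.indicator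
      (fun _ => (2 : ℝ) ^ (i - i')) ω.1 := fun i' F' =>
    mul_nonneg (sq_nonneg _) (indicator_nonneg (fun _ _ => by positivity) _)
  simp only [dt_wM]
  rw [Γ.norm_a hF, mul_left_comm, ENNReal.ofReal_mul (by positivity), Finset.mul_sum]
  congr 1
  simp only [Finset.mul_sum]
  rw [ENNReal.ofReal_sum_of_nonneg fun i' _ => Finset.sum_nonneg fun F' _ => h0 i' F']
  refine Finset.sum_congr rfl fun i' _ => ?_
  rw [ENNReal.ofReal_sum_of_nonneg fun F' _ => h0 i' F']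
  refine Finset.sum_congr rfl fun F' _ => ?_
  by_cases h : ω.1 ∈ {h | Phi F h ∈ W ∧ Phi F' h ∈ W}
  · rw [indicator_of_mem h, indicator_of_mem h]
  · rw [indicator_of_notMem h, indicator_of_notMem h, mul_zero, ENNReal.ofReal_zero]

theorem dt_costE (Γ : Grid) (L : ℕ) (W : Set ℝ) (x x' : ℝ) (ω : Dist × Sys) :
    ∑ q ∈ dt_SE Γ L W x x' ω,
        ENNReal.ofReal (‖q.2.a‖ ^ 2 * (4 * ((Γ.N : ℝ) + 1) * 2 ^ q.1)) ≤
      ENNReal.ofReal (4 * ((Γ.N : ℝ) + 1)) * Γ.costE L W x x' ω := by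
  have hs : dt_SE Γ L W x x' ω ⊆ (Finset.range L).sigma fun n => Γ.D (L + 1 + n) := fun q hq =>
    Finset.mem_sigma.2 ⟨Finset.mem_range.2 (dt_mem_SE.1 hq).1.1, (dt_mem_SE.1 hq).1.2⟩
  rw [Grid.costE, Finset.sum_sigma', Finset.mul_sum]
  refine le_trans (Finset.sum_le_sum fun q hq => le_of_eq ?_) (Finset.sum_le_sum_of_subset hs)
  obtain ⟨⟨-, h1⟩, h2, -⟩ := dt_mem_SE.1 hq
  rw [indicator_of_mem (show ω ∈ Γ.Exc L W x q.2.z ∩ {ω | ω.2 ∈ Γ.BadCh L q.1 x' q.2.z} from h2),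
    Γ.norm_a h1, ← ENNReal.ofReal_mul (by positivity)]
  congr 1
  ring

theorem det_of (h6 : N6Stmt) (Γ : Grid) : DetSt Γ := by
  obtain ⟨C, hC, h⟩ := h6
  refine ⟨C * ENNReal.ofReal (4 * ((Γ.N : ℝ) + 1)), ENNReal.mul_ne_top hC ENNReal.ofReal_ne_top,
    fun L W x x' ω hω hc => ?_⟩
  have hr : ∀ i, rad i ≤ 1 / 1000 := fun i => (rad_le i).trans (by norm_num)
  refine (h ω.2 hω _ ((dt_SM Γ L W x ω).disjSum (dt_SE Γ L W x x' ω))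
    (Sum.elim (fun q => q.2) fun q => q.2) (Sum.elim (fun _ => ex x) fun _ => ex x')
    (Sum.elim (dt_wM Γ W ω.1) fun q => 4 * ((Γ.N : ℝ) + 1) * 2 ^ q.1) ?_ ?_ ?_ ?_ ?_).trans ?_
  · rintro (q | q) hq
    · exact (Γ.norm_a (dt_mem_SM.1 (Finset.inl_mem_disjSum.1 hq)).1.2).trans_le (hr _)
    · exact (Γ.norm_a (dt_mem_SE.1 (Finset.inr_mem_disjSum.1 hq)).1.2).trans_le (hr _)
  · rintro (q | q) hq
    · exact dt_wM_pos (Finset.inl_mem_disjSum.1 hq)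
    · simp only [Sum.elim_inr]
      positivity
  · intro p h1 h2 h3
    rcases dt_cover Γ W x hc (p := p) ⟨by linarith, by linarith, by linarith⟩ with
      ⟨q, h4, h5⟩ | ⟨q, h4, h5⟩
    · exact ⟨.inl q, Finset.inl_mem_disjSum.2 h4, h5⟩
    · exact ⟨.inr q, Finset.inr_mem_disjSum.2 h4, h5⟩
  · intro p
    rw [Finset.sum_disjSum]
    simp only [Sum.elim_inl, Sum.elim_inr]
    have h1 := dt_wsum Γ (dt_SE Γ L W x x' ω) (fun n => L + 1 + n)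
      (fun q => 4 * ((Γ.N : ℝ) + 1) * 2 ^ q.1) p 0 (fun q hq => (dt_mem_SE.1 hq).1.2)
      fun q _ _ => ⟨Nat.zero_le _, le_rfl⟩
    linarith [dt_sumM Γ L W x ω p]
  · rintro (q | q) hq
    · exact (dt_mem_SM.1 (Finset.inl_mem_disjSum.1 hq)).2.2
    · exact (dt_mem_SE.1 (Finset.inr_mem_disjSum.1 hq)).2.2
  · rw [Finset.sum_disjSum, mul_assoc]
    simp only [Sum.elim_inl, Sum.elim_inr]
    rw [← Finset.sum_mul, ← Finset.sum_mul, mul_add (ENNReal.ofReal _), mul_comm (ex x),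
      mul_comm (ex x'), ← mul_assoc (ENNReal.ofReal _), ← mul_assoc (ENNReal.ofReal _)]
    gcongr
    · exact dt_costM Γ L W x ω
    · exact dt_costE Γ L W x x' ω

end Pool.Agent.QL
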