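import Pool.Agent.P.MP_7a6434d8_pr.QL.Rsw.Env

/-! Block RSW: the envelopes have bounded sums. -/

open MeasureTheory ProbabilityTheory Set Filter Topology Metric
open scoped ENNReal

namespace Pool.Agent.QL

open Pool.Agent.LGD

theorem es_QQ : 1 ≤ QQ := by
  have h : 0 < gam := Real.sqrt_pos.2 (by norm_num)
  rw [QQ, div_add_div _ _ h.ne' two_ne_zero, le_div_iff₀ (by positivity)]
  nlinarith [sq_nonneg (gam - 1)]

/-- A bounded increasing function. -/
noncomputable def es_psi (a : ℝ) : ℝ := a / (1 + |a|)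

theorem es_psi_le (a : ℝ) : |es_psi a| ≤ 1 := by
  rw [es_psi, abs_div, abs_of_pos (a := 1 + |a|) (by positivity), div_le_one (by positivity)]
  linarith

theorem es_psi_sub {a b : ℝ} (h : a ≤ b) :
    (b - a) / ((1 + |b|) * (1 + |a|)) ≤ es_psi b - es_psi a := by
  rw [es_psi, es_psi, div_sub_div _ _ (by positivity) (by positivity)]
  refine div_le_div_of_nonneg_right ?_ (by positivity)
  rcases abs_cases a with ⟨h₁, h₂⟩ | ⟨h₁, h₂⟩ <;> rcases abs_cases b with ⟨h₃, h₄⟩ | ⟨h₃, h₄⟩ <;>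
    rw [h₁, h₃] <;> nlinarith

theorem es_psi_step {c a b δ : ℝ} (hc : 0 < c) (h0 : 0 ≤ δ) (h1 : δ ≤ 1) (h : a + δ ≤ b) :
    δ * Real.exp (-(c * a ^ 2)) ≤ (4 + 4 / c) * (es_psi b - es_psi a) := by
  have a₁ : es_psi (a + δ) ≤ es_psi b :=
    sub_nonneg.1 (le_trans (div_nonneg (sub_nonneg.2 h) (by positivity)) (es_psi_sub h))
  have a₂ := es_psi_sub (le_add_of_nonneg_right h0 : a ≤ a + δ)
  rw [add_sub_cancel_left] at a₂
  have a₃ : (1 + |a + δ|) * (1 + |a|) ≤ (4 + 4 / c) * Real.exp (c * a ^ 2) := by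
    have b₁ := (abs_add_le a δ).trans (add_le_add_right ((abs_of_nonneg h0).trans_le h1) _)
    have b₂ := Real.add_one_le_exp (c * a ^ 2)
    have b₃ : (4 + 4 / c) * (c * a ^ 2 + 1) = 4 * (c * a ^ 2) + 4 + 4 * a ^ 2 + 4 / c := by
      field_simp
      ring
    have b₄ : 0 ≤ c * a ^ 2 := by positivity
    have b₅ : 0 ≤ 4 / c := by positivity
    refine le_trans ?_ (mul_le_mul_of_nonneg_left b₂ (by positivity))
    rw [b₃, ← sq_abs a]
    nlinarith [abs_nonneg a, sq_nonneg (|a| - 1), sq_abs a]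
  calc δ * Real.exp (-(c * a ^ 2))
      = (4 + 4 / c) * (δ / ((4 + 4 / c) * Real.exp (c * a ^ 2))) := by
        rw [Real.exp_neg]
        field_simp
    _ ≤ (4 + 4 / c) * (δ / ((1 + |a + δ|) * (1 + |a|))) := by gcongr
    _ ≤ _ := by
        gcongr
        linarith

theorem es_gap {v L L' : ℝ} (hv : v ≤ 0) (hL : 1 ≤ L) (h1 : L + 3 ≤ L') (h2 : L' ≤ 4 * L) :
    (v + QQ * L) / √L + 1 / √L ≤ (v + QQ * L') / √L' := by
  have e : ∀ x : ℝ, 0 < x → (v + QQ * x) / √x = v / √x + QQ * √x := fun x hx => by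
    rw [add_div, mul_div_assoc, Real.div_sqrt]
  rw [e L (by linarith), e L' (by linarith)]
  have a₁ := Real.sq_sqrt (x := L) (by linarith)
  have a₂ := Real.sq_sqrt (x := L') (by linarith)
  have a₃ : 1 ≤ √L := Real.one_le_sqrt.2 hL
  have a₄ : √L ≤ √L' := Real.sqrt_le_sqrt (by linarith)
  have a₅ : √L' ≤ 2 * √L := Real.sqrt_le_iff.2 ⟨by positivity, by nlinarith⟩
  generalize √L = s at *
  generalize √L' = s' at *
  have a₆ : v / s ≤ v / s' := by
    rw [div_le_div_iff₀ (by linarith) (by linarith)]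
    nlinarith
  have a₇ : 1 / s ≤ s' - s := by
    rw [div_le_iff₀ (by linarith)]
    nlinarith
  nlinarith [es_QQ]

theorem es_sum {C c : ℝ} (hC : 0 < C) (hc : 0 < c) (v : ℝ) :
    ∑' i, gw C c (-Real.log (rad i)) (v - QQ * Real.log (rad i)) ≤
      ENNReal.ofReal (C * (4 + 4 / c) * 2) := by
  set L : ℕ → ℝ := fun i => -Real.log (rad i) with hL
  let a : ℕ → ℝ := fun i => (min v 0 + QQ * L i) / √(L i)
  have key : ∀ i, C / √(L i) * Real.exp (-(c * (v - QQ * Real.log (rad i)) ^ 2 / L i)) ≤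
      C * (4 + 4 / c) * (es_psi (a (i + 1)) - es_psi (a i)) := by
    intro i
    have h1 : 1 ≤ L i := one_le_log_rad i
    have h2 := Real.log_two_gt_d9
    have h3 : (0 : ℝ) ≤ i := i.cast_nonneg
    have h4 := es_psi_step hc (by positivity) ((div_le_one (by positivity)).2
      (Real.one_le_sqrt.2 h1)) (es_gap (min_le_right v 0) h1 (L' := L (i + 1))
        (by simp only [hL, log_rad]; push_cast; nlinarith)
        (by simp only [hL, log_rad]; push_cast; nlinarith))
    rw [mul_assoc, div_eq_mul_one_div C, mul_assoc]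
    refine mul_le_mul_of_nonneg_left (le_trans ?_ h4) hC.le
    rw [div_pow, Real.sq_sqrt (by linarith), ← mul_div_assoc,
      show v - QQ * Real.log (rad i) = v + QQ * L i by simp only [hL]; ring]
    have : (min v 0 + QQ * L i) ^ 2 ≤ (v + QQ * L i) ^ 2 := by
      rcases le_total v 0 with h | h
      · rw [min_eq_left h]
      · have : 0 ≤ QQ * L i := mul_nonneg (by linarith [es_QQ]) (by linarith)
        rw [min_eq_right h]
        gcongr
    gcongr
  refine ENNReal.tsum_le_of_sum_range_le fun n => ?_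
  simp only [gw]
  rw [← ENNReal.ofReal_sum_of_nonneg fun i _ => by positivity]
  refine ENNReal.ofReal_le_ofReal ((Finset.sum_le_sum fun i _ => key i).trans ?_)
  rw [← Finset.mul_sum, Finset.sum_range_sub fun i => es_psi (a i)]
  gcongr
  linarith [abs_le.1 (es_psi_le (a n)), abs_le.1 (es_psi_le (a 0))]

theorem es_int {ι : Type} [Countable ι] {f : ι → ℝ → ℝ≥0∞} (hf : ∀ i, Measurable (f i))
    {B : ℝ≥0∞} (h : ∀ s, ∑' i, f i s ≤ B) : ∑' i, ∫⁻ s in Icc (0 : ℝ) 1, f i s ≤ B := by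
  rw [← lintegral_tsum fun i => (hf i).aemeasurable]
  exact (lintegral_mono h).trans (by simp)

theorem env_sum {C c : ℝ} (hC : 0 < C) (hc : 0 < c) : ∃ Cg : ℝ≥0∞, Cg ≠ ⊤ ∧
    (∀ i u, ∑' n : ℤ, env C c i (u + n) ≤ Cg) ∧ ∀ u, ∑' i, env C c i u ≤ Cg := by
  obtain ⟨C', h⟩ := gw_tsum hC.le hc
  have hm : ∀ L u b : ℝ, Measurable fun s => gw C c L (u - s - b) := fun L u b =>
    (measurable_gw _ _ _).comp ((measurable_const.sub measurable_id).sub measurable_const)
  refine ⟨max (ENNReal.ofReal C') (ENNReal.ofReal (C * (4 + 4 / c) * 2)), by simp,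
    fun i u => le_max_of_le_left (es_int (fun n => hm _ _ _) fun s => ?_),
    fun u => le_max_of_le_right (es_int (fun i => hm _ _ _) fun s => es_sum hC hc _)⟩
  convert h _ (s + QQ * Real.log (rad i) - u) (one_le_log_rad i) using 4
  ring

end Pool.Agent.QL
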