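import Pool.Agent.P.MP_7a6434d8_pr.QL.Rsw.Base

/-! Block RSW: exceptional points are unlikely. -/

open MeasureTheory ProbabilityTheory Set Filter Topology Metric
open scoped ENNReal

namespace Pool.Agent.QL

open Pool.Agent.LGD

variable {ν : Measure Dist} {Γ : Grid}

theorem xc_small {C ρ η : ℝ≥0∞} (hC : C ≠ ⊤) (hρ : ρ < 1) (hη : 0 < η) :
    ∃ n₀ : ℕ, ∀ n, n₀ ≤ n → C * ρ ^ n ≤ η := by
  have h := ENNReal.Tendsto.const_mul (a := C)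
    (ENNReal.tendsto_pow_atTop_nhds_zero_of_lt_one hρ) (Or.inr hC)
  rw [mul_zero] at h
  exact eventually_atTop.1 (h.eventually (ge_mem_nhds hη))

theorem xc_cross {Y : ℕ → ℝ} {α : ℝ} (h0 : α ≤ Y 0) {M : ℕ} (hM : Y M < α) :
    ∃ i < M, α ≤ Y i ∧ Y (i + 1) < α := by
  induction M with
  | zero => exact absurd h0 (not_le.2 hM)
  | succ M ih =>
    by_cases h : Y M < α
    · obtain ⟨i, hi, h1⟩ := ih h
      exact ⟨i, by omega, h1⟩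
    · exact ⟨M, by omega, not_lt.1 h, hM⟩

theorem xc_sum (T : Tools ν Γ) {X : Type*} [MeasurableSpace X] (P : Measure X) {S : ℕ → Set X}
    {u : ℝ} {w : ℝ≥0∞} (h : ∀ i, P (S i) ≤ T.g i u * w) : P (⋃ i, S i) ≤ T.Cg * w := by
  refine (measure_iUnion_le _).trans ((ENNReal.tsum_le_tsum h).trans ?_)
  rw [ENNReal.tsum_mul_right]
  gcongr
  exact T.sumN u

theorem xc_fin {X : Type*} [MeasurableSpace X] (P : Measure X) {S : ℕ → Set X} {N : ℕ}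
    {w : ℝ≥0∞} (h : ∀ i < N, P (S i) ≤ w) : P (⋃ i ∈ Finset.range N, S i) ≤ N * w := by
  refine (measure_biUnion_finset_le _ _).trans ?_
  refine (Finset.sum_le_card_nsmul _ _ w fun i hi => h i (Finset.mem_range.1 hi)).trans ?_
  rw [Finset.card_range, nsmul_eq_mul]

/-- The level at depth `i` is near `y` and the level `n` steps deeper differs by at least `m`. -/
def xc_jump (Γ : Grid) (z : ℂ) (y : ℝ) (n m i : ℕ) : Set (Dist × Sys) :=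
  {ω | ω.1 ∈ {h | Phi (Γ.ch i z) h ∈ Icc y (y + 1) ∧
    (m : ℝ) ≤ |Phi (Γ.ch (i + n) z) h - Phi (Γ.ch i z) h|}}

theorem xc_tail (hν : IsCanon ν) (T : Tools ν Γ) (J : ℕ) : ∃ C : ℝ≥0∞, C ≠ ⊤ ∧
    ∀ (R : Regime ν) (c y : ℝ) (n m : ℕ) (z : ℂ), n ≤ J → z ∈ Box →
      R.P c (⋃ i, xc_jump Γ z y n m i) ≤ T.Cg * (C * 2⁻¹ ^ m) := by
  obtain ⟨C, hC, h⟩ := T.tail J
  refine ⟨C, hC, fun R c y n m z hn hz => xc_sum T _ (u := y - c) fun i => ?_⟩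
  rw [xc_jump, R.P_fst hν c]
  · exact h c y i n m hn _ (Γ.ch_mem _ z hz) _ (Γ.ch_mem_nb (Nat.le_add_right i n) hz)
  · exact (measurable_Phi _ measurableSet_Icc).inter (measurableSet_le measurable_const
      ((measurable_Phi _).sub (measurable_Phi _)).abs)

theorem exc_of (hν : IsCanon ν) (T : Tools ν Γ) : ExcSt ν Γ T.a := by
  have half : (2⁻¹ : ℝ≥0∞) < 1 := ENNReal.inv_lt_one.2 (by norm_num)
  obtain ⟨ε, hε, hch⟩ := T.chain 2⁻¹ (by norm_num)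
  refine ⟨ε, hε, fun δ hδ => ?_⟩
  have hη : 0 < δ / 5 := ENNReal.div_pos hδ.ne' (by norm_num)
  obtain ⟨C₁, hC₁, ht₁⟩ := xc_tail hν T 1
  obtain ⟨K₁, hK₁⟩ := xc_small (C := T.Cg * C₁ * 2)
    (ENNReal.mul_ne_top (ENNReal.mul_ne_top T.Cg_ne hC₁) (by norm_num)) half hη
  obtain ⟨J, hJ⟩ := xc_small (C := K₁ * T.Cg)
    (ENNReal.mul_ne_top (ENNReal.natCast_ne_top _) T.Cg_ne) half hη
  obtain ⟨C₂, hC₂, ht₂⟩ := xc_tail hν T J
  obtain ⟨m, hm⟩ := xc_small (C := K₁ * (J * (T.Cg * C₂)))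
    (ENNReal.mul_ne_top (ENNReal.natCast_ne_top _) (ENNReal.mul_ne_top (ENNReal.natCast_ne_top _)
      (ENNReal.mul_ne_top T.Cg_ne hC₂))) half hη
  obtain ⟨d₁, hd₁⟩ := T.start _ hη
  obtain ⟨C, ρ, hC, hρ, hr⟩ := T.range
  obtain ⟨M₀, hM₀⟩ := xc_small hC hρ hη
  refine ⟨K₁ + m, J, max d₁ (T.a * M₀), fun R c x d L z hd hL hz hok => ?_⟩
  have ha := T.a_pos
  have hd1 : d₁ ≤ d := (le_max_left _ _).trans hd
  have hd2 : T.a * M₀ ≤ d := (le_max_right _ _).trans hd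
  have hM : M₀ + J ≤ L := by
    have h1 : T.a * (M₀ + J) ≤ T.a * L := by linarith
    exact_mod_cast le_of_mul_le_mul_left h1 ha
  obtain ⟨M, rfl⟩ : ∃ M, L = M + J := ⟨L - J, by omega⟩
  have hM' : d + 2 ≤ T.a * M := by
    push_cast at hL
    linarith
  obtain ⟨α, hα⟩ : ∃ α, α = c - d := ⟨_, rfl⟩
  rw [← hα] at hok ⊢
  obtain ⟨K, hK⟩ : ∃ K : ℝ, K = ((K₁ + m : ℕ) : ℝ) := ⟨_, rfl⟩
  rw [← hK] at hok ⊢
  push_cast at hK
  have hsub : Γ.Exc (M + J) (Icc (α - K) (α + K)) x z ⊆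
      {ω | ω.1 ∈ {h | Phi (Γ.ch 0 z) h < c - d₁}} ∪
      {ω | ω.1 ∈ {h | Phi (Γ.ch M z) h ∉ Icc (c - T.b * (M + 1)) (c + 1 - T.a * M)}} ∪
      (⋃ y : ℕ, ⋃ i, xc_jump Γ z (α + (K₁ + y : ℕ)) 1 (K₁ + y) i) ∪
      (⋃ y ∈ Finset.range K₁, ⋃ i, {ω | Phi (Γ.ch i z) ω.1 ∈ Icc (α + y) (α + y + 1) ∧
        (∀ j < J, Phi (Γ.ch (i + 1 + j) z) ω.1 ∈ Icc (α - K) (α + K)) ∧
          ω.2 ∈ Γ.BadCh i J x z}) ∪
      ⋃ y ∈ Finset.range K₁, ⋃ j ∈ Finset.range J, ⋃ i, xc_jump Γ z (α + y) (j + 1) m i := by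
    intro ω hω
    by_cases h0 : Phi (Γ.ch 0 z) ω.1 < α
    · refine Or.inl (Or.inl (Or.inl (Or.inl ?_)))
      change Phi (Γ.ch 0 z) ω.1 < c - d₁
      linarith
    by_cases h1 : α ≤ Phi (Γ.ch M z) ω.1
    · refine Or.inl (Or.inl (Or.inl (Or.inr fun h2 => ?_)))
      linarith [h2.2]
    obtain ⟨i, hi, h2, h3⟩ := xc_cross (Y := fun i => Phi (Γ.ch i z) ω.1) (not_lt.1 h0)
      (not_le.1 h1)
    obtain ⟨y, hy1, hy2⟩ : ∃ y : ℕ, α + y ≤ Phi (Γ.ch i z) ω.1 ∧ Phi (Γ.ch i z) ω.1 ≤ α + y + 1 :=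
      ⟨⌊Phi (Γ.ch i z) ω.1 - α⌋₊, by linarith [Nat.floor_le (sub_nonneg.2 h2)],
        by linarith [Nat.lt_floor_add_one (Phi (Γ.ch i z) ω.1 - α)]⟩
    by_cases hy : K₁ ≤ y
    · obtain ⟨y, rfl⟩ := Nat.exists_eq_add_of_le hy
      refine Or.inl (Or.inl (Or.inr (mem_iUnion.2 ⟨y, mem_iUnion.2 ⟨i, ⟨hy1, hy2⟩, ?_⟩⟩)))
      rw [le_abs]
      right
      linarith
    have hyK : y ∈ Finset.range K₁ := Finset.mem_range.2 (not_le.1 hy)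
    by_cases h4 : ∀ j < J, Phi (Γ.ch (i + 1 + j) z) ω.1 ∈ Icc (α - K) (α + K)
    · refine Or.inl (Or.inr (mem_biUnion hyK (mem_iUnion.2 ⟨i, ⟨hy1, hy2⟩, h4, fun j hj => ?_⟩)))
      exact not_le.1 fun h5 => hω (i + 1 + j) (by omega) ⟨h4 j hj, h5⟩
    · push Not at h4
      obtain ⟨j, hj, h4⟩ := h4
      refine Or.inr (mem_biUnion hyK (mem_biUnion (Finset.mem_range.2 hj)
        (mem_iUnion.2 ⟨i, ⟨hy1, hy2⟩, ?_⟩)))
      have h5 : (y : ℝ) + 1 ≤ K₁ := by exact_mod_cast not_le.1 hy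
      have h6 : (0 : ℝ) ≤ y := y.cast_nonneg
      rw [show i + (j + 1) = i + 1 + j by omega, le_abs]
      rw [mem_Icc, not_and_or, not_le, not_le] at h4
      rcases h4 with h4 | h4
      · right
        linarith
      · left
        linarith
  have b1 : R.P c {ω | ω.1 ∈ {h | Phi (Γ.ch 0 z) h < c - d₁}} ≤ δ / 5 := by
    rw [R.P_fst hν c (measurableSet_lt (measurable_Phi _) measurable_const)]
    exact hd₁ c _ (Γ.ch_mem 0 z hz)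
  have b2 : R.P c {ω | ω.1 ∈ {h | Phi (Γ.ch M z) h ∉
      Icc (c - T.b * (M + 1)) (c + 1 - T.a * M)}} ≤ δ / 5 := by
    rw [R.P_fst hν c (A := {h | Phi (Γ.ch M z) h ∉ Icc (c - T.b * (M + 1)) (c + 1 - T.a * M)})
      (measurable_Phi _ measurableSet_Icc).compl]
    refine le_trans ?_ ((hr c M _ (Γ.ch_mem M z hz)).trans (hM₀ M (by omega)))
    exact le_mul_of_one_le_left' (one_le_pow₀ (by norm_num))
  have b3 : R.P c (⋃ y : ℕ, ⋃ i, xc_jump Γ z (α + (K₁ + y : ℕ)) 1 (K₁ + y) i) ≤ δ / 5 := by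
    refine (measure_iUnion_le _).trans
      ((ENNReal.tsum_le_tsum fun y => ht₁ R c _ 1 (K₁ + y) z le_rfl hz).trans ?_)
    refine le_of_eq_of_le ?_ (hK₁ K₁ le_rfl)
    simp only [pow_add, ← mul_assoc]
    rw [ENNReal.tsum_mul_left, ENNReal.tsum_geometric, ENNReal.one_sub_inv_two, inv_inv]
    ring
  have b4 : R.P c (⋃ y ∈ Finset.range K₁, ⋃ i,
      {ω | Phi (Γ.ch i z) ω.1 ∈ Icc (α + y) (α + y + 1) ∧
        (∀ j < J, Phi (Γ.ch (i + 1 + j) z) ω.1 ∈ Icc (α - K) (α + K)) ∧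
          ω.2 ∈ Γ.BadCh i J x z}) ≤ δ / 5 := by
    refine (xc_fin _ fun y _ => xc_sum T _ fun i => hch R x c (α + y) _ _ i J z hz hok).trans ?_
    rw [← mul_assoc]
    exact hJ J le_rfl
  have b5 : R.P c (⋃ y ∈ Finset.range K₁, ⋃ j ∈ Finset.range J, ⋃ i,
      xc_jump Γ z (α + y) (j + 1) m i) ≤ δ / 5 := by
    refine (xc_fin _ fun y _ => xc_fin _ fun j hj => ht₂ R c _ (j + 1) m z hj hz).trans ?_
    refine le_of_eq_of_le ?_ (hm m le_rfl)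
    ring
  calc _ ≤ _ := measure_mono hsub
    _ ≤ δ / 5 + δ / 5 + δ / 5 + δ / 5 + δ / 5 :=
        (measure_union_le _ _).trans (add_le_add ((measure_union_le _ _).trans (add_le_add
          ((measure_union_le _ _).trans (add_le_add
            ((measure_union_le _ _).trans (add_le_add b1 b2)) b3)) b4)) b5)
    _ = 5 * (δ / 5) := by ring
    _ ≤ δ := ENNReal.mul_div_le

end Pool.Agent.QL
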