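import Pool.Agent.P.MP_7a6434d8_pr.QL.Rsw.Base

/-! Block RSW: existence of a nested family of grids. -/

open MeasureTheory ProbabilityTheory Set Filter Topology Metric
open scoped ENNReal

namespace Pool.Agent.QL

open Pool.Agent.LGD

/-- The inverse mesh. -/
noncomputable def gx_s (i : ℕ) : ℝ := 8192 * 256 ^ i

theorem gx_pos (i : ℕ) : 0 < gx_s i := by unfold gx_s; positivity

theorem gx_rad (i : ℕ) : rad i * gx_s i = 8 := by
  unfold rad gx_s
  field_simp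
  norm_num

/-- The frame centred at a grid point. -/
noncomputable def gx_fr (i : ℕ) (p : ℤ × ℤ) : Fr :=
  ⟨(⟨p.1 / gx_s i, p.2 / gx_s i⟩, (rad i : ℝ)), isFr_real
    (isQ_iff.2 ⟨⟨p.1 / (8192 * 256 ^ i), by rw [gx_s]; push_cast; rfl⟩,
      ⟨p.2 / (8192 * 256 ^ i), by rw [gx_s]; push_cast; rfl⟩⟩)
    (isQ_ofReal_iff.2 ⟨1 / 1024 / 256 ^ i, by rw [rad]; push_cast; rfl⟩) (rad_pos i)⟩

theorem gx_floor {i j : ℕ} (h : i ≤ j) (t : ℝ) :
    ⌊(⌊t * gx_s j⌋ : ℝ) / gx_s j * gx_s i⌋ = ⌊t * gx_s i⌋ := by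
  obtain ⟨n, rfl⟩ := Nat.exists_eq_add_of_le h
  have e : ∀ u : ℝ, u / gx_s (i + n) * gx_s i = u / (256 ^ n : ℕ) := fun u => by
    simp only [gx_s, pow_add]
    push_cast
    field_simp
  rw [e, Int.floor_div_natCast, Int.floor_intCast, ← Int.floor_div_natCast, ← e,
    mul_div_cancel_right₀ _ (gx_pos _).ne']

theorem gx_near (i : ℕ) (t : ℝ) : |(⌊t * gx_s i⌋ : ℝ) / gx_s i - t| ≤ rad i / 8 := by
  have h := gx_pos i
  rw [← mul_le_mul_iff_left₀ h, div_mul_eq_mul_div, gx_rad, ← abs_of_pos h, ← abs_mul,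
    abs_of_pos h, sub_mul, div_mul_cancel₀ _ h.ne', abs_le]
  constructor <;> linarith [Int.floor_le (t * gx_s i), Int.lt_floor_add_one (t * gx_s i)]

theorem gx_box {i : ℕ} {m : ℤ} {t : ℝ} (h : |(m : ℝ) / gx_s i - t| ≤ 8 * rad i) :
    m ∈ Finset.Icc (⌊t * gx_s i⌋ - 64) (⌊t * gx_s i⌋ + 65) := by
  have h0 := gx_pos i
  rw [← mul_le_mul_iff_left₀ h0, mul_assoc, gx_rad, ← abs_of_pos h0, ← abs_mul,
    abs_of_pos h0, sub_mul, div_mul_cancel₀ _ h0.ne', abs_le] at h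
  rw [Finset.mem_Icc, ← Int.cast_le (R := ℝ), ← Int.cast_le (R := ℝ)]
  push_cast
  constructor <;> linarith [Int.floor_le (t * gx_s i), Int.lt_floor_add_one (t * gx_s i)]

theorem gx_mem {i : ℕ} {a b m : ℤ} :
    m ∈ Finset.Icc (a * 256 ^ i) (b * 256 ^ i) ↔
      (a : ℝ) / 8192 ≤ m / gx_s i ∧ m / gx_s i ≤ (b : ℝ) / 8192 := by
  have e : ∀ c : ℤ, (c : ℝ) / 8192 * gx_s i = (c * 256 ^ i : ℤ) := fun c => by
    rw [gx_s]
    push_cast
    ring
  rw [le_div_iff₀ (gx_pos i), div_le_iff₀ (gx_pos i), e, e, Int.cast_le, Int.cast_le,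
    Finset.mem_Icc]

theorem gx_floor_mem {i : ℕ} {a b : ℤ} {t : ℝ} (h : (a : ℝ) / 8192 ≤ t) (h' : t ≤ (b : ℝ) / 8192) :
    ⌊t * gx_s i⌋ ∈ Finset.Icc (a * 256 ^ i) (b * 256 ^ i) := by
  have h0 : (0 : ℝ) < 256 ^ i := by positivity
  rw [Finset.mem_Icc, Int.le_floor, ← Int.cast_le (R := ℝ)]
  refine ⟨?_, (Int.floor_le _).trans ?_⟩ <;>
  · rw [gx_s]
    push_cast
    nlinarith

theorem exists_grid : Nonempty Grid := by
  classical
  refine ⟨{
    D i := (Finset.Icc (-22528 * 256 ^ i) (22528 * 256 ^ i) ×ˢ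
      Finset.Icc (17408 * 256 ^ i) (19456 * 256 ^ i)).image (gx_fr i)
    ch i x := gx_fr i (⌊x.re * gx_s i⌋, ⌊x.im * gx_s i⌋)
    N := 10 ^ 9
    a_eq i F hF := ?_
    z_mem i F hF := ?_
    card i := ?_
    ch_mem i x hx := ?_
    ch_near i x := ?_
    ch_ch i j x h := ?_
    near i x := ?_ }⟩
  · obtain ⟨p, -, rfl⟩ := Finset.mem_image.1 hF
    rfl
  · obtain ⟨p, hp, rfl⟩ := Finset.mem_image.1 hF
    rw [Finset.mem_product, gx_mem, gx_mem] at hp
    change |(p.1 : ℝ) / gx_s i| ≤ _ ∧ _ ≤ (p.2 : ℝ) / gx_s i ∧ (p.2 : ℝ) / gx_s i ≤ _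
    push_cast at hp
    exact ⟨abs_le.2 ⟨by linarith [hp.1.1], by linarith [hp.1.2]⟩, by linarith [hp.2.1],
      by linarith [hp.2.2]⟩
  · refine Finset.card_image_le.trans ?_
    rw [Finset.card_product, Int.card_Icc, Int.card_Icc,
      show (65536 : ℕ) ^ i = 256 ^ i * 256 ^ i from mul_pow 256 256 i]
    have h : 0 < 256 ^ i := by positivity
    rw [show (256 : ℤ) ^ i = (256 ^ i : ℕ) by push_cast; rfl]
    generalize 256 ^ i = M at h
    refine (Nat.mul_le_mul (by omega : _ ≤ 50000 * M) (by omega : _ ≤ 20000 * M)).trans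
      (le_of_eq (by ring))
  · have h := abs_le.1 hx.1
    refine Finset.mem_image_of_mem _ (Finset.mem_product.2 ⟨gx_floor_mem ?_ ?_, gx_floor_mem ?_ ?_⟩)
    all_goals
      push_cast
      linarith [h.1, h.2, hx.2.1, hx.2.2]
  · refine (Complex.norm_le_abs_re_add_abs_im _).trans ?_
    exact (add_le_add (gx_near i x.re) (gx_near i x.im)).trans (le_of_eq (by ring))
  · exact congrArg (gx_fr i) (Prod.ext (gx_floor h x.re) (gx_floor h x.im))
  · refine (Finset.card_le_card (t := (Finset.Icc (⌊x.re * gx_s i⌋ - 64) (⌊x.re * gx_s i⌋ + 65) ×ˢ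
      Finset.Icc (⌊x.im * gx_s i⌋ - 64) (⌊x.im * gx_s i⌋ + 65)).image (gx_fr i)) ?_).trans
      (Finset.card_image_le.trans ?_)
    · intro F hF
      obtain ⟨h1, h2⟩ := Finset.mem_filter.1 hF
      obtain ⟨p, -, rfl⟩ := Finset.mem_image.1 h1
      exact Finset.mem_image_of_mem _ (Finset.mem_product.2
        ⟨gx_box ((Complex.abs_re_le_norm _).trans h2), gx_box ((Complex.abs_im_le_norm _).trans h2)⟩)
    · rw [Finset.card_product, Int.card_Icc, Int.card_Icc]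
      exact (Nat.mul_le_mul (by omega : _ ≤ 200) (by omega : _ ≤ 200)).trans (by norm_num)

end Pool.Agent.QL
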