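import Pool.Agent.P.MP_7a6434d8_pr.QL.Rsw.Base

/-! Block RSW: mean cost of the main family. -/

open MeasureTheory ProbabilityTheory Set Filter Topology Metric
open scoped ENNReal

namespace Pool.Agent.QL

open Pool.Agent.LGD

variable {ν : Measure Dist} {Γ : Grid}

theorem mn_sum (G : ℕ → ℝ≥0∞) (L : ℕ) :
    ∑ i ∈ Finset.range (L + 1), ∑ i' ∈ Finset.range (i + 1), G i' * 2⁻¹ ^ (i - i') ≤
      (∑' i, G i) * 2 := by
  have h1 : ∑ i ∈ Finset.range (L + 1), ∑ i' ∈ Finset.range (i + 1), G i' * 2⁻¹ ^ (i - i') =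
      ∑ i' ∈ Finset.range (L + 1), ∑ i ∈ Finset.Ico i' (L + 1), G i' * 2⁻¹ ^ (i - i') := by
    refine Finset.sum_comm' fun i i' => ?_
    simp only [Finset.mem_range, Finset.mem_Ico]
    omega
  rw [h1]
  calc _ ≤ ∑ i' ∈ Finset.range (L + 1), G i' * 2 := by
        refine Finset.sum_le_sum fun i' _ => ?_
        rw [← Finset.mul_sum, Finset.sum_Ico_eq_sum_range]
        gcongr
        simp only [add_tsub_cancel_left]
        exact (ENNReal.sum_le_tsum _).trans ENNReal.tsum_geometric_two.le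
    _ ≤ _ := by
        rw [← Finset.sum_mul]
        gcongr
        exact ENNReal.sum_le_tsum _

theorem mn_cover (K : ℕ) (α t : ℝ) (ht : t ∈ Icc (α - K) (α + K)) :
    ∃ y ∈ Finset.range (2 * K + 1), t ∈ Icc (α - K + y) (α - K + y + 1) := by
  have h0 : 0 ≤ t - (α - K) := by linarith [ht.1]
  refine ⟨⌊t - (α - K)⌋₊, ?_, ?_, ?_⟩
  · rw [Finset.mem_range, Nat.floor_lt h0]
    push_cast
    linarith [ht.2]
  · linarith [Nat.floor_le h0]
  · linarith [Nat.lt_floor_add_one (t - (α - K))]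

theorem mn_pair {g : ℕ → ℝ → ℝ≥0∞} {C : ℝ≥0∞} (K : ℕ)
    (hC : ∀ (c y : ℝ) (i n : ℕ), ∀ F ∈ Γ.D (i + n), ∀ F' ∈ Γ.nb i F.z,
      nuc ν c {h | Phi F' h ∈ Icc y (y + 1) ∧ |Phi F h - Phi F' h| ≤ 2 * K} ≤
        g i (y - c) * (C * 4⁻¹ ^ n))
    (c α : ℝ) {i i' : ℕ} (hi : i' ≤ i) {F F' : Fr} (hF : F ∈ Γ.D i) (hF' : F' ∈ Γ.nb i' F.z) :
    nuc ν c {h | Phi F h ∈ Icc (α - K) (α + K) ∧ Phi F' h ∈ Icc (α - K) (α + K)} ≤
      (∑ y ∈ Finset.range (2 * K + 1), g i' (α - K + y - c)) * (C * 4⁻¹ ^ (i - i')) := by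
  obtain ⟨n, rfl⟩ := Nat.exists_eq_add_of_le hi
  rw [add_tsub_cancel_left, Finset.sum_mul]
  calc _ ≤ nuc ν c (⋃ y ∈ Finset.range (2 * K + 1),
        {h | Phi F' h ∈ Icc (α - K + y) (α - K + y + 1) ∧ |Phi F h - Phi F' h| ≤ 2 * K}) := by
        refine measure_mono fun h hh => ?_
        obtain ⟨y, hy, hy'⟩ := mn_cover K α _ hh.2
        refine mem_iUnion₂.2 ⟨y, hy, hy', abs_le.2 ⟨?_, ?_⟩⟩
        · linarith [hh.1.1, hh.2.2]
        · linarith [hh.1.2, hh.2.1]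
    _ ≤ _ := (measure_biUnion_finset_le _ _).trans
        (Finset.sum_le_sum fun y _ => hC c _ i' n F hF F' hF')

theorem mn_pow (r : ℝ) (n : ℕ) (G C : ℝ≥0∞) :
    ENNReal.ofReal (r ^ 2 * 2 ^ n) * (G * (C * 4⁻¹ ^ n)) =
      ENNReal.ofReal (r ^ 2) * (C * (G * 2⁻¹ ^ n)) := by
  have h : (2 : ℝ≥0∞) * 4⁻¹ = 2⁻¹ := by
    have h4 : (4 : ℝ≥0∞) = 2 * 2 := by norm_num
    rw [h4, ENNReal.mul_inv (by simp) (by simp), ← mul_assoc,
      ENNReal.mul_inv_cancel (by simp) (by simp), one_mul]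
  rw [ENNReal.ofReal_mul (sq_nonneg r), ENNReal.ofReal_pow (by norm_num) n, ENNReal.ofReal_ofNat,
    ← h, mul_pow]
  ring

theorem main_of (hν : IsCanon ν) (T : Tools ν Γ) : MainSt ν Γ := by
  intro K
  obtain ⟨C, hC0, hC⟩ := T.pair (2 * K)
  refine ⟨Γ.N * (Γ.N * (C * (((2 * K + 1 : ℕ) * T.Cg) * 2))), ?_, fun c α L => ?_⟩
  · have := T.Cg_ne
    finiteness
  obtain ⟨G, hG⟩ : ∃ G : ℕ → ℝ≥0∞,
      ∀ i, G i = ∑ y ∈ Finset.range (2 * K + 1), T.g i (α - K + y - c) := ⟨_, fun _ => rfl⟩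
  have hGs : ∑' i, G i ≤ (2 * K + 1 : ℕ) * T.Cg := by
    simp only [hG]
    rw [Summable.tsum_finsetSum fun _ _ => ENNReal.summable]
    refine (Finset.sum_le_card_nsmul _ _ _ fun y _ => T.sumN _).trans ?_
    rw [Finset.card_range, nsmul_eq_mul]
  have hm : ∀ F F' : Fr, MeasurableSet
      {h | Phi F h ∈ Icc (α - K) (α + K) ∧ Phi F' h ∈ Icc (α - K) (α + K)} := fun F F' =>
    (measurable_Phi F measurableSet_Icc).inter (measurable_Phi F' measurableSet_Icc)
  have hi : ∀ (F F' : Fr) (r : ℝ≥0∞), Measurable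
      ({h | Phi F h ∈ Icc (α - K) (α + K) ∧ Phi F' h ∈ Icc (α - K) (α + K)}.indicator
        fun _ => r) := fun F F' r => measurable_const.indicator (hm F F')
  unfold Grid.costM
  rw [lintegral_finsetSum _ fun i _ => Finset.measurable_sum _ fun F _ =>
    Finset.measurable_sum _ fun i' _ => Finset.measurable_sum _ fun F' _ => hi _ _ _]
  calc _ ≤ ∑ i ∈ Finset.range (L + 1),
        Γ.N * (Γ.N * (C * ∑ i' ∈ Finset.range (i + 1), G i' * 2⁻¹ ^ (i - i'))) := by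
        refine Finset.sum_le_sum fun i _ => ?_
        rw [lintegral_finsetSum _ fun F _ =>
          Finset.measurable_sum _ fun i' _ => Finset.measurable_sum _ fun F' _ => hi _ _ _]
        refine (Finset.sum_le_card_nsmul _ _ (ENNReal.ofReal (rad i ^ 2) *
          (Γ.N * (C * ∑ i' ∈ Finset.range (i + 1), G i' * 2⁻¹ ^ (i - i')))) fun F hF => ?_).trans ?_
        · rw [lintegral_finsetSum _ fun i' _ => Finset.measurable_sum _ fun F' _ => hi _ _ _,
            Finset.mul_sum, Finset.mul_sum, Finset.mul_sum]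
          refine Finset.sum_le_sum fun i' hi' => ?_
          rw [lintegral_finsetSum _ fun F' _ => hi _ _ _]
          refine (Finset.sum_le_card_nsmul _ _
            (ENNReal.ofReal (rad i ^ 2) * (C * (G i' * 2⁻¹ ^ (i - i')))) fun F' hF' => ?_).trans ?_
          · rw [lintegral_indicator_const (hm _ _), ← mn_pow, hG]
            gcongr
            exact mn_pair K hC c α (Nat.lt_succ_iff.1 (Finset.mem_range.1 hi')) hF hF'
          · rw [nsmul_eq_mul, mul_left_comm]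
            gcongr
            exact_mod_cast Γ.card_nb i' F.z
        · rw [nsmul_eq_mul, ← mul_assoc]
          gcongr
          exact Γ.card_mul_le i
    _ ≤ _ := by
        rw [← Finset.mul_sum, ← Finset.mul_sum, ← Finset.mul_sum]
        gcongr
        refine (mn_sum G L).trans ?_
        gcongr

end Pool.Agent.QL
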