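import Pool.Agent.P.MP_7a6434d8_pr.QL.Rsw.Env

/-! Block RSW: levels of two nested frames. -/

open MeasureTheory ProbabilityTheory Set Filter Topology Metric
open scoped ENNReal

namespace Pool.Agent.QL

open Pool.Agent.LGD

variable {ν : Measure Dist} {Γ : Grid}

theorem pr_QQ : 2 ≤ QQ := by
  have h : 0 < gam := Real.sqrt_pos.2 (by norm_num)
  rw [QQ, div_add_div _ _ h.ne' two_ne_zero, le_div_iff₀ (by positivity)]
  nlinarith [sq_nonneg (gam - 2)]

theorem pr_ex_mono {x y : ℝ} (h : x ≤ y) : ex x ≤ ex y :=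
  ENNReal.ofReal_le_ofReal (Real.exp_le_exp.2 h)

theorem pr_ex_add (x y : ℝ) : ex (x + y) = ex x * ex y := by
  rw [ex, ex, ex, Real.exp_add, ENNReal.ofReal_mul (Real.exp_pos x).le]

theorem pr_ex_pow {a : ℝ≥0∞} {x : ℝ} (h : a ≤ ex x) (n : ℕ) : ex (-(n * x)) ≤ a⁻¹ ^ n := by
  rw [ex, ← mul_neg, Real.exp_nat_mul, ENNReal.ofReal_pow (Real.exp_pos _).le, Real.exp_neg,
    ENNReal.ofReal_inv_of_pos (Real.exp_pos x)]
  exact pow_le_pow_left' (ENNReal.inv_le_inv.2 h) n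

theorem pr_gen (hν : IsCanon ν) {C c₀ : ℝ} (h : LT0At ν C c₀) (Γ : Grid) :
    ∃ C₀ : ℝ, ∀ (c y t : ℝ) (i n : ℕ), ∀ F ∈ Γ.D (i + n), ∀ F' ∈ Γ.nb i F.z, ∀ S : Set ℝ,
      MeasurableSet S → (∀ d, d - QQ * (n * Real.log 256) ∈ S → t < |d|) →
      nuc ν c {h | Phi F' h ∈ Icc y (y + 1) ∧ Phi F h - Phi F' h ∈ S} ≤
        env C c₀ i (y - c) * (2 * ex (n * Real.log 256 + C₀ - t)) := by
  obtain ⟨C₀, hC⟩ := hν.ga 8
  refine ⟨C₀, fun c y t i n F hF F' hF' S hS ht => ?_⟩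
  obtain ⟨h1, h2⟩ := Γ.mem_nb.1 hF'
  have h3 := Γ.norm_a hF
  have h4 := Γ.norm_a h1
  have h5 := rad_pos i
  have h6 := rad_anti (Nat.le_add_right i n)
  have h7 : Real.log (‖F'.a‖ / ‖F.a‖) = n * Real.log 256 := by
    rw [h3, h4, rad_add, div_div_cancel₀ h5.ne', Real.log_pow]
  have h8 : ∀ k, Phi F k - Phi F' k =
      Xm F.z F.a k - Xm F'.z F'.a k - QQ * (n * Real.log 256) := fun k => by
    rw [← h7, Real.log_div (norm_ne_zero_iff.2 F'.a_ne) (norm_ne_zero_iff.2 F.a_ne), Phi, Phi]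
    ring
  obtain ⟨h9, h10⟩ := hC F.z F.a F'.z F'.a F.a_ne F'.a_ne (by rwa [h4, norm_sub_rev])
    (by rw [h3, h4]; linarith)
  rw [h7] at h9 h10
  refine h.nuc_le hν Γ h1 (A := {k | Phi F k - Phi F' k ∈ S}) ?_ (fun k s => ?_) ?_ c y
  · simp only [h8]
    refine ((measurable_Xsub F.a_ne F'.a_ne (ball_subset_ball' ?_) (ball_subset_ball ?_)).sub_const
      _) hS
    · rw [h3, dist_comm, dist_eq_norm]; linarith
    · rw [h4]; linarith
  · simp only [mem_ofPred_eq, Phi_lev, add_sub_add_left_eq_sub]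
  · have := hν.prob
    set v := n * Real.log 256 + C₀
    have h11 : ν {k | t < |Xm F.z F.a k - Xm F'.z F'.a k|} ≤ 2 * ex (v - t + (v - t)) := by
      rcases le_total 0 t with h0 | h0
      · refine (h10 t h0).trans ?_
        gcongr
        refine pr_ex_mono ?_
        rw [← neg_div, div_le_iff₀ (by linarith)]
        nlinarith [sq_nonneg (t - 2 * v)]
      · refine prob_le_one.trans (one_le_mul one_le_two ?_)
        exact ENNReal.one_le_ofReal.2 (Real.one_le_exp (by linarith))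
    refine ((measure_mono fun k hk => ht _ (h8 k ▸ hk)).trans h11).trans ?_
    rw [pr_ex_add, mul_pow, sq (ex _)]
    gcongr
    norm_num

theorem pair_of (hν : IsCanon ν) {C c₀ : ℝ} (h : LT0At ν C c₀) (Γ : Grid) :
    PairSt ν Γ (env C c₀) := by
  obtain ⟨C₀, hC⟩ := pr_gen hν h Γ
  refine fun K => ⟨2 * ex (C₀ + K + 1), ENNReal.mul_ne_top ENNReal.ofNat_ne_top
    ENNReal.ofReal_ne_top, fun c y i n F hF F' hF' => ?_⟩
  have h1 : 0 ≤ n * Real.log 256 := by positivity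
  refine (hC c y (QQ * (n * Real.log 256) - K - 1) i n F hF F' hF' {d | |d| ≤ K}
    (measurableSet_le measurable_abs measurable_const) fun d hd => ?_).trans ?_
  · linarith [(abs_le.1 (show |_| ≤ K from hd)).1, le_abs_self d]
  · rw [mul_assoc]
    gcongr
    refine le_trans (pr_ex_mono ?_) ((pr_ex_add _ (-(n * Real.log 256))).le.trans
      (mul_le_mul_right (pr_ex_pow ?_ n) _))
    · nlinarith [pr_QQ]
    · rw [ex, Real.exp_log (by norm_num)]
      norm_num

theorem tail_of (hν : IsCanon ν) {C c₀ : ℝ} (h : LT0At ν C c₀) (Γ : Grid) :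
    TailSt ν Γ (env C c₀) := by
  obtain ⟨C₀, hC⟩ := pr_gen hν h Γ
  refine fun J => ⟨2 * ex (C₀ + (QQ + 1) * (J * Real.log 256) + 1), ENNReal.mul_ne_top
    ENNReal.ofNat_ne_top ENNReal.ofReal_ne_top, fun c y i n m hn F hF F' hF' => ?_⟩
  have h1 : 0 ≤ n * Real.log 256 := by positivity
  have h2 : n * Real.log 256 ≤ J * Real.log 256 := by gcongr
  have h3 := pr_QQ
  refine (hC c y (m - QQ * (n * Real.log 256) - 1) i n F hF F' hF' {d | (m : ℝ) ≤ |d|}
    (measurableSet_le measurable_const measurable_abs) fun d hd => ?_).trans ?_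
  · have h4 := (show (m : ℝ) ≤ _ from hd).trans (abs_sub d _)
    rw [abs_of_nonneg (a := QQ * _) (by positivity)] at h4
    linarith
  · rw [mul_assoc]
    gcongr
    refine le_trans (pr_ex_mono ?_) ((pr_ex_add _ (-(m * 1))).le.trans
      (mul_le_mul_right (pr_ex_pow ?_ m) _))
    · nlinarith
    · rw [ex, ENNReal.le_ofReal_iff_toReal_le ENNReal.ofNat_ne_top (Real.exp_pos 1).le]
      have := Real.add_one_le_exp 1
      norm_num at this ⊢
      exact this

end Pool.Agent.QL
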