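import Pool.Agent.P.MP_7a6434d8_pr.QL.Rsw.Base

/-! Block RSW: the range of the levels of the frames. -/

open MeasureTheory ProbabilityTheory Set Filter Topology Metric
open scoped ENNReal

namespace Pool.Agent.QL

open Pool.Agent.LGD

variable {ν : Measure Dist} {Γ : Grid}

theorem rg_QQ : 2.04 ≤ QQ ∧ QQ ≤ 2.05 := by
  have h0 : 0 < gam := Real.sqrt_pos.2 (by norm_num)
  have h1 : gam ^ 2 = 8 / 3 := Real.sq_sqrt (by norm_num)
  have h2 : QQ = 5 / 4 * gam := by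
    rw [QQ]
    field_simp
    linarith
  rw [h2]
  constructor <;> nlinarith

theorem rg_mono {x y : ℝ} (h : x ≤ y) : ex x ≤ ex y :=
  ENNReal.ofReal_le_ofReal (Real.exp_le_exp.2 h)

theorem rg_add (x y : ℝ) : ex (x + y) = ex x * ex y := by
  rw [ex, ex, ex, Real.exp_add, ENNReal.ofReal_mul (Real.exp_pos x).le]

theorem rg_pow (x : ℝ) (n : ℕ) : ex x ^ n = ex (n * x) := by
  rw [ex, ex, ← ENNReal.ofReal_pow (Real.exp_pos x).le, Real.exp_nat_mul]

/-- The Gaussian tail of the averages of the frames. -/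
theorem rg_tail (hν : IsCanon ν) (Γ : Grid) : ∃ C : ℝ, ∀ i, ∀ F ∈ Γ.D i, ∀ y l : ℝ, 0 ≤ y →
    ν {k | y < |Xm F.z F.a k|} ≤ 2 * ex (l ^ 2 * (-Real.log (rad i) + C) / 2 - l * y) := by
  obtain ⟨C, hC⟩ := hν.ga 4
  refine ⟨C, fun i F hF y l hy => ?_⟩
  have hn := Γ.norm_a hF
  obtain ⟨h1, h2⟩ := hC F.z F.a 0 1 F.a_ne one_ne_zero
    (by rw [sub_zero, norm_one]; linarith [Γ.norm_z hF])
    (by rw [hn, norm_one]; linarith [rad_le i])
  rw [norm_one, hn, one_div, Real.log_inv] at h1 h2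
  have h3 : ν {k | y < |Xm F.z F.a k|} ≤ ν {k | y < |Xm F.z F.a k - Xm 0 1 k|} := by
    refine measure_mono_ae ?_
    filter_upwards [hν.X_one] with k hk h
    change y < |Xm F.z F.a k - Xm 0 1 k|
    rwa [hk, sub_zero]
  refine h3.trans ((h2 y hy).trans ?_)
  gcongr
  refine rg_mono ?_
  generalize -Real.log (rad i) + C = v at h1
  rw [neg_le, le_div_iff₀ (by linarith)]
  nlinarith [sq_nonneg (y - l * v)]

theorem range_of (hν : IsCanon ν) (Γ : Grid) : ∃ a b : ℝ, 0 < a ∧ 0 < b ∧ RangeSt ν Γ a b := by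
  obtain ⟨C, hC⟩ := rg_tail hν Γ
  have l1 := Real.log_two_gt_d9
  have l2 := Real.log_two_lt_d9
  obtain ⟨q1, q2⟩ := rg_QQ
  refine ⟨1 / 10, 29, by norm_num, by norm_num, 2 * ex (2.0402 * C), ex (-(0.3 * Real.log 2)),
    ENNReal.mul_ne_top ENNReal.ofNat_ne_top ENNReal.ofReal_ne_top,
    ENNReal.ofReal_lt_one.2 (Real.exp_lt_one_iff.2 (by linarith)), fun c i F hF => ?_⟩
  have hi : (0 : ℝ) ≤ i := i.cast_nonneg
  have hL := log_rad i
  have hL1 := one_le_log_rad i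
  have h1 : nuc ν c {h | Phi F h ∉ Icc (c - 29 * (i + 1)) (c + 1 - 1 / 10 * i)} ≤
      2 * ex (2.02 ^ 2 * (-Real.log (rad i) + C) / 2 - 2.02 * (2.02 * -Real.log (rad i))) := by
    refine nuc_le hν c (measurable_Phi F measurableSet_Icc).compl fun t ht =>
      le_trans (measure_mono fun k hk => ?_) (hC i F hF _ 2.02 (by linarith))
    by_contra hn
    rw [mem_ofPred_eq, not_lt, abs_le] at hn
    refine hk ?_
    have u1 : -Real.log (rad i) ≤ 7 * (i + 1) := by rw [hL]; nlinarith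
    have u2 : 5 * i ≤ -Real.log (rad i) := by rw [hL]; nlinarith
    rw [mem_preimage, Phi_lev, Phi, Γ.norm_a hF]
    constructor <;> nlinarith [hn.1, hn.2, ht.1, ht.2]
  have h2 : (65536 : ℝ≥0∞) = ex (16 * Real.log 2) := by
    rw [ex, show (16 : ℝ) = (16 : ℕ) by norm_num, Real.exp_nat_mul, Real.exp_log two_pos]
    norm_num
  refine (mul_le_mul_right h1 _).trans ?_
  rw [h2, rg_pow, rg_pow, mul_left_comm, mul_assoc, ← rg_add, ← rg_add]
  gcongr
  refine rg_mono ?_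
  rw [hL]
  nlinarith [mul_nonneg hi (show 0 ≤ Real.log 2 by linarith)]

theorem start_of (hν : IsCanon ν) (Γ : Grid) : StartSt ν Γ := by
  obtain ⟨C, hC⟩ := rg_tail hν Γ
  intro η hη
  have h1 : Tendsto (fun y : ℝ => 2 * ex (1 ^ 2 * (-Real.log (rad 0) + C) / 2 - 1 * y)) atTop
      (𝓝 0) := by
    rw [← mul_zero (2 : ℝ≥0∞)]
    refine ENNReal.Tendsto.const_mul ?_ (Or.inr ENNReal.ofNat_ne_top)
    rw [← ENNReal.ofReal_zero]
    refine ENNReal.tendsto_ofReal (Real.tendsto_exp_atBot.comp ?_)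
    simp only [one_mul, sub_eq_add_neg]
    exact tendsto_atBot_add_const_left _ _ tendsto_neg_atTop_atBot
  obtain ⟨y, h2, h3⟩ := ((h1.eventually (ge_mem_nhds hη)).and (eventually_ge_atTop 0)).exists
  refine ⟨y - QQ * Real.log (rad 0), fun c F hF => ?_⟩
  refine nuc_le hν c (measurable_Phi F measurableSet_Iio) fun t ht =>
    le_trans (measure_mono fun k hk => ?_) ((hC 0 F hF y 1 h3).trans h2)
  have h4 : Phi F (lev k t) < c - (y - QQ * Real.log (rad 0)) := hk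
  rw [Phi_lev, Phi, Γ.norm_a hF] at h4
  have h5 : y < -Xm F.z F.a k := by linarith [ht.1]
  exact lt_abs.2 (Or.inr h5)

end Pool.Agent.QL
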