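import Pool.Agent.P.MP_7a6434d8_pr.QL.Rsw.Num
import Pool.Agent.P.MP_7a6434d8_pr.QL.Rsw.GridEx
import Pool.Agent.P.MP_7a6434d8_pr.QL.Rsw.Det
import Pool.Agent.P.MP_7a6434d8_pr.QL.Rsw.EnvSum
import Pool.Agent.P.MP_7a6434d8_pr.QL.Rsw.Chain
import Pool.Agent.P.MP_7a6434d8_pr.QL.Rsw.Pair
import Pool.Agent.P.MP_7a6434d8_pr.QL.Rsw.Range
import Pool.Agent.P.MP_7a6434d8_pr.QL.Rsw.Main
import Pool.Agent.P.MP_7a6434d8_pr.QL.Rsw.Exc
import Pool.Agent.P.MP_7a6434d8_pr.QL.Rsw.RC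
import Pool.Agent.P.MP_7a6434d8_pr.QL.Rsw.Boost
import Pool.Agent.P.MP_7a6434d8_pr.QL.Rsw.Cone
import Pool.Agent.P.MP_7a6434d8_pr.QL.Net.RowsA
import Pool.Agent.P.MP_7a6434d8_pr.QL.Net.DualA

/-! Block RSW: assembly. -/

open MeasureTheory ProbabilityTheory Set Filter Topology Metric
open scoped ENNReal

namespace Pool.Agent.QL

open Pool.Agent.LGD

variable {ν : Measure Dist}

theorem rsw_of_net (hν : IsCanon ν) (hAR : ARStmt ν) (h6 : N6Stmt) (h8 : N8Stmt) :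
    RSWStmt ν := by
  obtain ⟨Γ⟩ := exists_grid
  obtain ⟨C, c, hC, hc, h0, h1⟩ := exists_consts hν
  obtain ⟨Cg, g1, g2, g3⟩ := env_sum hC hc
  obtain ⟨a, b, ha, hb, hr⟩ := range_of hν Γ
  let T : Tools ν Γ := ⟨env C c, Cg, a, b, g1, ha, hb, g2, g3, chain_of hν h1 Γ, pair_of hν h0 Γ,
    tail_of hν h0 Γ, hr, start_of hν Γ⟩
  have hB := boost_of hν (det_of h6 Γ) (rc_of hν T) (costE_of hν T)
  exact rsw_of hν hAR h8 (b1_of hν ha hb hB)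
    (b4_of hν ha hb hB (main_of hν T) (exc_of hν T)) cone

theorem rsw (hν : IsCanon ν) (hAR : ARStmt ν) : RSWStmt ν := rsw_of_net hν hAR n6 n8

end Pool.Agent.QL
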