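import Pool.Agent.P.MP_7a6434d8_pr.QL.Rsw.Base
import Pool.Agent.P.MP_7a6434d8_pr.QL.GT.Lev

/-! Block RSW: the numerical facts about the quantile functions. -/

open MeasureTheory ProbabilityTheory Set Filter Topology Metric
open scoped ENNReal

namespace Pool.Agent.QL

open Pool.Agent.LGD

variable {ν : Measure Dist}

theorem map_swap_apply (R : Regime ν) (k : Dist) (E : Set Sys) :
    R.K.map Prod.swap k E = R.K k (Prod.swap ⁻¹' E) := by
  rw [Kernel.map_apply _ measurable_swap]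
  exact MeasurableEquiv.map_apply (MeasurableEquiv.prodComm : Sys ≃ᵐ Sys) E

/-- Exchange of the primal and the dual halves. -/
noncomputable def Regime.swap (R : Regime ν) : Regime ν where
  K := R.K.map Prod.swap
  markov := Kernel.IsMarkovKernel.map _ measurable_swap
  real := by
    filter_upwards [R.real] with k hk
    rw [Kernel.map_apply _ measurable_swap]
    exact (MeasurableEquiv.prodComm : Sys ≃ᵐ Sys).measurableEmbedding.ae_map_iff.2
      (hk.mono fun s hs => hs.swap)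
  cov F hF E hE := by
    filter_upwards [R.cov F hF _ (measurable_swap_SS U0 hE)] with k hk
    rw [map_swap_apply, map_swap_apply]
    exact hk
  loc U hU E hE := by
    obtain ⟨G, h1, h2⟩ := R.loc U hU _ (measurable_swap_SS U hE)
    exact ⟨G, h1, h2.mono fun k hk => (map_swap_apply R k E).trans hk⟩
  indep U V hU hUV E E' hE hE' := by
    filter_upwards [R.indep U V hU hUV _ _ (measurable_swap_SS U hE) (measurable_swap_SS V hE')]
      with k hk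
    rw [map_swap_apply, map_swap_apply, map_swap_apply]
    exact hk

theorem Regime.bet_swap (R : Regime ν) (c : ℝ) (E : Set Sys) :
    R.swap.bet c E = R.bet c (Prod.swap ⁻¹' E) := by
  simp only [Regime.bet, Regime.swap, map_swap_apply]

theorem Link.symm {ε₀ : ℝ} {u v : ℝ → ℝ} (h : Link ν ε₀ u v) : Link ν ε₀ v u := by
  refine ⟨fun T => (h.bdd T).imp fun B hB t ht => (hB t ht).symm, fun t lk 𝒰 ht => ?_⟩
  obtain ⟨R, h1, h2⟩ := h.reg t (fun k => -lk k) 𝒰 ht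
  simp only [neg_neg] at h2
  refine ⟨R.swap, ⟨fun t' c x h3 h4 => ?_, fun t' c x h3 h4 => ?_⟩,
    ⟨fun t' c x h3 h4 => ?_, fun t' c x h3 h4 => ?_⟩⟩
  · rw [Regime.bet_swap]; exact h2.up t' c x h3 h4
  · rw [Regime.bet_swap]; exact h2.low t' c x h3 h4
  · rw [Regime.bet_swap]; exact h1.up t' c x h3 h4
  · rw [Regime.bet_swap]; exact h1.low t' c x h3 h4

/-- The regime seen from a sequence of levels, normalised by the values of `u`. -/
theorem Link.regime {ε₀ : ℝ} {u v : ℝ → ℝ} (h : Link ν ε₀ u v) {t : ℕ → ℝ}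
    (ht : Tendsto t atTop atTop) : ∃ (𝒰 : Ultrafilter ℕ) (R : Regime ν), (𝒰 : Filter ℕ) ≤ atTop ∧
      Lk R ε₀ u t (fun k => u (t k)) 𝒰 Prod.fst ∧ Lk R ε₀ v t (fun k => -u (t k)) 𝒰 Prod.snd := by
  obtain ⟨R, h1, h2⟩ := h.reg t (fun k => u (t k)) (Ultrafilter.of atTop)
    (ht.mono_left (Ultrafilter.of_le _))
  exact ⟨_, R, Ultrafilter.of_le _, h1, h2⟩

theorem Lk.up_const {R : Regime ν} {ε₀ : ℝ} {u : ℝ → ℝ} {t lk : ℕ → ℝ} {𝒰 : Ultrafilter ℕ}
    {pr : Sys → Idx → ℝ≥0∞} (h : Lk R ε₀ u t lk 𝒰 pr) (c x : ℝ)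
    (hx : ∀ᶠ k in (𝒰 : Filter ℕ), u (t k + c) - lk k ≤ x) :
    R.bet c {s | ex x < Rp (pr s)} ≤ ENNReal.ofReal (2 * ε₀) :=
  h.up (fun k => t k + c) c x (by simp) hx

theorem Lk.low_zero {R : Regime ν} {ε₀ : ℝ} {u : ℝ → ℝ} {t : ℕ → ℝ} {𝒰 : Ultrafilter ℕ}
    (h : Lk R ε₀ u t (fun k => u (t k)) 𝒰 Prod.fst) :
    ENNReal.ofReal (ε₀ / 2) ≤ R.bet 0 (big (-1)) :=
  h.low t 0 (-1) (by simp) (by simp)

theorem exists_real_eps {ε : ℝ≥0∞} (hε : 0 < ε) :
    ∃ e : ℝ, 0 < e ∧ ∀ ε₀, ε₀ ≤ e → ENNReal.ofReal (2 * ε₀) ≤ ε := by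
  have h1 : min ε 1 ≠ ⊤ := ne_top_of_le_ne_top ENNReal.one_ne_top (min_le_right _ _)
  refine ⟨(min ε 1).toReal / 2, half_pos (ENNReal.toReal_pos (lt_min hε one_pos).ne' h1),
    fun ε₀ h => ?_⟩
  calc _ ≤ ENNReal.ofReal (min ε 1).toReal := ENNReal.ofReal_le_ofReal (by linarith)
    _ = min ε 1 := ENNReal.ofReal_toReal h1
    _ ≤ ε := min_le_left _ _

theorem nf0_of (hν : IsCanon ν) (h8 : N8Stmt) {ε₀ : ℝ} (h0 : 0 < ε₀) (hε : ε₀ < 1 / 4)
    {u v : ℝ → ℝ} (hL : Link ν ε₀ u v) : NF0 u v := by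
  by_contra hn
  obtain ⟨t, ht, hp⟩ := exists_seq_forall_of_frequently (not_eventually.1 hn)
  obtain ⟨𝒰, R, -, h1, h2⟩ := hL.regime ht
  have a1 : R.bet 0 (bad 0) ≤ _ := h1.up_const 0 0 (by simp)
  have a2 : R.bet 0 (Prod.swap ⁻¹' bad (-1)) ≤ _ :=
    h2.up_const 0 (-1) (Eventually.of_forall fun k => by
      have := not_le.1 (hp k)
      rw [add_zero]; linarith)
  have m2 : MeasurableSet[SS U0] (Prod.swap ⁻¹' bad (-1)) :=
    measurable_swap_SS U0 (measurableSet_bad_U0 _)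
  have m3 : MeasurableSet (Prod.swap ⁻¹' bad (-1)) := SS_le _ _ m2
  have m4 := measurable_pull (rotF 1) m3
  have a3 : R.bet 0 (pull (rotF 1) ⁻¹' (Prod.swap ⁻¹' bad (-1))) ≤ ENNReal.ofReal (2 * ε₀) := by
    rw [R.bet_eq_nuc hν 0 m4,
      lintegral_congr_ae (ae_nuc hν 0 (R.cov (rotF 1) (mapsTo_rotF 1) _ m2)),
      lintegral_nuc_rot hν 1 0 (R.K.measurable_coe m3), ← R.bet_eq_nuc hν 0 m3]
    exact a2
  rw [R.bet_eq_P hν 0 (measurableSet_bad 0)] at a1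
  rw [R.bet_eq_P hν 0 m4] at a3
  have := R.P_prob hν 0
  have a4 := R.P_mono_real hν 0 MeasurableSet.univ
    ((measurable_snd (measurableSet_bad 0)).union (measurable_snd m4)) fun ω hω _ => by
      by_contra hc
      rw [mem_union, not_or] at hc
      have b1 : Rp ω.2.1 ≤ ex 0 := not_lt.1 hc.1
      have b2 : Rp (pull (rotF 1) ω.2).2 ≤ ex (-1) := not_lt.1 hc.2
      have b3 := (h8 ω.2 hω).trans b2
      rw [Rp_eq, ex_zero, ENNReal.inv_le_one] at b1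
      have b4 := b1.trans b3
      rw [ex, ENNReal.one_le_ofReal, Real.one_le_exp_iff] at b4
      linarith
  rw [measure_univ] at a4
  have a5 := a4.trans ((measure_union_le _ _).trans (add_le_add a1 a3))
  rw [← ENNReal.ofReal_add (by linarith) (by linarith), ENNReal.one_le_ofReal] at a5
  linarith

theorem nf1_of (h : B1St ν) : ∃ e : ℝ, 0 < e ∧ ∀ ε₀, 0 < ε₀ → ε₀ ≤ e → ∀ u v : ℝ → ℝ,
    Link ν ε₀ u v → NF1 u := by
  obtain ⟨ε, β, hε, hβ, h⟩ := h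
  obtain ⟨e, he, he'⟩ := exists_real_eps hε
  refine ⟨e, he, fun ε₀ h0 h1 u v hL => ?_⟩
  obtain ⟨A, l₀, h⟩ := h (ENNReal.ofReal (ε₀ / 2)) (ENNReal.ofReal_pos.2 (half_pos h0))
  refine ⟨A + 1, β, l₀, hβ, fun l hl => ?_⟩
  by_contra hn
  obtain ⟨t, ht, hp⟩ := exists_seq_forall_of_frequently (not_eventually.1 hn)
  obtain ⟨𝒰, R, -, h2, -⟩ := hL.regime ht
  have a1 := h R 0 (-(A + 1)) l hl fun c hc =>
    (h2.up_const c _ (Eventually.of_forall fun k => by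
      by_contra hc'
      exact hp k ⟨t k + c, ⟨by linarith [hc.1], by linarith [hc.2]⟩,
        by linarith [not_le.1 hc']⟩)).trans (he' ε₀ h1)
  rw [show -(A + 1) + A = -1 by ring] at a1
  exact absurd h2.low_zero (not_le.2 a1)

theorem nf4_of (h : B4St ν) : ∃ e : ℝ, 0 < e ∧ ∀ ε₀, 0 < ε₀ → ε₀ ≤ e → ∀ u v : ℝ → ℝ,
    Link ν ε₀ u v → NF4 u := by
  obtain ⟨ε, c₁, hε, hc₁, h⟩ := h
  obtain ⟨e, he, he'⟩ := exists_real_eps hε
  refine ⟨e, he, fun ε₀ h0 h1 u v hL => ⟨c₁, hc₁, fun C₃ => ?_⟩⟩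
  obtain ⟨A, K, d₀, h⟩ := h (ENNReal.ofReal (ε₀ / 2)) (ENNReal.ofReal_pos.2 (half_pos h0)) C₃
  refine ⟨A, K, d₀, fun d hd => ?_⟩
  by_contra hn
  obtain ⟨t, ht, hp⟩ := exists_seq_forall_of_frequently (not_eventually.1 hn)
  obtain ⟨𝒰, R, -, h2, -⟩ := hL.regime ht
  have hp1 := fun k => (Classical.not_imp.1 (hp k)).1
  have hp2 := fun k => (Classical.not_imp.1 (hp k)).2
  have a1 := h R 0 0 d hd (fun c hc =>
    (h2.up_const c _ (Eventually.of_forall fun k => by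
      have := hp1 k (t k + c) ⟨by linarith [hc.1], by linarith [hc.2]⟩
      linarith)).trans (he' ε₀ h1)) fun c hc =>
    (h2.up_const c _ (Eventually.of_forall fun k => by
      by_contra hc'
      exact hp2 k ⟨t k + c, ⟨by linarith [hc.1], by linarith [hc.2]⟩,
        by linarith [not_le.1 hc']⟩)).trans (he' ε₀ h1)
  rw [zero_sub] at a1
  exact absurd h2.low_zero (not_le.2 a1)

theorem top_eq_iInter : {s : Sys | Rm s.2 = ⊤} = ⋂ M : ℕ, Prod.swap ⁻¹' big M := by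
  ext s
  simp only [mem_iInter, mem_preimage, big, mem_ofPred_eq, Prod.fst_swap]
  refine ⟨fun h M => h ▸ le_top, fun h => ENNReal.eq_top_of_forall_nnreal_le fun r => ?_⟩
  refine le_trans ?_ (h ⌈r⌉₊)
  rw [ex, ← ENNReal.ofReal_coe_nnreal]
  refine ENNReal.ofReal_le_ofReal ?_
  have h1 : (r : ℝ) ≤ (⌈r⌉₊ : ℕ) := by exact_mod_cast Nat.le_ceil r
  linarith [Real.add_one_le_exp ((⌈r⌉₊ : ℕ) : ℝ)]

theorem nn4_of (hν : IsCanon ν) (hAR : ARStmt ν) : ∃ e : ℝ, 0 < e ∧ ∀ ε₀, 0 < ε₀ → ε₀ ≤ e →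
    ∀ u v : ℝ → ℝ, Link ν ε₀ u v → NN4 u v := by
  obtain ⟨ε, hε, hAR⟩ := hAR
  obtain ⟨e, he, he'⟩ := exists_real_eps hε
  refine ⟨e, he, fun ε₀ h0 h1 u v hL B K hK => ?_⟩
  by_contra hn
  push Not at hn
  choose t ht hp1 hp2 using fun k : ℕ => hn k k k
  have ht' : Tendsto t atTop atTop := tendsto_atTop_mono ht tendsto_natCast_atTop_atTop
  obtain ⟨𝒰, R, hU, h2, h3⟩ := hL.regime ht'
  obtain ⟨C, hC, hsq⟩ := bet_sq hν K
  have hev : ∀ a : ℝ, ∀ᶠ k : ℕ in (𝒰 : Filter ℕ), a ≤ (k : ℝ) := fun a =>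
    hU (tendsto_natCast_atTop_atTop.eventually_ge_atTop a)
  have hp : 0 < ENNReal.ofReal (ε₀ / 2) := ENNReal.ofReal_pos.2 (half_pos h0)
  have key := hAR R B (ENNReal.ofReal (ε₀ / 2) ^ 2 / C)
    (ENNReal.div_pos (pow_ne_zero 2 hp.ne') hC) (fun c hc =>
      (h2.up_const c B ((hev (-c)).mono fun k hk => by
        have := hp1 k (t k + c) ⟨by linarith, by linarith⟩
        linarith)).trans (he' ε₀ h1)) fun c hc => by
    have hσ : ∀ k : ℕ, ∃ s ∈ Icc (t k + c - K) (t k + c), K - c ≤ k → (k : ℝ) < u (t k) + v s := by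
      intro k
      by_cases hk : K - c ≤ k
      · obtain ⟨s, hs, hs'⟩ := hp2 k (t k + c - K) (by linarith) (by linarith)
        exact ⟨s, ⟨hs.1, by linarith [hs.2]⟩, fun _ => hs'⟩
      · exact ⟨t k + c, ⟨by linarith, le_rfl⟩, fun h => absurd h hk⟩
    choose σ hσ1 hσ2 using hσ
    obtain ⟨c', hc', hlim⟩ := (isCompact_Icc (a := c - K) (b := c)).ultrafilter_le_nhds
      (𝒰.map fun k => σ k - t k) (by
        rw [Ultrafilter.coe_map, le_principal_iff, mem_map]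
        exact Eventually.of_forall fun k =>
          ⟨by linarith [(hσ1 k).1], by linarith [(hσ1 k).2]⟩)
    have m1 : ∀ M : ℕ, MeasurableSet[SS U0] (Prod.swap ⁻¹' big M) := fun M =>
      measurable_swap_SS U0 (measurableSet_big_U0 _)
    have m2 : ∀ M : ℕ, MeasurableSet (Prod.swap ⁻¹' big M) := fun M => SS_le _ _ (m1 M)
    have b1 : ∀ M : ℕ, ENNReal.ofReal (ε₀ / 2) ^ 2 / C ≤ R.bet c (Prod.swap ⁻¹' big M) := by
      intro M
      have b2 : _ ≤ R.bet c' (Prod.swap ⁻¹' big M) :=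
        h3.low σ c' M hlim (((hev (K - c)).and (hev M)).mono fun k hk => by
          linarith [hσ2 k hk.1, hk.2])
      have b3 := (hsq R _ c c' (abs_le.2 ⟨by linarith [hc'.1], by linarith [hc'.2]⟩)).2 (m1 M)
      exact ENNReal.div_le_of_le_mul' ((pow_le_pow_left' b2 2).trans b3)
    have := R.P_prob hν c
    rw [top_eq_iInter, R.bet_eq_P hν c (MeasurableSet.iInter m2)]
    have e1 : {ω : Dist × Sys | ω.2 ∈ ⋂ M : ℕ, Prod.swap ⁻¹' big M} =
        ⋂ M : ℕ, {ω : Dist × Sys | ω.2 ∈ Prod.swap ⁻¹' big M} := by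
      ext ω; simp only [mem_iInter, mem_ofPred_eq]
    have e2 : Antitone fun M : ℕ => {ω : Dist × Sys | ω.2 ∈ Prod.swap ⁻¹' big M} :=
      fun M M' hM ω hω => le_trans
        (ENNReal.ofReal_le_ofReal (Real.exp_le_exp.2 (by exact_mod_cast hM))) hω
    rw [e1, e2.measure_iInter
      (fun M => (measurable_snd (m2 M)).nullMeasurableSet) ⟨0, measure_ne_top _ _⟩]
    exact le_iInf fun M => (b1 M).trans (R.bet_eq_P hν c (m2 M)).le
  have a1 : R.bet 0 (big (-1)) = 0 := by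
    rw [R.bet_eq_nuc hν 0 (measurableSet_big _)]
    refine (lintegral_congr_ae (g := fun _ => 0) ((ae_nuc hν 0 key).mono fun k hk => ?_)).trans
      lintegral_zero
    refine measure_eq_zero_iff_ae_notMem.2 (hk.mono fun s hs h => ?_)
    exact absurd (hs ▸ h : ex (-1) ≤ 0) (not_le.2 (ex_pos _))
  exact absurd (a1 ▸ h2.low_zero) (not_le.2 hp)

/-- Assembly of the numerical facts. -/
theorem rsw_of (hν : IsCanon ν) (hAR : ARStmt ν) (h8 : N8Stmt) (h1 : B1St ν) (h4 : B4St ν)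
    (hc : ConeSt) : RSWStmt ν := by
  obtain ⟨e₁, p1, q1⟩ := nf1_of h1
  obtain ⟨e₄, p4, q4⟩ := nf4_of h4
  obtain ⟨e₅, p5, q5⟩ := nn4_of hν hAR
  intro ε hε
  have h0 : 0 < min (min ε (1 / 8)) (min e₁ (min e₄ e₅)) := by positivity
  have a1 := (min_le_right (min ε (1 / 8)) _).trans (min_le_left e₁ (min e₄ e₅))
  have a2 := (min_le_right (min ε (1 / 8)) _).trans (min_le_right e₁ (min e₄ e₅))
  have a4 := a2.trans (min_le_left _ _)
  have a5 := a2.trans (min_le_right _ _)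
  have a6 := min_le_left (min ε (1 / 8)) (min e₁ (min e₄ e₅))
  refine ⟨_, h0, a6.trans (min_le_left _ _), fun u v hL => hc u v hL.bdd
    (nf0_of hν h8 h0 (by linarith [min_le_right ε (1 / 8)]) hL) (q1 _ h0 a1 u v hL)
    (q1 _ h0 a1 v u hL.symm) (q4 _ h0 a4 u v hL) (q4 _ h0 a4 v u hL.symm) (q5 _ h0 a5 u v hL)
    (q5 _ h0 a5 v u hL.symm)⟩

end Pool.Agent.QL
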