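import Pool.Agent.P.MP_7a6434d8_pr.QL.Rsw.Defs

/-! Block RSW: elementary facts. -/

open MeasureTheory ProbabilityTheory Set Filter Topology Metric
open scoped ENNReal

namespace Pool.Agent.QL

open Pool.Agent.LGD

theorem rad_pos (i : ℕ) : 0 < rad i := by unfold rad; positivity

theorem rad_add (i n : ℕ) : rad (i + n) = rad i / 256 ^ n := by
  simp only [rad, pow_add, div_div, mul_assoc]

theorem rad_anti {i j : ℕ} (h : i ≤ j) : rad j ≤ rad i := by
  obtain ⟨n, rfl⟩ := Nat.exists_eq_add_of_le h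
  rw [rad_add]
  exact div_le_self (rad_pos i).le (one_le_pow₀ (by norm_num))

theorem rad_le (i : ℕ) : rad i ≤ 1 / 1024 := (rad_anti (Nat.zero_le i)).trans (by simp [rad])

theorem rad_sq_mul (i : ℕ) : rad i ^ 2 * 65536 ^ i ≤ 1 := by
  have h : (65536 : ℝ) ^ i = (256 ^ i) ^ 2 := by
    rw [← pow_mul, mul_comm, pow_mul]; norm_num
  have h2 : (256 : ℝ) ^ i ≠ 0 := by positivity
  rw [h, ← mul_pow, rad, div_mul_cancel₀ _ h2]
  norm_num

theorem log_rad (i : ℕ) : -Real.log (rad i) = (10 + 8 * i) * Real.log 2 := by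
  have e : rad i = (2 ^ (10 + 8 * i))⁻¹ := by
    rw [rad, pow_add, pow_mul, div_div, one_div]; norm_num
  rw [e, Real.log_inv, neg_neg, Real.log_pow]
  push_cast
  ring

theorem one_le_log_rad (i : ℕ) : 1 ≤ -Real.log (rad i) := by
  rw [log_rad]
  have := Real.log_two_gt_d9
  have h : (0 : ℝ) ≤ i := i.cast_nonneg
  nlinarith

theorem norm_le_of_Box {x : ℂ} (h : x ∈ Box) : ‖x‖ ≤ 37 / 10 := by
  obtain ⟨h1, h2, h3⟩ := h
  have h5 : ‖x‖ ^ 2 = x.re ^ 2 + x.im ^ 2 := by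
    rw [Complex.sq_norm, Complex.normSq_apply]; ring
  have h6 := abs_le.1 h1
  nlinarith [norm_nonneg x]

namespace Grid

variable (Γ : Grid)

theorem norm_a {i : ℕ} {F : Fr} (h : F ∈ Γ.D i) : ‖F.a‖ = rad i := by
  rw [Γ.a_eq i F h, Complex.norm_real, Real.norm_of_nonneg (rad_pos i).le]

theorem norm_z {i : ℕ} {F : Fr} (h : F ∈ Γ.D i) : ‖F.z‖ ≤ 37 / 10 :=
  norm_le_of_Box (Γ.z_mem i F h)

theorem mapsTo {i : ℕ} {F : Fr} (h : F ∈ Γ.D i) : MapsTo F.map U0 U0 := fun x hx => by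
  have h1 : ‖x‖ < 4 := by simpa [U0] using hx
  have h2 := norm_add_le (F.a * x) F.z
  rw [norm_mul, Γ.norm_a h] at h2
  have h3 := Γ.norm_z h
  have h4 := rad_le i
  have h5 := rad_pos i
  rw [U0, mem_ball_zero_iff, Fr.map_apply]
  nlinarith

theorem mem_nb {i : ℕ} {x : ℂ} {F : Fr} : F ∈ Γ.nb i x ↔ F ∈ Γ.D i ∧ ‖F.z - x‖ ≤ 8 * rad i :=
  Finset.mem_filter

theorem card_nb (i : ℕ) (x : ℂ) : (Γ.nb i x).card ≤ Γ.N := Γ.near i x

theorem ch_z_mem (i : ℕ) {x : ℂ} (h : x ∈ Box) : (Γ.ch i x).z ∈ Box :=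
  Γ.z_mem i _ (Γ.ch_mem i x h)

theorem mem_core_ch (i : ℕ) {x : ℂ} (h : x ∈ Box) : x ∈ (Γ.ch i x).core := by
  rw [Fr.mem_core, Γ.norm_a (Γ.ch_mem i x h), norm_sub_rev]
  linarith [Γ.ch_near i x, rad_pos i]

/-- A frame above `x` is near every smaller frame above `x`. -/
theorem ch_mem_nb {i j : ℕ} (hij : i ≤ j) {x : ℂ} (h : x ∈ Box) :
    Γ.ch i x ∈ Γ.nb i (Γ.ch j x).z := by
  refine Γ.mem_nb.2 ⟨Γ.ch_mem i x h, ?_⟩
  have h1 := Γ.ch_near i (Γ.ch j x).z
  rw [Γ.ch_ch i j x hij] at h1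
  linarith [rad_pos i]

theorem card_mul_le (i : ℕ) : ((Γ.D i).card : ℝ≥0∞) * ENNReal.ofReal (rad i ^ 2) ≤ Γ.N := by
  rw [← ENNReal.ofReal_natCast, ← ENNReal.ofReal_mul (Nat.cast_nonneg _), ← ENNReal.ofReal_natCast]
  refine ENNReal.ofReal_le_ofReal ?_
  have h1 : ((Γ.D i).card : ℝ) ≤ Γ.N * 65536 ^ i := by exact_mod_cast Γ.card i
  calc _ ≤ (Γ.N * 65536 ^ i) * rad i ^ 2 := by gcongr
    _ = Γ.N * (rad i ^ 2 * 65536 ^ i) := by ring
    _ ≤ Γ.N * 1 := by gcongr; exact rad_sq_mul i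
    _ = _ := mul_one _

theorem card_le (i : ℕ) : ((Γ.D i).card : ℝ≥0∞) ≤ Γ.N * 65536 ^ i := by exact_mod_cast Γ.card i

end Grid

theorem measurableSet_bad_SS (x : ℝ) : MeasurableSet[SS Tp.1] (bad x) :=
  measurable_Rp_SS measurableSet_Ioi

theorem measurableSet_big_SS (x : ℝ) : MeasurableSet[SS Tn.1] (big x) :=
  measurable_Rm_SS measurableSet_Ici

theorem measurableSet_bad (x : ℝ) : MeasurableSet (bad x) := SS_le _ _ (measurableSet_bad_SS x)

theorem measurableSet_big (x : ℝ) : MeasurableSet (big x) := SS_le _ _ (measurableSet_big_SS x)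

theorem measurableSet_bad_U0 (x : ℝ) : MeasurableSet[SS U0] (bad x) :=
  SS_mono nice_Tp.2.2 _ (measurableSet_bad_SS x)

theorem measurableSet_big_U0 (x : ℝ) : MeasurableSet[SS U0] (big x) :=
  SS_mono (Tn_subset.trans nice_Tp.2.2) _ (measurableSet_big_SS x)

theorem measurableSet_MainEv {W : Set ℝ} (hW : MeasurableSet W) (x : ℝ) (F : Fr) :
    MeasurableSet (MainEv W x F) :=
  (((measurable_Phi F).comp measurable_fst) hW).inter
    (measurableSet_le ((measurable_Loop F).comp measurable_snd) measurable_const)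

namespace Grid

variable (Γ : Grid)

theorem measurableSet_Exc (L : ℕ) {W : Set ℝ} (hW : MeasurableSet W) (x : ℝ) (z : ℂ) :
    MeasurableSet (Γ.Exc L W x z) := by
  have e : Γ.Exc L W x z = ⋂ (i : ℕ) (_ : i ≤ L), (MainEv W x (Γ.ch i z))ᶜ := by
    ext ω; simp [Exc]
  rw [e]
  exact MeasurableSet.iInter fun i => MeasurableSet.iInter fun _ =>
    (measurableSet_MainEv hW x _).compl

theorem measurableSet_BadCh (L n : ℕ) (x : ℝ) (z : ℂ) : MeasurableSet (Γ.BadCh L n x z) := by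
  have e : Γ.BadCh L n x z = ⋂ (j : ℕ) (_ : j < n), {s | ex x < Loop (Γ.ch (L + 1 + j) z) s} := by
    ext ω; simp [BadCh]
  rw [e]
  exact MeasurableSet.iInter fun i => MeasurableSet.iInter fun _ =>
    measurableSet_lt measurable_const (measurable_Loop _)

theorem measurableSet_InR (L : ℕ) (lo hi : ℝ) : MeasurableSet (Γ.InR L lo hi) := by
  have e : Γ.InR L lo hi =
      ⋂ (n : ℕ) (_ : n < L), ⋂ F ∈ Γ.D (L + 1 + n), Phi F ⁻¹' Icc lo hi := by
    ext ω; simp only [InR, mem_iInter, mem_preimage, mem_ofPred_eq]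
  rw [e]
  exact MeasurableSet.iInter fun i => MeasurableSet.iInter fun _ =>
    Finset.measurableSet_biInter _ fun F _ => measurable_Phi F measurableSet_Icc

theorem measurableSet_Cover (L : ℕ) (x : ℝ) : MeasurableSet (Γ.Cover L x) := by
  have e : Γ.Cover L x = ⋂ T ∈ Γ.D (2 * L), (Γ.BadCh L L x T.z)ᶜ := by
    ext ω; simp only [Cover, mem_iInter, mem_compl_iff, mem_ofPred_eq]
  rw [e]
  exact Finset.measurableSet_biInter _ fun F _ => (Γ.measurableSet_BadCh _ _ _ _).compl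

theorem measurable_costM (L : ℕ) {W : Set ℝ} (hW : MeasurableSet W) :
    Measurable (Γ.costM L W) := by
  refine Finset.measurable_sum _ fun i _ => Finset.measurable_sum _ fun F _ =>
    Finset.measurable_sum _ fun i' _ => Finset.measurable_sum _ fun F' _ => ?_
  exact measurable_const.indicator ((measurable_Phi F hW).inter (measurable_Phi F' hW))

theorem measurable_costE (L : ℕ) {W : Set ℝ} (hW : MeasurableSet W) (x x' : ℝ) :
    Measurable (Γ.costE L W x x') := by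
  refine Finset.measurable_sum _ fun n _ => Finset.measurable_sum _ fun F _ => ?_
  exact measurable_const.indicator ((Γ.measurableSet_Exc L hW x _).inter
    (measurable_snd (Γ.measurableSet_BadCh _ _ _ _)))

/-- The levels along a chain lie in a window. -/
theorem measurableSet_lvCh (i J : ℕ) (z : ℂ) (lo hi : ℝ) :
    MeasurableSet {h : Dist | ∀ j < J, Phi (Γ.ch (i + 1 + j) z) h ∈ Icc lo hi} := by
  have e : {h : Dist | ∀ j < J, Phi (Γ.ch (i + 1 + j) z) h ∈ Icc lo hi} =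
      ⋂ (j : ℕ) (_ : j < J), Phi (Γ.ch (i + 1 + j) z) ⁻¹' Icc lo hi := by
    ext ω; simp only [mem_iInter, mem_preimage, mem_ofPred_eq]
  rw [e]
  exact MeasurableSet.iInter fun i => MeasurableSet.iInter fun _ =>
    measurable_Phi _ measurableSet_Icc

end Grid

section Nuc

variable {ν : Measure Dist}

theorem measurable_nucMap (c : ℝ) : Measurable fun p : ℝ × Dist => lev p.2 (c + p.1) :=
  measurable_lev.comp (measurable_snd.prodMk (measurable_fst.const_add c))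

instance unit_prob : IsProbabilityMeasure (volume.restrict (Icc (0 : ℝ) 1)) := ⟨by simp⟩

theorem nuc_prob (hν : IsCanon ν) (c : ℝ) : IsProbabilityMeasure (nuc ν c) := by
  have := hν.prob
  exact Measure.isProbabilityMeasure_map (measurable_nucMap c).aemeasurable

theorem lintegral_nuc (hν : IsCanon ν) (c : ℝ) {H : Dist → ℝ≥0∞} (hH : Measurable H) :
    ∫⁻ h, H h ∂nuc ν c = ∫⁻ s in Icc (0 : ℝ) 1, ∫⁻ k, H (lev k (c + s)) ∂ν := by
  have := hν.prob
  rw [nuc, lintegral_map hH (measurable_nucMap c)]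
  exact lintegral_prod _ (hH.comp (measurable_nucMap c)).aemeasurable

theorem nuc_apply (hν : IsCanon ν) (c : ℝ) {A : Set Dist} (hA : MeasurableSet A) :
    nuc ν c A = ∫⁻ s in Icc (0 : ℝ) 1, ν {k | lev k (c + s) ∈ A} := by
  have := hν.prob
  rw [nuc, Measure.map_apply (measurable_nucMap c) hA,
    Measure.prod_apply (measurable_nucMap c hA)]
  rfl

/-- A bound valid at every level in `[c, c + 1]`. -/
theorem nuc_le (hν : IsCanon ν) (c : ℝ) {A : Set Dist} (hA : MeasurableSet A) {b : ℝ≥0∞}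
    (h : ∀ t ∈ Icc c (c + 1), ν {k | lev k t ∈ A} ≤ b) : nuc ν c A ≤ b := by
  rw [nuc_apply hν c hA]
  calc _ ≤ ∫⁻ _ in Icc (0 : ℝ) 1, b :=
        setLIntegral_mono' measurableSet_Icc fun s hs => h _ ⟨by linarith [hs.1], by linarith [hs.2]⟩
    _ = b := by simp

theorem nuc_ac (hν : IsCanon ν) (c : ℝ) : nuc ν c ≪ nuh ν := by
  refine Measure.AbsolutelyContinuous.mk fun N hN h0 => ?_
  rw [nuc_apply hν c hN]
  have h1 := ae_shift (ae_nuh_tk hν (p := fun k => k ∉ N) (measure_eq_zero_iff_ae_notMem.1 h0)) c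
  refine (lintegral_congr_ae (g := fun _ => 0) (ae_restrict_of_ae (h1.mono fun s hs => ?_))).trans
    lintegral_zero
  rw [add_comm] at hs
  exact measure_eq_zero_iff_ae_notMem.2 hs

theorem ae_nuc (hν : IsCanon ν) (c : ℝ) {p : Dist → Prop} (h : ∀ᵐ k ∂nuh ν, p k) :
    ∀ᵐ k ∂nuc ν c, p k := (nuc_ac hν c).ae_le h

/-- Rotation invariance at a fixed level. -/
theorem lintegral_rot (hν : IsCanon ν) (j : ℕ) (t : ℝ) {G : Dist → ℝ≥0∞} (hG : Measurable G) :
    ∫⁻ k, G (absF (rotF j) (lev k t)) ∂ν = ∫⁻ k, G (lev k t) ∂ν := by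
  have h1 : ∀ᵐ k ∂ν, absF (rotF j) (lev k t) = lev (Tm 0 (rotF j).a k) t := by
    filter_upwards [hν.X_one] with k hk
    rw [absF_lev, Phi, norm_rotF_a, Real.log_one, mul_zero, add_zero, rotF_z,
      Xm_congr (b := 1) (by rw [norm_rotF_a, norm_one]), hk, add_zero]
  rw [lintegral_congr_ae (h1.mono fun k hk => congrArg G hk)]
  exact (hν.Tm_mp (rotF j).a_ne 0).lintegral_comp (hG.comp (measurable_lev_const t))

theorem lintegral_nuc_rot (hν : IsCanon ν) (j : ℕ) (c : ℝ) {G : Dist → ℝ≥0∞}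
    (hG : Measurable G) : ∫⁻ h, G (absF (rotF j) h) ∂nuc ν c = ∫⁻ h, G h ∂nuc ν c := by
  rw [lintegral_nuc hν c (H := fun h => G (absF (rotF j) h)) (hG.comp (measurable_absF _)),
    lintegral_nuc hν c hG]
  exact lintegral_congr fun s => lintegral_rot hν j _ hG

namespace Regime

instance (R : Regime ν) : IsMarkovKernel R.K := R.markov

theorem P_prob (hν : IsCanon ν) (R : Regime ν) (c : ℝ) : IsProbabilityMeasure (R.P c) := by
  have := nuc_prob hν c
  unfold P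
  infer_instance

theorem P_apply (hν : IsCanon ν) (R : Regime ν) (c : ℝ) {S : Set (Dist × Sys)}
    (hS : MeasurableSet S) : R.P c S = ∫⁻ h, R.K h (Prod.mk h ⁻¹' S) ∂nuc ν c := by
  have := nuc_prob hν c
  exact Measure.compProd_apply hS

theorem P_fst (hν : IsCanon ν) (R : Regime ν) (c : ℝ) {A : Set Dist} (hA : MeasurableSet A) :
    R.P c {ω | ω.1 ∈ A} = nuc ν c A := by
  have := nuc_prob hν c
  have h := Measure.fst_compProd (nuc ν c) R.K
  rw [← h, Measure.fst_apply hA]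
  rfl

theorem lintegral_P_fst (hν : IsCanon ν) (R : Regime ν) (c : ℝ) {H : Dist → ℝ≥0∞}
    (hH : Measurable H) : ∫⁻ ω, H ω.1 ∂(R.P c) = ∫⁻ h, H h ∂nuc ν c := by
  have := nuc_prob hν c
  have h := Measure.fst_compProd (nuc ν c) R.K
  rw [← h, Measure.fst, lintegral_map hH measurable_fst]
  rfl

theorem bet_eq_nuc (hν : IsCanon ν) (R : Regime ν) (c : ℝ) {E : Set Sys} (hE : MeasurableSet E) :
    R.bet c E = ∫⁻ h, R.K h E ∂nuc ν c :=
  (lintegral_nuc hν c (R.K.measurable_coe hE)).symm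

theorem bet_eq_P (hν : IsCanon ν) (R : Regime ν) (c : ℝ) {E : Set Sys} (hE : MeasurableSet E) :
    R.bet c E = R.P c {ω | ω.2 ∈ E} := by
  rw [R.bet_eq_nuc hν c hE]
  exact (R.P_apply hν c (measurable_snd hE)).symm

/-- A measurable event that contains all realised systems is almost sure. -/
theorem ae_real (hν : IsCanon ν) (R : Regime ν) (c : ℝ) {S : Set (Dist × Sys)}
    (hS : MeasurableSet S) (h : ∀ ω : Dist × Sys, Realized ω.2 → ω ∈ S) :
    ∀ᵐ ω ∂(R.P c), ω ∈ S := by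
  have := nuc_prob hν c
  refine (Measure.ae_compProd_iff hS).2 ?_
  filter_upwards [ae_nuc hν c R.real] with k hk
  filter_upwards [hk] with s hs
  exact h (k, s) hs

/-- Inclusion on realised systems. -/
theorem P_mono_real (hν : IsCanon ν) (R : Regime ν) (c : ℝ) {S T : Set (Dist × Sys)}
    (hS : MeasurableSet S) (hT : MeasurableSet T)
    (h : ∀ ω : Dist × Sys, Realized ω.2 → ω ∈ S → ω ∈ T) : R.P c S ≤ R.P c T := by
  refine measure_mono_ae ?_
  filter_upwards [R.ae_real hν c (hS.compl.union hT) fun ω hω =>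
    (em (ω ∈ S)).elim (fun h1 => Or.inr (h ω hω h1)) Or.inl] with ω hω h1
  exact hω.resolve_left fun h2 => h2 h1

theorem Ok.mono {R : Regime ν} {ε ε' : ℝ≥0∞} {x lo hi lo' hi' : ℝ} (h : R.Ok ε x lo hi)
    (h0 : ε ≤ ε') (h1 : lo ≤ lo') (h2 : hi' ≤ hi) : R.Ok ε' x lo' hi' :=
  fun c hc => (h c ⟨h1.trans hc.1, hc.2.trans h2⟩).trans h0

end Regime

/-- Chains of bad frames, summed over the level of the top frame. -/
theorem Tools.chain_sum {Γ : Grid} (T : Tools ν Γ) {ε' : ℝ≥0∞} (hε' : 0 < ε') :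
    ∃ ε : ℝ≥0∞, 0 < ε ∧ ∀ (R : Regime ν) (x c lo hi : ℝ) (i J : ℕ) (z : ℂ), z ∈ Box →
      R.Ok ε x (lo - 3) (hi + 3) →
      R.P c {ω | (∀ j < J, Phi (Γ.ch (i + 1 + j) z) ω.1 ∈ Icc lo hi) ∧ ω.2 ∈ Γ.BadCh i J x z} ≤
        T.Cg * ε' ^ J := by
  obtain ⟨ε, h0, h⟩ := T.chain ε' hε'
  refine ⟨ε, h0, fun R x c lo hi i J z hz hok => ?_⟩
  calc _ ≤ R.P c (⋃ n : ℤ, {ω | Phi (Γ.ch i z) ω.1 ∈ Icc (n : ℝ) (n + 1) ∧
        (∀ j < J, Phi (Γ.ch (i + 1 + j) z) ω.1 ∈ Icc lo hi) ∧ ω.2 ∈ Γ.BadCh i J x z}) :=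
        measure_mono fun ω hω => mem_iUnion.2 ⟨⌊Phi (Γ.ch i z) ω.1⌋,
          ⟨Int.floor_le _, (Int.lt_floor_add_one _).le⟩, hω⟩
    _ ≤ ∑' n : ℤ, T.g i (n - c) * ε' ^ J :=
        (measure_iUnion_le _).trans (ENNReal.tsum_le_tsum fun n => h R x c n lo hi i J z hz hok)
    _ ≤ _ := by
        rw [ENNReal.tsum_mul_right]
        gcongr
        simpa only [neg_add_eq_sub] using T.sumZ i (-c)

end Nuc

end Pool.Agent.QL
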