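import Pool.Agent.P.MP_7a6434d8_pr.QL.Frames
import Pool.Agent.P.MP_7a6434d8_pr.QL.GT.LT0

/-! Block RSW: definitions and the statements of the steps. -/

open MeasureTheory ProbabilityTheory Set Filter Topology Metric
open scoped ENNReal

namespace Pool.Agent.QL

open Pool.Agent.LGD

/-- The radius of the frames of depth `i`. -/
noncomputable def rad (i : ℕ) : ℝ := 1 / 1024 / 256 ^ i

/-- The box containing the centres of the frames. -/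
def Box : Set ℂ := {x | |x.re| ≤ 11 / 4 ∧ 17 / 8 ≤ x.im ∧ x.im ≤ 19 / 8}

/-- A nested family of grids of frames. -/
structure Grid where
  D : ℕ → Finset Fr
  ch : ℕ → ℂ → Fr
  N : ℕ
  a_eq : ∀ i, ∀ F ∈ D i, F.a = (rad i : ℝ)
  z_mem : ∀ i, ∀ F ∈ D i, F.z ∈ Box
  card : ∀ i, (D i).card ≤ N * 65536 ^ i
  ch_mem : ∀ i, ∀ x ∈ Box, ch i x ∈ D i
  ch_near : ∀ i x, ‖(ch i x).z - x‖ ≤ rad i / 4
  ch_ch : ∀ i j x, i ≤ j → ch i (ch j x).z = ch i x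
  near : ∀ i (x : ℂ), ((D i).filter fun F => ‖F.z - x‖ ≤ 8 * rad i).card ≤ N

/-- Law of the field at a level uniform in `[c, c + 1]`. -/
noncomputable def nuc (ν : Measure Dist) (c : ℝ) : Measure Dist :=
  ((volume.restrict (Icc (0 : ℝ) 1)).prod ν).map fun p => lev p.2 (c + p.1)

/-- Envelope of the probability that a frame of depth `i` has relative level in `[u, u + 1]`. -/
noncomputable def env (C c : ℝ) (i : ℕ) (u : ℝ) : ℝ≥0∞ :=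
  ∫⁻ s in Icc (0 : ℝ) 1, gw C c (-Real.log (rad i)) (u - s - QQ * Real.log (rad i))

/-- Joint law of the field, at a level uniform in `[c, c + 1]`, and the system. -/
noncomputable def Regime.P {ν : Measure Dist} (R : Regime ν) (c : ℝ) : Measure (Dist × Sys) :=
  nuc ν c ⊗ₘ R.K

/-- The larger bar has a large resistance. -/
def bad (x : ℝ) : Set Sys := {s | ex x < Rp s.1}

/-- The smaller bar has a large resistance. -/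
def big (x : ℝ) : Set Sys := {s | ex x ≤ Rm s.1}

/-- Large resistances are unlikely at the levels in `[lo, hi]`. -/
def Regime.Ok {ν : Measure Dist} (R : Regime ν) (ε : ℝ≥0∞) (x lo hi : ℝ) : Prop :=
  ∀ c ∈ Icc lo hi, R.bet c (bad x) ≤ ε

/-- A good frame with level in `W`. -/
def MainEv (W : Set ℝ) (x : ℝ) (F : Fr) : Set (Dist × Sys) :=
  {ω | Phi F ω.1 ∈ W ∧ Loop F ω.2 ≤ ex x}

namespace Grid

variable (Γ : Grid)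

/-- The frames of depth `i` near `x`. -/
noncomputable def nb (i : ℕ) (x : ℂ) : Finset Fr := (Γ.D i).filter fun F => ‖F.z - x‖ ≤ 8 * rad i

/-- No frame of depth at most `L` above `z` is good with level in `W`. -/
def Exc (L : ℕ) (W : Set ℝ) (x : ℝ) (z : ℂ) : Set (Dist × Sys) :=
  {ω | ∀ i ≤ L, ω ∉ MainEv W x (Γ.ch i z)}

/-- The `n` frames above `z` of depths `L + 1, …, L + n` are bad. -/
def BadCh (L n : ℕ) (x : ℝ) (z : ℂ) : Set Sys := {s | ∀ j < n, ex x < Loop (Γ.ch (L + 1 + j) z) s}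

/-- The frames of depths `L + 1, …, 2 L` have levels in `[lo, hi]`. -/
def InR (L : ℕ) (lo hi : ℝ) : Set Dist :=
  {h | ∀ n < L, ∀ F ∈ Γ.D (L + 1 + n), Phi F h ∈ Icc lo hi}

/-- Every tile of depth `2 L` has a good frame of depth in `L + 1, …, 2 L` above it. -/
def Cover (L : ℕ) (x : ℝ) : Set Sys := {s | ∀ T ∈ Γ.D (2 * L), s ∉ Γ.BadCh L L x T.z}

/-- Cost of the main family. -/
noncomputable def costM (L : ℕ) (W : Set ℝ) (h : Dist) : ℝ≥0∞ :=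
  ∑ i ∈ Finset.range (L + 1), ∑ F ∈ Γ.D i, ∑ i' ∈ Finset.range (i + 1), ∑ F' ∈ Γ.nb i' F.z,
    {h | Phi F h ∈ W ∧ Phi F' h ∈ W}.indicator
      (fun _ => ENNReal.ofReal (rad i ^ 2 * 2 ^ (i - i'))) h

/-- Cost of the exceptional family. -/
noncomputable def costE (L : ℕ) (W : Set ℝ) (x x' : ℝ) (ω : Dist × Sys) : ℝ≥0∞ :=
  ∑ n ∈ Finset.range L, ∑ F ∈ Γ.D (L + 1 + n),
    (Γ.Exc L W x F.z ∩ {ω | ω.2 ∈ Γ.BadCh L n x' F.z}).indicator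
      (fun _ => ENNReal.ofReal (rad (L + 1 + n) ^ 2 * 2 ^ n)) ω

end Grid

/-- Chains of bad frames. -/
def ChainSt (ν : Measure Dist) (Γ : Grid) (g : ℕ → ℝ → ℝ≥0∞) : Prop :=
  ∀ ε' : ℝ≥0∞, 0 < ε' → ∃ ε : ℝ≥0∞, 0 < ε ∧ ∀ (R : Regime ν) (x c y lo hi : ℝ) (i J : ℕ) (z : ℂ),
    z ∈ Box → R.Ok ε x (lo - 3) (hi + 3) →
    R.P c {ω | Phi (Γ.ch i z) ω.1 ∈ Icc y (y + 1) ∧
      (∀ j < J, Phi (Γ.ch (i + 1 + j) z) ω.1 ∈ Icc lo hi) ∧ ω.2 ∈ Γ.BadCh i J x z} ≤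
      g i (y - c) * ε' ^ J

/-- Frames of very different depths have different levels. -/
def PairSt (ν : Measure Dist) (Γ : Grid) (g : ℕ → ℝ → ℝ≥0∞) : Prop :=
  ∀ K : ℝ, ∃ C : ℝ≥0∞, C ≠ ⊤ ∧ ∀ (c y : ℝ) (i n : ℕ), ∀ F ∈ Γ.D (i + n), ∀ F' ∈ Γ.nb i F.z,
    nuc ν c {h | Phi F' h ∈ Icc y (y + 1) ∧ |Phi F h - Phi F' h| ≤ K} ≤ g i (y - c) * (C * 4⁻¹ ^ n)

/-- Frames of comparable depths have comparable levels. -/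
def TailSt (ν : Measure Dist) (Γ : Grid) (g : ℕ → ℝ → ℝ≥0∞) : Prop :=
  ∀ J : ℕ, ∃ C : ℝ≥0∞, C ≠ ⊤ ∧ ∀ (c y : ℝ) (i n m : ℕ), n ≤ J → ∀ F ∈ Γ.D (i + n),
    ∀ F' ∈ Γ.nb i F.z,
    nuc ν c {h | Phi F' h ∈ Icc y (y + 1) ∧ (m : ℝ) ≤ |Phi F h - Phi F' h|} ≤
      g i (y - c) * (C * 2⁻¹ ^ m)

/-- The range of the levels at depth `i`. -/
def RangeSt (ν : Measure Dist) (Γ : Grid) (a b : ℝ) : Prop :=
  ∃ C ρ : ℝ≥0∞, C ≠ ⊤ ∧ ρ < 1 ∧ ∀ (c : ℝ) (i : ℕ), ∀ F ∈ Γ.D i,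
    65536 ^ i * nuc ν c {h | Phi F h ∉ Icc (c - b * (i + 1)) (c + 1 - a * i)} ≤ C * ρ ^ i

/-- The levels at depth zero are tight. -/
def StartSt (ν : Measure Dist) (Γ : Grid) : Prop :=
  ∀ η : ℝ≥0∞, 0 < η → ∃ d₀ : ℝ, ∀ c : ℝ, ∀ F ∈ Γ.D 0, nuc ν c {h | Phi F h < c - d₀} ≤ η

/-- The Gaussian input. -/
structure Tools (ν : Measure Dist) (Γ : Grid) where
  g : ℕ → ℝ → ℝ≥0∞
  Cg : ℝ≥0∞
  a : ℝ
  b : ℝ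
  Cg_ne : Cg ≠ ⊤
  a_pos : 0 < a
  b_pos : 0 < b
  sumZ : ∀ i u, ∑' n : ℤ, g i (u + n) ≤ Cg
  sumN : ∀ u, ∑' i, g i u ≤ Cg
  chain : ChainSt ν Γ g
  pair : PairSt ν Γ g
  tail : TailSt ν Γ g
  range : RangeSt ν Γ a b
  start : StartSt ν Γ

/-- The deterministic bound. -/
def DetSt (Γ : Grid) : Prop :=
  ∃ C : ℝ≥0∞, C ≠ ⊤ ∧ ∀ (L : ℕ) (W : Set ℝ) (x x' : ℝ) (ω : Dist × Sys), Realized ω.2 →
    ω.2 ∈ Γ.Cover L x' →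
    Rm ω.2.1 ≤ C * (ex x * Γ.costM L W ω.1 + ex x' * Γ.costE L W x x' ω)

/-- Mean cost of the main family. -/
def MainSt (ν : Measure Dist) (Γ : Grid) : Prop :=
  ∀ K : ℕ, ∃ m : ℝ≥0∞, m ≠ ⊤ ∧ ∀ (c α : ℝ) (L : ℕ),
    ∫⁻ h, Γ.costM L (Icc (α - K) (α + K)) h ∂nuc ν c ≤ m

/-- Exceptional points are unlikely. -/
def ExcSt (ν : Measure Dist) (Γ : Grid) (a : ℝ) : Prop :=
  ∃ ε : ℝ≥0∞, 0 < ε ∧ ∀ δ : ℝ≥0∞, 0 < δ → ∃ (K J : ℕ) (d₀ : ℝ), ∀ (R : Regime ν) (c x d : ℝ)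
    (L : ℕ) (z : ℂ), d₀ ≤ d → d + 2 + a * J ≤ a * L → z ∈ Box →
    R.Ok ε x (c - d - K - 3) (c - d + K + 3) →
    R.P c (Γ.Exc L (Icc (c - d - K) (c - d + K)) x z) ≤ δ

/-- Range and cover. -/
def RCSt (ν : Measure Dist) (Γ : Grid) (a b : ℝ) : Prop :=
  ∃ ε : ℝ≥0∞, 0 < ε ∧ ∀ η : ℝ≥0∞, 0 < η → ∃ L₀ : ℕ, ∀ (L : ℕ) (R : Regime ν) (c x : ℝ), L₀ ≤ L →
    R.Ok ε x (c - b * (2 * L + 1) - 3) (c + 1 - a * L + 3) →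
    R.P c {ω | ω.1 ∈ Γ.InR L (c - b * (2 * L + 1)) (c + 1 - a * L) ∧ ω.2 ∈ Γ.Cover L x}ᶜ ≤ η

/-- Mean cost of the exceptional family. -/
def CostESt (ν : Measure Dist) (Γ : Grid) : Prop :=
  ∃ ε C : ℝ≥0∞, 0 < ε ∧ C ≠ ⊤ ∧ ∀ (L : ℕ) (R : Regime ν) (c : ℝ) (W : Set ℝ) (x x' lo hi : ℝ)
    (n₀ : ℕ) (δ : ℝ≥0∞), MeasurableSet W → R.Ok ε x' (lo - 3) (hi + 3) →
    (∀ z ∈ Box, R.P c (Γ.Exc L W x z) ≤ δ) →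
    ∫⁻ ω in {ω | ω.1 ∈ Γ.InR L lo hi}, Γ.costE L W x x' ω ∂(R.P c) ≤ C * (2 ^ n₀ * δ + 2⁻¹ ^ n₀)

/-- The general boost. -/
def BoostSt (ν : Measure Dist) (Γ : Grid) (a b : ℝ) : Prop :=
  ∃ ε C : ℝ≥0∞, 0 < ε ∧ C ≠ ⊤ ∧ ∀ η : ℝ≥0∞, 0 < η → ∃ L₀ : ℕ, ∀ (L : ℕ) (R : Regime ν) (c : ℝ)
    (W : Set ℝ) (x x' θ : ℝ) (n₀ : ℕ) (δ m : ℝ≥0∞), L₀ ≤ L → MeasurableSet W →
    R.Ok ε x' (c - b * (2 * L + 1) - 3) (c + 1 - a * L + 3) →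
    (∀ z ∈ Box, R.P c (Γ.Exc L W x z) ≤ δ) → ∫⁻ h, Γ.costM L W h ∂nuc ν c ≤ m →
    R.bet c (big θ) ≤ η + C * (ex (x - θ) * m + ex (x' - θ) * (2 ^ n₀ * δ + 2⁻¹ ^ n₀))

/-- Boost from a long window of lower levels. -/
def B1St (ν : Measure Dist) : Prop :=
  ∃ (ε : ℝ≥0∞) (β : ℝ), 0 < ε ∧ 1 ≤ β ∧ ∀ ε₀ : ℝ≥0∞, 0 < ε₀ → ∃ A l₀ : ℝ,
    ∀ (R : Regime ν) (c x l : ℝ), l₀ ≤ l → R.Ok ε x (c - β * l) (c - l) →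
    R.bet c (big (x + A)) < ε₀

/-- Boost from a short window of lower levels. -/
def B4St (ν : Measure Dist) : Prop :=
  ∃ (ε : ℝ≥0∞) (c₁ : ℝ), 0 < ε ∧ 0 < c₁ ∧ ∀ ε₀ : ℝ≥0∞, 0 < ε₀ → ∀ C₃ : ℝ, ∃ A K d₀ : ℝ,
    ∀ (R : Regime ν) (c x d : ℝ), d₀ ≤ d → R.Ok ε (x + C₃) (c - c₁ * d) c →
    R.Ok ε (x - A) (c - d - K) (c - d + K) → R.bet c (big (x - 1)) < ε₀

/-- Lower bound for the sum. -/
def NF0 (u v : ℝ → ℝ) : Prop := ∀ᶠ t in atTop, -1 ≤ u t + v t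

/-- Bounded growth over long windows. -/
def NF1 (u : ℝ → ℝ) : Prop :=
  ∃ A β l₀ : ℝ, 1 ≤ β ∧ ∀ l, l₀ ≤ l → ∀ᶠ t in atTop,
    ∃ s ∈ Icc (t - β * l) (t - l), u t ≤ u s + A

/-- Below a near maximum the high points are dense. -/
def NF4 (u : ℝ → ℝ) : Prop :=
  ∃ c₁ : ℝ, 0 < c₁ ∧ ∀ C₃ : ℝ, ∃ A K d₀ : ℝ, ∀ d, d₀ ≤ d → ∀ᶠ t in atTop,
    (∀ s ∈ Icc (t - c₁ * d) t, u s ≤ u t + C₃) →
    ∃ s ∈ Icc (t - d - K) (t - d + K), u t ≤ u s + A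

/-- Below a near maximum of `u` there is a window where `v` is not large. -/
def NN4 (u v : ℝ → ℝ) : Prop :=
  ∀ B K : ℝ, 0 ≤ K → ∃ m M T : ℝ, ∀ t, T ≤ t → (∀ s ∈ Icc (t - m) t, u s ≤ u t + B) →
    ∃ s₀, t - m ≤ s₀ ∧ s₀ + K ≤ t ∧ ∀ s ∈ Icc s₀ (s₀ + K), u t + v s ≤ M

/-- The cone lemma. -/
def ConeSt : Prop :=
  ∀ u v : ℝ → ℝ, (∀ T : ℝ, ∃ B : ℝ, ∀ t, |t| ≤ T → |u t| ≤ B ∧ |v t| ≤ B) → NF0 u v → NF1 u →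
    NF1 v → NF4 u → NF4 v → NN4 u v → NN4 v u → Flat u v

end Pool.Agent.QL
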