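import Pool.Agent.P.MP_7a6434d8_pr.QL.Rsw.Base
import Pool.Agent.P.MP_7a6434d8_pr.QL.GT.LTail

/-! Block RSW: the local limit bounds with common constants. -/

open MeasureTheory ProbabilityTheory Set Filter Topology Metric
open scoped ENNReal

namespace Pool.Agent.QL

open Pool.Agent.LGD

/-- The local limit bound with given constants. -/
def LT0At (ν : Measure Dist) (C c : ℝ) : Prop :=
  ∀ z a : ℂ, ‖z‖ ≤ 4 → a ≠ 0 → ‖a‖ ≤ 1 / 100 → ∀ H : Dist → ℝ≥0∞,
    Measurable[G0 (ball z (16 * ‖a‖))] H → ∀ b : ℝ≥0∞, ∫⁻ k, H k ^ 2 ∂ν ≤ b ^ 2 → ∀ y : ℝ,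
    ∫⁻ k in {k | Xm z a k ∈ Icc y (y + 1)}, H k ∂ν ≤ gw C c (-Real.log ‖a‖) y * b

/-- The chain bound with given constants. -/
def LTailAt (ν : Measure Dist) (C c : ℝ) : Prop :=
  ∀ ε' : ℝ≥0∞, 0 < ε' → ∃ ε : ℝ≥0∞, 0 < ε ∧ ∀ (J : ℕ) (F : ℕ → Fr) (G : ℕ → Dist → ℝ≥0∞) (z : ℂ)
    (r lo hi t y : ℝ), IsChainG ν ε J F G z r lo hi →
    ∫⁻ k in {k | t + Phi (F 0) k ∈ Icc y (y + 1)},
        ∏ j ∈ Finset.range J, lfac (F (j + 1)) (G (j + 1)) lo hi t k ∂ν ≤
      gw C c (-Real.log r) (y - t - QQ * Real.log r) * ε' ^ J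

theorem gw_mono {C C' c c' L : ℝ} (h0 : 0 ≤ C) (hC : C ≤ C') (hc : c' ≤ c) (hL : 0 ≤ L) (y : ℝ) :
    gw C c L y ≤ gw C' c' L y := by
  refine ENNReal.ofReal_le_ofReal ?_
  have : 0 ≤ C' := h0.trans hC
  gcongr

theorem measurable_gw (C c L : ℝ) : Measurable (gw C c L) := by
  unfold gw; fun_prop

variable {ν : Measure Dist}

theorem exists_consts (hν : IsCanon ν) :
    ∃ C c : ℝ, 0 < C ∧ 0 < c ∧ LT0At ν C c ∧ LTailAt ν C c := by
  obtain ⟨C₁, c₁, h1, h2, h3⟩ := lt0 hν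
  obtain ⟨C₂, c₂, h4, h5, h6⟩ := ltail hν
  refine ⟨max C₁ C₂, min c₁ c₂, lt_max_of_lt_left h1, lt_min h2 h5,
    fun z a hz ha ha' H hH b hb y => (h3 z a hz ha ha' H hH b hb y).trans ?_, fun ε' hε' => ?_⟩
  · gcongr
    exact gw_mono h1.le (le_max_left _ _) (min_le_left _ _)
      (neg_nonneg.2 (Real.log_nonpos (norm_nonneg _) (by linarith))) y
  · obtain ⟨ε, h7, h8⟩ := h6 ε' hε'
    refine ⟨ε, h7, fun J F G z r lo hi t y h => (h8 J F G z r lo hi t y h).trans ?_⟩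
    have h9 : 0 ≤ r := by
      have h10 := norm_nonneg (F 0).a
      rwa [h.scale 0 (Nat.zero_le _), pow_zero, div_one] at h10
    gcongr
    exact gw_mono h4.le (le_max_right _ _) (min_le_right _ _)
      (neg_nonneg.2 (Real.log_nonpos h9 (by linarith [h.small]))) _

/-- The local limit bound for events of the field modulo constants near a frame of the grid. -/
theorem LT0At.nuc_le (hν : IsCanon ν) {C c₀ : ℝ} (h : LT0At ν C c₀) (Γ : Grid) {i : ℕ} {F : Fr}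
    (hF : F ∈ Γ.D i) {A : Set Dist} (hA : MeasurableSet[G0 (ball F.z (16 * rad i))] A)
    (hA' : ∀ k t, lev k t ∈ A ↔ k ∈ A) {b : ℝ≥0∞} (hb : ν A ≤ b ^ 2) (c y : ℝ) :
    nuc ν c {h | Phi F h ∈ Icc y (y + 1) ∧ h ∈ A} ≤ env C c₀ i (y - c) * b := by
  have hm : MeasurableSet A := G0_le _ _ hA
  have hn := Γ.norm_a hF
  have hg : Measurable fun s =>
      gw C c₀ (-Real.log (rad i)) (y - c - s - QQ * Real.log (rad i)) :=
    (measurable_gw _ _ _).comp ((measurable_const.sub measurable_id).sub measurable_const)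
  rw [nuc_apply hν c (A := {h | Phi F h ∈ Icc y (y + 1) ∧ h ∈ A})
    ((measurable_Phi F measurableSet_Icc).inter hm), env, ← lintegral_mul_const _ hg]
  refine lintegral_mono fun s => ?_
  have h1 := h F.z F.a ((Γ.norm_z hF).trans (by norm_num)) F.a_ne
    (hn ▸ (rad_le i).trans (by norm_num)) (A.indicator 1)
    (by rw [hn]; exact Measurable.indicator (m := G0 _) measurable_const hA) b (by
      have e : (fun k => A.indicator (1 : Dist → ℝ≥0∞) k ^ 2) = A.indicator 1 := by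
        funext k; by_cases hk : k ∈ A <;> simp [hk]
      rw [e, lintegral_indicator_one hm]; exact hb)
    (y - c - s - QQ * Real.log (rad i))
  rw [lintegral_indicator_one hm, Measure.restrict_apply hm, hn] at h1
  refine le_trans (measure_mono fun k hk => ?_) h1
  obtain ⟨⟨h2, h3⟩, h4⟩ := hk
  rw [Phi_lev, Phi, hn] at h2 h3
  exact ⟨(hA' _ _).1 h4, by linarith, by linarith⟩

end Pool.Agent.QL
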