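import Pool.Agent.P.MP_7a6434d8_pr.QL.Rsw.Base

/-! Block RSW: range and cover, mean cost of the exceptional family. -/

open MeasureTheory ProbabilityTheory Set Filter Topology Metric
open scoped ENNReal

namespace Pool.Agent.QL

open Pool.Agent.LGD

variable {ν : Measure Dist} {Γ : Grid}

theorem rc_sum {ι : Type*} {S : Finset ι} {f : ι → ℝ≥0∞} {N q B : ℝ≥0∞} (h0 : q ≠ 0)
    (h1 : q ≠ ⊤) (hS : (S.card : ℝ≥0∞) ≤ N * q) (hf : ∀ i ∈ S, q * f i ≤ B) :
    ∑ i ∈ S, f i ≤ N * B := by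
  rw [← ENNReal.mul_le_mul_iff_right h0 h1, Finset.mul_sum]
  calc _ ≤ S.card • B := Finset.sum_le_card_nsmul _ _ _ hf
    _ = S.card * B := nsmul_eq_mul _ _
    _ ≤ N * q * B := by gcongr
    _ = _ := by ring

theorem rc_range (hν : IsCanon ν) {a b : ℝ} (ha : 0 < a) (hb : 0 < b) {C ρ : ℝ≥0∞} (hρ : ρ < 1)
    (h : ∀ (c : ℝ) (i : ℕ), ∀ F ∈ Γ.D i,
      65536 ^ i * nuc ν c {h | Phi F h ∉ Icc (c - b * (i + 1)) (c + 1 - a * i)} ≤ C * ρ ^ i)
    (L : ℕ) (R : Regime ν) (c : ℝ) :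
    R.P c {ω | ω.1 ∈ (Γ.InR L (c - b * (2 * L + 1)) (c + 1 - a * L))ᶜ} ≤
      Γ.N * C * (1 - ρ)⁻¹ * ρ ^ L := by
  rw [Regime.P_fst hν R c (Γ.measurableSet_InR _ _ _).compl]
  calc _ ≤ nuc ν c (⋃ n ∈ Finset.range L, ⋃ F ∈ Γ.D (L + 1 + n),
        {h | Phi F h ∉ Icc (c - b * ((L + 1 + n : ℕ) + 1)) (c + 1 - a * (L + 1 + n : ℕ))}) := by
        refine measure_mono fun k hk => ?_
        simp only [Grid.InR, mem_compl_iff, mem_ofPred_eq, not_forall] at hk
        obtain ⟨n, hn, F, hF, hk⟩ := hk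
        refine mem_iUnion₂.2 ⟨n, Finset.mem_range.2 hn, mem_iUnion₂.2 ⟨F, hF, fun h2 => hk ?_⟩⟩
        have h3 : ((L + 1 + n : ℕ) : ℝ) ≤ 2 * L := by exact_mod_cast (by omega : L + 1 + n ≤ 2 * L)
        have h4 : (L : ℝ) ≤ (L + 1 + n : ℕ) := by exact_mod_cast (by omega : L ≤ L + 1 + n)
        exact Icc_subset_Icc (by nlinarith) (by nlinarith) h2
    _ ≤ ∑ n ∈ Finset.range L, Γ.N * (C * ρ ^ (L + 1 + n)) := by
        refine (measure_biUnion_finset_le _ _).trans (Finset.sum_le_sum fun n _ => ?_)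
        exact (measure_biUnion_finset_le _ _).trans
          (rc_sum (by simp) (by simp) (Γ.card_le _) (h c _))
    _ ≤ ∑ n ∈ Finset.range L, Γ.N * C * ρ ^ L * ρ ^ n := by
        refine Finset.sum_le_sum fun n _ => ?_
        rw [mul_assoc, mul_assoc, ← pow_add]
        have h2 : ρ ^ (L + 1 + n) ≤ ρ ^ (L + n) := pow_le_pow_right_of_le_one' hρ.le (by omega)
        gcongr
    _ ≤ ∑' n, Γ.N * C * ρ ^ L * ρ ^ n := ENNReal.sum_le_tsum _
    _ = _ := by
        rw [ENNReal.tsum_mul_left, ENNReal.tsum_geometric]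
        ring

theorem rc_of (hν : IsCanon ν) (T : Tools ν Γ) : RCSt ν Γ T.a T.b := by
  obtain ⟨ε, hε, hch⟩ := T.chain_sum (ε' := 2⁻¹ * (65536 ^ 2)⁻¹)
    (ENNReal.mul_pos (by simp) (by simp))
  obtain ⟨C, ρ, hC, hρ, hr⟩ := T.range
  refine ⟨ε, hε, fun η hη => ?_⟩
  have t1 : Tendsto (fun L : ℕ => Γ.N * C * (1 - ρ)⁻¹ * ρ ^ L) atTop (𝓝 0) := by
    have h := ENNReal.Tendsto.const_mul (a := Γ.N * C * (1 - ρ)⁻¹)
      (ENNReal.tendsto_pow_atTop_nhds_zero_of_lt_one hρ) (Or.inr (ENNReal.mul_ne_top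
        (ENNReal.mul_ne_top (by simp) hC) (ENNReal.inv_ne_top.2 (tsub_pos_of_lt hρ).ne')))
    rwa [mul_zero] at h
  have t2 : Tendsto (fun L : ℕ => Γ.N * T.Cg * (2⁻¹ : ℝ≥0∞) ^ L) atTop (𝓝 0) := by
    have h := ENNReal.Tendsto.const_mul (a := Γ.N * T.Cg)
      (ENNReal.tendsto_pow_atTop_nhds_zero_of_lt_one (r := 2⁻¹) (by simp))
      (Or.inr (ENNReal.mul_ne_top (by simp) T.Cg_ne))
    rwa [mul_zero] at h
  have t3 := t1.add t2
  rw [add_zero] at t3
  obtain ⟨L₀, hL₀⟩ := eventually_atTop.1 (t3.eventually_le_const hη)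
  refine ⟨L₀, fun L R c x hL hok => le_trans ?_ (hL₀ L hL)⟩
  calc _ ≤ R.P c ({ω | ω.1 ∈ (Γ.InR L (c - T.b * (2 * L + 1)) (c + 1 - T.a * L))ᶜ} ∪
        ⋃ F ∈ Γ.D (2 * L), {ω | (∀ j < L, Phi (Γ.ch (L + 1 + j) F.z) ω.1 ∈
          Icc (c - T.b * (2 * L + 1)) (c + 1 - T.a * L)) ∧ ω.2 ∈ Γ.BadCh L L x F.z}) := by
        refine measure_mono fun ω hω => ?_
        by_cases h1 : ω.1 ∈ Γ.InR L (c - T.b * (2 * L + 1)) (c + 1 - T.a * L)
        · have h2 : ω.2 ∉ Γ.Cover L x := fun h2 => hω ⟨h1, h2⟩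
          simp only [Grid.Cover, mem_ofPred_eq, not_forall, not_not] at h2
          obtain ⟨F, hF, h2⟩ := h2
          exact Or.inr (mem_iUnion₂.2
            ⟨F, hF, fun j hj => h1 j hj _ (Γ.ch_mem _ _ (Γ.z_mem _ F hF)), h2⟩)
        · exact Or.inl h1
    _ ≤ _ := by
        refine (measure_union_le _ _).trans (add_le_add
          (rc_range hν T.a_pos T.b_pos hρ hr L R c) ?_)
        rw [mul_assoc]
        refine (measure_biUnion_finset_le _ _).trans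
          (rc_sum (by simp) (by simp) (Γ.card_le _) fun F hF => ?_)
        calc _ ≤ 65536 ^ (2 * L) * (T.Cg * (2⁻¹ * (65536 ^ 2)⁻¹) ^ L) := by
              gcongr
              exact hch R x c _ _ L L F.z (Γ.z_mem _ F hF) hok
          _ = T.Cg * (2⁻¹ * (65536 ^ 2 * (65536 ^ 2)⁻¹)) ^ L := by
              rw [pow_mul, mul_left_comm, ← mul_pow, mul_left_comm]
          _ = _ := by rw [ENNReal.mul_inv_cancel (by simp) (by simp), mul_one]

theorem rc_geom (n : ℕ) : ∑ i ∈ Finset.range n, (2 : ℝ≥0∞) ^ i ≤ 2 ^ n := by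
  induction n with
  | zero => simp
  | succ n ih =>
    rw [Finset.sum_range_succ, pow_succ, mul_two]
    gcongr

theorem rc_split {t : ℕ → ℝ≥0∞} {δ C : ℝ≥0∞} (L n₀ : ℕ) (h1 : ∀ n < L, t n ≤ 2 ^ n * δ)
    (h2 : ∀ n < L, t n ≤ C * 2⁻¹ ^ n) :
    ∑ n ∈ Finset.range L, t n ≤ (1 + 2 * C) * (2 ^ n₀ * δ + 2⁻¹ ^ n₀) := by
  set s : ℕ → ℝ≥0∞ := fun n => if n < n₀ then 2 ^ n * δ else C * 2⁻¹ ^ n with hs
  calc _ ≤ ∑ n ∈ Finset.range L, s n := by
        refine Finset.sum_le_sum fun n hn => ?_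
        simp only [hs]
        split_ifs
        exacts [h1 n (Finset.mem_range.1 hn), h2 n (Finset.mem_range.1 hn)]
    _ ≤ ∑' n, s n := ENNReal.sum_le_tsum _
    _ = ∑ n ∈ Finset.range n₀, s n + ∑' n, s (n + n₀) :=
        (Summable.sum_add_tsum_nat_add' ENNReal.summable).symm
    _ = (∑ n ∈ Finset.range n₀, 2 ^ n) * δ + 2 * C * 2⁻¹ ^ n₀ := by
        congr 1
        · rw [Finset.sum_mul]
          exact Finset.sum_congr rfl fun n hn => if_pos (Finset.mem_range.1 hn)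
        · have e : ∀ n, s (n + n₀) = C * 2⁻¹ ^ n₀ * 2⁻¹ ^ n := fun n => by
            simp only [hs, if_neg (by omega : ¬ n + n₀ < n₀), pow_add]
            ring
          simp only [e]
          rw [ENNReal.tsum_mul_left, ENNReal.tsum_geometric_two]
          ring
    _ ≤ (1 + 2 * C) * (2 ^ n₀ * δ) + (1 + 2 * C) * 2⁻¹ ^ n₀ := by
        refine add_le_add ?_ (by gcongr; exact le_add_self)
        calc _ ≤ 1 * (2 ^ n₀ * δ) := by
              rw [one_mul]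
              gcongr
              exact rc_geom n₀
          _ ≤ _ := by
              gcongr
              exact le_self_add
    _ = _ := (mul_add _ _ _).symm

theorem costE_of (hν : IsCanon ν) (T : Tools ν Γ) : CostESt ν Γ := by
  obtain ⟨ε, hε, hch⟩ := T.chain_sum (ε' := 4⁻¹) (by simp)
  refine ⟨ε, Γ.N * (1 + 2 * T.Cg), hε, ENNReal.mul_ne_top (by simp)
    (ENNReal.add_ne_top.2 ⟨by simp, ENNReal.mul_ne_top (by simp) T.Cg_ne⟩),
    fun L R c W x x' lo hi n₀ δ hW hok hδ => ?_⟩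
  have mS : ∀ n (F : Fr), MeasurableSet (Γ.Exc L W x F.z ∩ {ω | ω.2 ∈ Γ.BadCh L n x' F.z}) :=
    fun n F => (Γ.measurableSet_Exc L hW x _).inter
      (measurable_snd (Γ.measurableSet_BadCh L n x' _))
  have key : ∀ n < L, ∫⁻ ω in {ω | ω.1 ∈ Γ.InR L lo hi}, ∑ F ∈ Γ.D (L + 1 + n),
      (Γ.Exc L W x F.z ∩ {ω | ω.2 ∈ Γ.BadCh L n x' F.z}).indicator
        (fun _ => ENNReal.ofReal (rad (L + 1 + n) ^ 2 * 2 ^ n)) ω ∂(R.P c) ≤
      Γ.N * (2 ^ n * min δ (T.Cg * 4⁻¹ ^ n)) := fun n hn => by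
    rw [lintegral_finsetSum _ fun F _ => measurable_const.indicator (mS n F)]
    calc _ ≤ (Γ.D (L + 1 + n)).card • (ENNReal.ofReal (rad (L + 1 + n) ^ 2) *
          (2 ^ n * min δ (T.Cg * 4⁻¹ ^ n))) := by
          refine Finset.sum_le_card_nsmul _ _ _ fun F hF => ?_
          have hz := Γ.z_mem _ F hF
          rw [lintegral_indicator_const (mS n F), Measure.restrict_apply (mS n F),
            ENNReal.ofReal_mul (sq_nonneg _), ENNReal.ofReal_pow zero_le_two,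
            ENNReal.ofReal_ofNat, mul_assoc]
          gcongr
          refine le_min ((measure_mono fun ω hω => hω.1.1).trans (hδ _ hz)) ?_
          refine le_trans (measure_mono fun ω hω => ?_) (hch R x' c lo hi L n F.z hz hok)
          exact ⟨fun j hj => hω.2 j (hj.trans hn) _ (Γ.ch_mem _ _ hz), hω.1.2⟩
      _ ≤ _ := by
          rw [nsmul_eq_mul, ← mul_assoc]
          gcongr
          exact Γ.card_mul_le _
  unfold Grid.costE
  rw [lintegral_finsetSum _ fun n _ => Finset.measurable_sum _ fun F _ =>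
    measurable_const.indicator (mS n F)]
  refine (Finset.sum_le_sum fun n hn => key n (Finset.mem_range.1 hn)).trans ?_
  rw [← Finset.mul_sum, mul_assoc]
  gcongr
  refine rc_split L n₀ (fun n _ => by gcongr; exact min_le_left _ _) fun n _ => ?_
  calc _ ≤ 2 ^ n * (T.Cg * 4⁻¹ ^ n) := by
        gcongr
        exact min_le_right _ _
    _ = T.Cg * (2 * 4⁻¹) ^ n := by rw [mul_pow, mul_left_comm]
    _ = _ := by
        have e : (2 : ℝ≥0∞) * 4⁻¹ = 2⁻¹ := by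
          rw [show (4 : ℝ≥0∞) = 2 * 2 by norm_num, ENNReal.mul_inv (by simp) (by simp),
            ← mul_assoc, ENNReal.mul_inv_cancel (by simp) (by simp), one_mul]
        rw [e]

end Pool.Agent.QL
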